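import Mathlib

set_option autoImplicit false

open Finset

namespace Pool.Agent.Helper42.Sel

/-- Affine independence of a finite set, written out. -/
def AI {d : ℕ} (X : Finset (Fin d → ℝ)) : Prop :=
  ∀ w : (Fin d → ℝ) → ℝ, ∑ x ∈ X, w x = 0 → ∑ x ∈ X, w x • x = 0 → ∀ x ∈ X, w x = 0

/-- Intersection indicator mod 2. -/
noncomputable def F {d : ℕ} (S Y : Finset (Fin d → ℝ)) : ZMod 2 :=
  open Classical in
  if (convexHull ℝ (S : Set (Fin d → ℝ)) ∩ convexHull ℝ (Y : Set (Fin d → ℝ))).Nonempty then 1 else 0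

variable {d : ℕ}

theorem AI.mono {X Y : Finset (Fin d → ℝ)} (h : AI Y) (hXY : X ⊆ Y) : AI X := by
  classical
  intro w h1 h2 x hx
  have := h (fun y => if y ∈ X then w y else 0) (by
    rw [Finset.sum_ite_mem, Finset.inter_eq_right.mpr hXY]; exact h1) (by
    have : ∑ y ∈ Y, (if y ∈ X then w y else 0) • y = ∑ y ∈ Y, (if y ∈ X then w y • y else 0) := by
      apply Finset.sum_congr rfl
      intro y _
      split_ifs <;> simp
    rw [this, Finset.sum_ite_mem, Finset.inter_eq_right.mpr hXY]; exact h2) x (hXY hx)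
  simpa [hx] using this

theorem F_empty_left (Y : Finset (Fin d → ℝ)) : F ∅ Y = 0 := by
  simp [F]

theorem F_eq_one_iff (S Y : Finset (Fin d → ℝ)) :
    F S Y = 1 ↔ (convexHull ℝ (S : Set (Fin d → ℝ)) ∩ convexHull ℝ (Y : Set (Fin d → ℝ))).Nonempty := by
  unfold F
  split_ifs with h
  · simp [h]
  · simp [h]

theorem F_eq_ite (S Y : Finset (Fin d → ℝ)) (P : Prop) [Decidable P]
    (h : (convexHull ℝ (S : Set (Fin d → ℝ)) ∩ convexHull ℝ (Y : Set (Fin d → ℝ))).Nonempty ↔ P) :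
    F S Y = if P then 1 else 0 := by
  unfold F
  by_cases hP : P
  · rw [if_pos (h.mpr hP), if_pos hP]
  · rw [if_neg (fun h' => hP (h.mp h')), if_neg hP]

/-- Solutions of the homogeneous system. -/
def Rel (S Y : Finset (Fin d → ℝ)) (u : (Fin d → ℝ) → ℝ) : Prop :=
  ∑ x ∈ S, u x = ∑ x ∈ Y, u x ∧ ∑ x ∈ S, u x • x = ∑ x ∈ Y, u x • x

theorem Rel.lin {S Y : Finset (Fin d → ℝ)} {u v : (Fin d → ℝ) → ℝ} (hu : Rel S Y u) (hv : Rel S Y v)
    (a b : ℝ) : Rel S Y (fun x => a * u x + b * v x) := by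
  constructor
  · simp only [Finset.sum_add_distrib, ← Finset.mul_sum, hu.1, hv.1]
  · simp only [add_smul, mul_smul, Finset.sum_add_distrib, ← Finset.smul_sum, hu.2, hv.2]

theorem Rel.eq_zero {S Y : Finset (Fin d → ℝ)} [DecidableEq (Fin d → ℝ)] (hdisj : Disjoint S Y)
    (hcard : S.card + Y.card = d + 3)
    (hgen : ∀ X ⊆ S ∪ Y, X.card = d + 1 → AI X) {u : (Fin d → ℝ) → ℝ} (hu : Rel S Y u)
    {i j : Fin d → ℝ} (hi : i ∈ S ∪ Y) (hj : j ∈ S ∪ Y) (hij : i ≠ j) (hui : u i = 0) (huj : u j = 0) :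
    ∀ x ∈ S ∪ Y, u x = 0 := by
  set X := ((S ∪ Y).erase i).erase j with hX
  have hXcard : X.card = d + 1 := by
    rw [hX, Finset.card_erase_of_mem (by simp [hij.symm] at hj ⊢; exact hj),
      Finset.card_erase_of_mem hi, Finset.card_union_of_disjoint hdisj]
    omega
  have hAI := hgen X ((Finset.erase_subset _ _).trans (Finset.erase_subset _ _)) hXcard
  let ω : (Fin d → ℝ) → ℝ := fun x => if x ∈ S then u x else - u x
  have hωi : ω i = 0 := by simp [ω, hui]
  have hωj : ω j = 0 := by simp [ω, huj]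
  have hj' : j ∈ (S ∪ Y).erase i := by simp only [Finset.mem_erase]; exact ⟨hij.symm, hj⟩
  have hS1 : ∑ x ∈ S, ω x = ∑ x ∈ S, u x := Finset.sum_congr rfl (fun x hx => by simp [ω, hx])
  have hY1 : ∑ x ∈ Y, ω x = - ∑ x ∈ Y, u x := by
    rw [← Finset.sum_neg_distrib]
    exact Finset.sum_congr rfl (fun x hx => by
      simp [ω, Finset.disjoint_right.mp hdisj hx])
  have hS2 : ∑ x ∈ S, ω x • x = ∑ x ∈ S, u x • x :=
    Finset.sum_congr rfl (fun x hx => by simp [ω, hx])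
  have hY2 : ∑ x ∈ Y, ω x • x = - ∑ x ∈ Y, u x • x := by
    rw [← Finset.sum_neg_distrib]
    exact Finset.sum_congr rfl (fun x hx => by
      simp [ω, Finset.disjoint_right.mp hdisj hx])
  have h1 : ∑ x ∈ X, ω x = 0 := by
    have e1 := Finset.sum_erase_eq_sub (f := ω) hj'
    have e2 := Finset.sum_erase_eq_sub (f := ω) hi
    rw [hX, e1, e2, hωi, hωj, Finset.sum_union hdisj, hS1, hY1, hu.1]; simp
  have h2 : ∑ x ∈ X, ω x • x = 0 := by
    have e1 := Finset.sum_erase_eq_sub (f := fun x => ω x • x) hj'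
    have e2 := Finset.sum_erase_eq_sub (f := fun x => ω x • x) hi
    rw [hX, e1, e2, hωi, hωj, Finset.sum_union hdisj, hS2, hY2, hu.2]; simp
  have h3 := hAI ω h1 h2
  intro x hx
  by_cases hxi : x = i
  · rw [hxi, hui]
  by_cases hxj : x = j
  · rw [hxj, huj]
  have hx' : x ∈ X := by
    rw [hX]; simp only [Finset.mem_erase]; exact ⟨hxj, hxi, hx⟩
  have := h3 x hx'
  simp only [ω] at this
  split_ifs at this
  · exact this
  · linarith

/-- A nonzero direction. -/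
theorem exists_dir {S Y : Finset (Fin d → ℝ)} [DecidableEq (Fin d → ℝ)] (hdisj : Disjoint S Y)
    (hcard : S.card + Y.card = d + 3) :
    ∃ v : (Fin d → ℝ) → ℝ, ∑ x ∈ S, v x = 0 ∧ ∑ x ∈ Y, v x = 0 ∧
      ∑ x ∈ S, v x • x = ∑ x ∈ Y, v x • x ∧ ∃ x ∈ S ∪ Y, v x ≠ 0 := by
  classical
  let φ : (S ∪ Y : Finset (Fin d → ℝ)) → ℝ × ℝ × (Fin d → ℝ) := fun x =>
    if (x : Fin d → ℝ) ∈ S then (1, 0, (x : Fin d → ℝ)) else (0, 1, -(x : Fin d → ℝ))
  have hnot : ¬ LinearIndependent ℝ φ := by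
    intro hl
    have := hl.fintype_card_le_finrank
    rw [Fintype.card_coe, Finset.card_union_of_disjoint hdisj, hcard] at this
    simp at this
    omega
  rw [Fintype.not_linearIndependent_iff] at hnot
  obtain ⟨g, hg, i, hi⟩ := hnot
  let v : (Fin d → ℝ) → ℝ := fun x => if h : x ∈ S ∪ Y then g ⟨x, h⟩ else 0
  have hvg : ∀ x : (S ∪ Y : Finset (Fin d → ℝ)), v x = g x := by
    intro x; simp only [v]; rw [dif_pos x.2]
  have hsum : ∑ x ∈ S ∪ Y, v x • (if x ∈ S then ((1:ℝ), (0:ℝ), x) else (0, 1, -x)) = 0 := by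
    rw [← Finset.sum_coe_sort, ← hg]
    apply Finset.sum_congr rfl
    intro x _
    rw [hvg]
  rw [Finset.sum_union hdisj] at hsum
  have hS : ∑ x ∈ S, v x • (if x ∈ S then ((1:ℝ), (0:ℝ), x) else (0, 1, -x)) =
      (∑ x ∈ S, v x, 0, ∑ x ∈ S, v x • x) := by
    have : ∀ x ∈ S, v x • (if x ∈ S then ((1:ℝ), (0:ℝ), x) else (0, 1, -x)) = (v x, 0, v x • x) := by
      intro x hx
      simp [hx]
    rw [Finset.sum_congr rfl this, Prod.ext_iff, Prod.ext_iff]
    simp [Prod.fst_sum, Prod.snd_sum]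
  have hY : ∑ x ∈ Y, v x • (if x ∈ S then ((1:ℝ), (0:ℝ), x) else (0, 1, -x)) =
      (0, ∑ x ∈ Y, v x, - ∑ x ∈ Y, v x • x) := by
    have : ∀ x ∈ Y, v x • (if x ∈ S then ((1:ℝ), (0:ℝ), x) else (0, 1, -x)) = (0, v x, -(v x • x)) := by
      intro x hx
      simp [Finset.disjoint_right.mp hdisj hx]
    rw [Finset.sum_congr rfl this, Prod.ext_iff, Prod.ext_iff]
    simp [Prod.fst_sum, Prod.snd_sum]
  rw [hS, hY, Prod.ext_iff, Prod.ext_iff] at hsum
  simp only [Prod.mk_add_mk, Prod.fst_zero, Prod.snd_zero, add_zero, zero_add] at hsum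
  refine ⟨v, hsum.1, hsum.2.1, ?_, i, i.2, ?_⟩
  · have := hsum.2.2
    rw [← sub_eq_add_neg] at this
    exact sub_eq_zero.mp this
  · rw [hvg]; exact hi

/-- Nonnegative normalized solutions. -/
def Q (S Y : Finset (Fin d → ℝ)) (w : (Fin d → ℝ) → ℝ) : Prop :=
  (∀ x ∈ S, 0 ≤ w x) ∧ (∀ x ∈ Y, 0 ≤ w x) ∧ ∑ x ∈ S, w x = 1 ∧ ∑ x ∈ Y, w x = 1 ∧
    ∑ x ∈ S, w x • x = ∑ x ∈ Y, w x • x

theorem Q.symm {S Y : Finset (Fin d → ℝ)} {w : (Fin d → ℝ) → ℝ} (h : Q S Y w) : Q Y S w :=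
  ⟨h.2.1, h.1, h.2.2.2.1, h.2.2.1, h.2.2.2.2.symm⟩

theorem F_symm (S Y : Finset (Fin d → ℝ)) : F S Y = F Y S := by
  unfold F
  rw [Set.inter_comm]

theorem meet_iff [DecidableEq (Fin d → ℝ)] {S Y : Finset (Fin d → ℝ)} (hdisj : Disjoint S Y)
    {s : Fin d → ℝ} (hs : s ∈ S) :
    (convexHull ℝ ((S.erase s : Finset (Fin d → ℝ)) : Set (Fin d → ℝ)) ∩
      convexHull ℝ (Y : Set (Fin d → ℝ))).Nonempty ↔ ∃ w, Q S Y w ∧ w s = 0 := by
  constructor
  · rintro ⟨p, hp1, hp2⟩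
    rw [Finset.mem_convexHull'] at hp1 hp2
    obtain ⟨a, ha0, ha1, ha2⟩ := hp1
    obtain ⟨b, hb0, hb1, hb2⟩ := hp2
    have hsY : ∀ x ∈ Y, x ≠ s := by
      intro x hx h
      exact Finset.disjoint_right.mp hdisj hx (h ▸ hs)
    refine ⟨fun x => if x = s then 0 else if x ∈ S then a x else b x, ⟨?_, ?_, ?_, ?_, ?_⟩, by simp⟩
    · intro x hx
      by_cases hxs : x = s
      · simp [hxs]
      · simp only [hxs, if_false, hx, if_true]
        exact ha0 x (by simp [hxs, hx])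
    · intro x hx
      simp only [hsY x hx, if_false, Finset.disjoint_right.mp hdisj hx]
      exact hb0 x hx
    · rw [← Finset.add_sum_erase _ _ hs, if_pos rfl, zero_add, ← ha1]
      apply Finset.sum_congr rfl
      intro x hx
      rw [Finset.mem_erase] at hx
      simp [hx.1, hx.2]
    · rw [← hb1]
      apply Finset.sum_congr rfl
      intro x hx
      simp only [hsY x hx, if_false, Finset.disjoint_right.mp hdisj hx]
    · have e1 : ∑ x ∈ S, (if x = s then 0 else if x ∈ S then a x else b x) • x = p := by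
        rw [← Finset.add_sum_erase _ _ hs, if_pos rfl, zero_smul, zero_add, ← ha2]
        apply Finset.sum_congr rfl
        intro x hx
        rw [Finset.mem_erase] at hx
        simp [hx.1, hx.2]
      have e2 : ∑ x ∈ Y, (if x = s then 0 else if x ∈ S then a x else b x) • x = p := by
        rw [← hb2]
        apply Finset.sum_congr rfl
        intro x hx
        simp only [hsY x hx, if_false, Finset.disjoint_right.mp hdisj hx]
      rw [e1, e2]
  · rintro ⟨w, ⟨h1, h2, h3, h4, h5⟩, hws⟩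
    refine ⟨∑ x ∈ Y, w x • x, ?_, ?_⟩
    · rw [Finset.mem_convexHull']
      refine ⟨w, fun y hy => h1 y (Finset.mem_of_mem_erase hy), ?_, ?_⟩
      · rw [← h3, ← Finset.add_sum_erase _ _ hs, hws, zero_add]
      · rw [← h5, ← Finset.add_sum_erase _ _ hs, hws, zero_smul, zero_add]
    · rw [Finset.mem_convexHull']
      exact ⟨w, h2, h4, rfl⟩

theorem F_erase_left [DecidableEq (Fin d → ℝ)] {S Y : Finset (Fin d → ℝ)} (hdisj : Disjoint S Y)
    {s : Fin d → ℝ} (hs : s ∈ S) [Decidable (∃ w, Q S Y w ∧ w s = 0)] :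
    F (S.erase s) Y = if ∃ w, Q S Y w ∧ w s = 0 then 1 else 0 :=
  F_eq_ite _ _ _ (meet_iff hdisj hs)

theorem F_erase_right [DecidableEq (Fin d → ℝ)] {S Y : Finset (Fin d → ℝ)} (hdisj : Disjoint S Y)
    {s : Fin d → ℝ} (hs : s ∈ Y) [Decidable (∃ w, Q S Y w ∧ w s = 0)] :
    F S (Y.erase s) = if ∃ w, Q S Y w ∧ w s = 0 then 1 else 0 := by
  classical
  rw [F_symm]
  have := F_erase_left hdisj.symm hs
  rw [this]
  have h : (∃ w, Q Y S w ∧ w s = 0) ↔ (∃ w, Q S Y w ∧ w s = 0) :=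
    ⟨fun ⟨w, h, h'⟩ => ⟨w, h.symm, h'⟩, fun ⟨w, h, h'⟩ => ⟨w, h.symm, h'⟩⟩
  by_cases h0 : ∃ w, Q S Y w ∧ w s = 0
  · rw [if_pos h0, if_pos (h.mpr h0)]
  · rw [if_neg h0, if_neg (fun h' => h0 (h.mp h'))]

/-- The basic parity relation `∂S ∩ Y + S ∩ ∂Y = 0`. -/
theorem basic_parity [DecidableEq (Fin d → ℝ)] (S Y : Finset (Fin d → ℝ)) (hdisj : Disjoint S Y)
    (hcard : S.card + Y.card = d + 3)
    (hgen : ∀ X ⊆ S ∪ Y, X.card = d + 1 → AI X) :
    ∑ s ∈ S, F (S.erase s) Y + ∑ y ∈ Y, F S (Y.erase y) = 0 := by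
  classical
  have e1 : ∑ s ∈ S, F (S.erase s) Y = ∑ s ∈ S, if ∃ w, Q S Y w ∧ w s = 0 then (1 : ZMod 2) else 0 :=
    Finset.sum_congr rfl (fun s hs => F_erase_left hdisj hs)
  have e2 : ∑ s ∈ Y, F S (Y.erase s) = ∑ s ∈ Y, if ∃ w, Q S Y w ∧ w s = 0 then (1 : ZMod 2) else 0 :=
    Finset.sum_congr rfl (fun s hs => F_erase_right hdisj hs)
  rw [e1, e2, ← Finset.sum_union hdisj]
  by_cases hQ : ∃ w, Q S Y w
  swap
  · apply Finset.sum_eq_zero
    intro x _
    rw [if_neg]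
    rintro ⟨w, h, _⟩
    exact hQ ⟨w, h⟩
  obtain ⟨w, hw⟩ := hQ
  obtain ⟨v, hv1, hv2, hv3, hv4⟩ := exists_dir hdisj hcard
  -- relations
  have hRv : Rel S Y v := ⟨by rw [hv1, hv2], hv3⟩
  have hRQ : ∀ w', Q S Y w' → Rel S Y w' := fun w' h => ⟨by rw [h.2.2.1, h.2.2.2.1], h.2.2.2.2⟩
  have hvtot : ∑ x ∈ S ∪ Y, v x = 0 := by rw [Finset.sum_union hdisj, hv1, hv2, add_zero]
  obtain ⟨ip, hip, hip'⟩ := Finset.exists_pos_of_sum_zero_of_exists_nonzero v hvtot hv4
  obtain ⟨im, him, him'⟩ := Finset.exists_pos_of_sum_zero_of_exists_nonzero (fun x => - v x)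
    (by rw [Finset.sum_neg_distrib, hvtot, neg_zero]) (by
      obtain ⟨x, hx, hx'⟩ := hv4
      exact ⟨x, hx, neg_ne_zero.mpr hx'⟩)
  obtain ⟨i1, hi1, hmin1⟩ := Finset.exists_min_image ((S ∪ Y).filter (fun x => v x < 0))
    (fun x => w x / (- v x)) ⟨im, by simp only [Finset.mem_filter]; exact ⟨him, by linarith⟩⟩
  obtain ⟨i0, hi0, hmin0⟩ := Finset.exists_min_image ((S ∪ Y).filter (fun x => 0 < v x))
    (fun x => w x / (v x)) ⟨ip, by simp only [Finset.mem_filter]; exact ⟨hip, by linarith⟩⟩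
  rw [Finset.mem_filter] at hi0 hi1
  obtain ⟨hi1, hvi1⟩ := hi1
  obtain ⟨hi0, hvi0⟩ := hi0
  have hne : i0 ≠ i1 := by
    intro h; rw [h] at hvi0; linarith
  have hw0 : ∀ x ∈ S ∪ Y, 0 ≤ w x := by
    intro x hx
    rw [Finset.mem_union] at hx
    rcases hx with hx | hx
    · exact hw.1 x hx
    · exact hw.2.1 x hx
  set t1 := w i1 / (- v i1) with ht1
  set t0 := - (w i0 / v i0) with ht0
  have ht1' : 0 ≤ t1 := div_nonneg (hw0 i1 hi1) (by linarith)
  have ht0' : t0 ≤ 0 := by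
    have := div_nonneg (hw0 i0 hi0) hvi0.le
    linarith
  have hline : ∀ t : ℝ, (∀ x ∈ S ∪ Y, 0 ≤ w x + t * v x) → Q S Y (fun x => w x + t * v x) := by
    intro t ht
    refine ⟨fun x hx => ht x (Finset.mem_union_left _ hx), fun x hx => ht x (Finset.mem_union_right _ hx),
      ?_, ?_, ?_⟩
    · rw [Finset.sum_add_distrib, ← Finset.mul_sum, hv1, hw.2.2.1]; ring
    · rw [Finset.sum_add_distrib, ← Finset.mul_sum, hv2, hw.2.2.2.1]; ring
    · have := ((hRQ w hw).lin hRv 1 t).2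
      simpa using this
  have hpos1 : ∀ x ∈ S ∪ Y, 0 ≤ w x + t1 * v x := by
    intro x hx
    by_cases hvx : v x < 0
    · have := hmin1 x (by simp only [Finset.mem_filter]; exact ⟨hx, hvx⟩)
      have h2 : t1 * (- v x) ≤ w x := by
        rw [← le_div_iff₀ (by linarith)]; exact this
      linarith
    · rw [not_lt] at hvx
      have := hw0 x hx
      positivity
  have hpos0 : ∀ x ∈ S ∪ Y, 0 ≤ w x + t0 * v x := by
    intro x hx
    by_cases hvx : 0 < v x
    · have := hmin0 x (by simp only [Finset.mem_filter]; exact ⟨hx, hvx⟩)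
      have h2 : (- t0) * (v x) ≤ w x := by
        rw [← le_div_iff₀ (by linarith), ht0, neg_neg]; exact this
      linarith
    · rw [not_lt] at hvx
      have := hw0 x hx
      nlinarith
  have hQ1 := hline t1 hpos1
  have hQ0 := hline t0 hpos0
  have hz1 : w i1 + t1 * v i1 = 0 := by
    have := hvi1.ne
    rw [ht1, div_neg, neg_mul, div_mul_cancel₀ _ this]; ring
  have hz0 : w i0 + t0 * v i0 = 0 := by
    have := hvi0.ne'
    rw [ht0, neg_mul, div_mul_cancel₀ _ this]; ring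
  have huniq : ∀ w', Q S Y w' → ∀ i ∈ S ∪ Y, ∀ j ∈ S ∪ Y, w' i = 0 → w' j = 0 → i = j := by
    intro w' hw' i hi j hj h1 h2
    by_contra hij
    have := (hRQ w' hw').eq_zero hdisj hcard hgen hi hj hij h1 h2
    have h3 : ∑ x ∈ S, w' x = 0 := Finset.sum_eq_zero (fun x hx => this x (Finset.mem_union_left _ hx))
    rw [hw'.2.2.1] at h3
    exact one_ne_zero h3
  have hparam : ∀ w', Q S Y w' → ∃ t, ∀ x ∈ S ∪ Y, w' x = w x + t * v x := by
    intro w' hw'
    set t := (w' i1 - w i1) / v i1 with ht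
    set u' : (Fin d → ℝ) → ℝ := fun x => 1 * (w' x - w x) + (-t) * v x with hu'
    have hRu : Rel S Y u' := by
      have h1 := (hRQ w' hw').lin (hRQ w hw) 1 (-1)
      have h2 := h1.lin hRv 1 (-t)
      have : (fun x => 1 * (1 * w' x + -1 * w x) + -t * v x) = u' := by
        funext x; rw [hu']; ring
      rw [this] at h2
      exact h2
    have hui1 : u' i1 = 0 := by
      rw [hu', ht]
      have : v i1 ≠ 0 := hvi1.ne
      field_simp
      ring
    have hRz := ((hRv.lin hRu (- (u' i0) * w i1) (w i1 * v i0 - w i0 * v i1))).lin (hRQ w hw) 1 (v i1 * u' i0)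
    have hz := hRz.eq_zero hdisj hcard hgen hi0 hi1 hne (by ring) (by rw [hui1]; ring)
    have hSz : ∑ x ∈ S, (1 * (-u' i0 * w i1 * v x + (w i1 * v i0 - w i0 * v i1) * u' x) + v i1 * u' i0 * w x) = 0 :=
      Finset.sum_eq_zero (fun x hx => hz x (Finset.mem_union_left _ hx))
    have hSu : ∑ x ∈ S, u' x = 0 := by
      rw [hu', Finset.sum_add_distrib, ← Finset.mul_sum, ← Finset.mul_sum, Finset.sum_sub_distrib, hv1, hw'.2.2.1,
        hw.2.2.1]
      ring
    rw [Finset.sum_add_distrib, ← Finset.mul_sum, ← Finset.mul_sum, Finset.sum_add_distrib, ← Finset.mul_sum,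
      ← Finset.mul_sum, hv1, hSu, hw.2.2.1] at hSz
    have hui0 : u' i0 = 0 := by
      have h3 : v i1 * u' i0 = 0 := by linarith
      rcases mul_eq_zero.mp h3 with h | h
      · exact absurd h hvi1.ne
      · exact h
    have hu0 := hRu.eq_zero hdisj hcard hgen hi0 hi1 hne hui0 hui1
    refine ⟨t, fun x hx => ?_⟩
    have := hu0 x hx
    rw [hu'] at this
    simp only at this
    linarith
  have hfilter : (S ∪ Y).filter (fun x => ∃ w, Q S Y w ∧ w x = 0) = {i0, i1} := by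
    ext i
    rw [Finset.mem_filter, Finset.mem_insert, Finset.mem_singleton]
    constructor
    · rintro ⟨hi, w', hw', hwi⟩
      obtain ⟨t, ht⟩ := hparam w' hw'
      have hw'0 : ∀ x ∈ S ∪ Y, 0 ≤ w' x := by
        intro x hx
        rw [Finset.mem_union] at hx
        rcases hx with hx | hx
        · exact hw'.1 x hx
        · exact hw'.2.1 x hx
      have hti : w i + t * v i = 0 := by rw [← ht i hi]; exact hwi
      have h1 : 0 ≤ w i1 + t * v i1 := by rw [← ht i1 hi1]; exact hw'0 i1 hi1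
      have h0 : 0 ≤ w i0 + t * v i0 := by rw [← ht i0 hi0]; exact hw'0 i0 hi0
      have htt1 : t ≤ t1 := by
        rw [ht1, le_div_iff₀ (by linarith)]; linarith
      have htt0 : t0 ≤ t := by
        have h4 : - t ≤ w i0 / v i0 := by
          rw [le_div_iff₀ hvi0]; linarith
        rw [ht0]; linarith
      rcases lt_trichotomy (v i) 0 with hvi | hvi | hvi
      · right
        have h5 := hmin1 i (by simp only [Finset.mem_filter]; exact ⟨hi, hvi⟩)
        have h6 : w i / (- v i) = t := by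
          rw [div_eq_iff (by linarith)]; linarith
        rw [h6] at h5
        have h7 : t = t1 := le_antisymm htt1 h5
        rw [h7] at hti
        exact huniq _ hQ1 i hi i1 hi1 hti hz1
      · right
        rw [hvi, mul_zero, add_zero] at hti
        exact huniq _ hQ1 i hi i1 hi1 (by rw [hti, hvi]; ring) hz1
      · left
        have h5 := hmin0 i (by simp only [Finset.mem_filter]; exact ⟨hi, hvi⟩)
        have h6 : w i / (v i) = - t := by
          rw [div_eq_iff (by linarith)]; linarith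
        rw [h6] at h5
        have h7 : t = t0 := le_antisymm (by rw [ht0]; linarith) htt0
        rw [h7] at hti
        exact huniq _ hQ0 i hi i0 hi0 hti hz0
    · rintro (h | h)
      · rw [h]; exact ⟨hi0, _, hQ0, hz0⟩
      · rw [h]; exact ⟨hi1, _, hQ1, hz1⟩
  rw [← Finset.sum_filter, hfilter, Finset.sum_pair hne]
  decide

end Pool.Agent.Helper42.Sel
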