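import Mathlib
import Pool.Agent.Helper42.Sel.Basic

set_option autoImplicit false

open Finset

namespace Pool.Agent.Helper42.Sel

variable {d : ℕ}

/-- The indicator of being nonzero. -/
noncomputable def val (a : ZMod 2) : ℝ := if a = 0 then 0 else 1

theorem val_zero : val 0 = 0 := by simp [val]

theorem val_one : val 1 = 1 := by simp [val]

theorem val_nonneg (a : ZMod 2) : 0 ≤ val a := by unfold val; split_ifs <;> norm_num

theorem val_add_le (a b : ZMod 2) : val (a + b) ≤ val a + val b := by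
  unfold val
  by_cases ha : a = 0 <;> by_cases hb : b = 0
  · simp [ha, hb]
  · simp [ha, hb]
  · simp [ha, hb]
  · rw [if_neg ha, if_neg hb]; split_ifs <;> norm_num

theorem val_sum_le {ι : Type*} (s : Finset ι) (f : ι → ZMod 2) : val (∑ i ∈ s, f i) ≤ ∑ i ∈ s, val (f i) := by
  classical
  induction s using Finset.induction_on with
  | empty => simp [val_zero]
  | insert a s ha ih =>
    rw [Finset.sum_insert ha, Finset.sum_insert ha]
    exact (val_add_le _ _).trans (by linarith)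

/-- Averaging over one coordinate. -/
theorem sum_update {m : ℕ} {X : Type*} [DecidableEq X] (C : Fin m → Finset X) (j : Fin m)
    (f : (Fin m → X) → ℝ) :
    ∑ x ∈ C j, ∑ y ∈ Fintype.piFinset C, f (Function.update y j x) =
      (C j).card * ∑ y ∈ Fintype.piFinset C, f y := by
  rw [← Finset.sum_product' (C j) (Fintype.piFinset C) (fun x y => f (Function.update y j x))]
  have : ((C j).card : ℝ) * ∑ y ∈ Fintype.piFinset C, f y =
      ∑ p ∈ (C j) ×ˢ (Fintype.piFinset C), f p.2 := by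
    rw [Finset.sum_product]
    simp
  rw [this]
  refine Finset.sum_bij' (fun p _ => (p.2 j, Function.update p.2 j p.1))
    (fun p _ => (p.2 j, Function.update p.2 j p.1)) ?_ ?_ ?_ ?_ ?_
  · rintro ⟨x, y⟩ h
    simp only [Finset.mem_product, Fintype.mem_piFinset] at h ⊢
    refine ⟨h.2 j, fun i => ?_⟩
    by_cases hij : i = j
    · subst hij; simp [h.1]
    · simp [Function.update_of_ne hij, h.2 i]
  · rintro ⟨x, y⟩ h
    simp only [Finset.mem_product, Fintype.mem_piFinset] at h ⊢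
    refine ⟨h.2 j, fun i => ?_⟩
    by_cases hij : i = j
    · subst hij; simp [h.1]
    · simp [Function.update_of_ne hij, h.2 i]
  · rintro ⟨x, y⟩ h; simp
  · rintro ⟨x, y⟩ h; simp
  · rintro ⟨x, y⟩ h; simp

/-- The points of colour at least `k`. -/
noncomputable def Yset (k : ℕ) (y : Fin (d + 1) → (Fin d → ℝ)) : Finset (Fin d → ℝ) :=
  (Finset.univ.filter (fun i : Fin (d + 1) => k ≤ i.val)).image y

theorem insert_Yset {n : ℕ} (hn : n < d + 1) (y : Fin (d + 1) → (Fin d → ℝ)) (x : Fin d → ℝ) :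
    insert x (Yset (n + 1) y) = Yset n (Function.update y ⟨n, hn⟩ x) := by
  have : (Finset.univ.filter (fun i : Fin (d + 1) => n ≤ i.val)) =
      insert ⟨n, hn⟩ (Finset.univ.filter (fun i : Fin (d + 1) => n + 1 ≤ i.val)) := by
    ext i
    simp only [Finset.mem_filter, Finset.mem_univ, true_and, Finset.mem_insert]
    constructor
    · intro h
      rcases Nat.eq_or_lt_of_le h with h | h
      · left; exact Fin.ext h.symm
      · right; exact h
    · rintro (h | h)
      · rw [h]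
      · omega
  unfold Yset
  rw [this, Finset.image_insert, Function.update_self]
  congr 1
  apply Finset.image_congr
  intro i hi
  simp only [Finset.coe_filter, Finset.mem_univ, true_and, Set.mem_ofPred_eq] at hi
  rw [Function.update_of_ne]
  intro h
  rw [h] at hi
  simp at hi

section
variable (C : Fin (d + 1) → Finset (Fin d → ℝ)) (hC : ∀ i, (C i).Nonempty)

/-- total number of hits after fixing coordinate `k` to be `x` -/
noncomputable def cost (k : Fin (d + 1)) (f : Finset (Fin d → ℝ) → Finset (Fin d → ℝ) → ZMod 2)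
    (τ : Finset (Fin d → ℝ)) (x : Fin d → ℝ) : ℝ :=
  ∑ y ∈ Fintype.piFinset C, val (f τ (Yset k (Function.update y k x)))

/-- the optimal choice of a point of colour `n - 1` -/
noncomputable def pick (n : ℕ) (f : Finset (Fin d → ℝ) → Finset (Fin d → ℝ) → ZMod 2)
    (τ : Finset (Fin d → ℝ)) : Fin d → ℝ :=
  if h : n - 1 < d + 1 then
    Classical.choose (Finset.exists_min_image (C ⟨n - 1, h⟩) (cost C ⟨n - 1, h⟩ f τ) (hC _))
  else Classical.choose (hC 0)

theorem pick_mem {n : ℕ} (h : n - 1 < d + 1) (f : Finset (Fin d → ℝ) → Finset (Fin d → ℝ) → ZMod 2)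
    (τ : Finset (Fin d → ℝ)) : pick C hC n f τ ∈ C ⟨n - 1, h⟩ := by
  unfold pick
  rw [dif_pos h]
  exact (Classical.choose_spec
    (Finset.exists_min_image (C ⟨n - 1, h⟩) (cost C ⟨n - 1, h⟩ f τ) (hC _))).1

theorem pick_cost {n : ℕ} (h : n < d + 1) (f : Finset (Fin d → ℝ) → Finset (Fin d → ℝ) → ZMod 2)
    (τ : Finset (Fin d → ℝ)) :
    ∑ y ∈ Fintype.piFinset C, val (f τ (insert (pick C hC (n + 1) f τ) (Yset (n + 1) y))) ≤
      ∑ y ∈ Fintype.piFinset C, val (f τ (Yset n y)) := by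
  have hmin := (Classical.choose_spec
    (Finset.exists_min_image (C ⟨n, h⟩) (cost C ⟨n, h⟩ f τ) (hC _))).2
  have hp : pick C hC (n + 1) f τ = Classical.choose
    (Finset.exists_min_image (C ⟨n, h⟩) (cost C ⟨n, h⟩ f τ) (hC _)) := by
    unfold pick
    have h' : n + 1 - 1 < d + 1 := by simpa using h
    rw [dif_pos h']
  rw [← hp] at hmin
  have h1 : ∑ y ∈ Fintype.piFinset C, val (f τ (insert (pick C hC (n + 1) f τ) (Yset (n + 1) y))) =
      cost C ⟨n, h⟩ f τ (pick C hC (n + 1) f τ) := by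
    unfold cost
    apply Finset.sum_congr rfl
    intro y _
    rw [insert_Yset h]
  rw [h1]
  have h2 := sum_update C ⟨n, h⟩ (fun y => val (f τ (Yset n y)))
  have h3 : ((C ⟨n, h⟩).card : ℝ) * cost C ⟨n, h⟩ f τ (pick C hC (n + 1) f τ) ≤
      ∑ x ∈ C ⟨n, h⟩, ∑ y ∈ Fintype.piFinset C, val (f τ (Yset n (Function.update y ⟨n, h⟩ x))) := by
    rw [← nsmul_eq_mul]
    apply Finset.card_nsmul_le_sum
    intro x hx
    exact hmin x hx
  rw [h2] at h3
  have h4 : (0 : ℝ) < ((C ⟨n, h⟩).card : ℝ) := by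
    exact_mod_cast (hC _).card_pos
  exact le_of_mul_le_mul_left h3 h4

/-- The recursively defined cochains. -/
noncomputable def A : ℕ → Finset (Fin d → ℝ) → Finset (Fin d → ℝ) → ZMod 2
  | 0 => fun _ _ => 0
  | n + 1 => fun σ Y => F σ Y + ∑ s ∈ σ, A n (σ.erase s) (insert (pick C hC n (A n) (σ.erase s)) Y)

theorem A_zero (σ Y : Finset (Fin d → ℝ)) : A C hC 0 σ Y = 0 := rfl

theorem A_succ (n : ℕ) (σ Y : Finset (Fin d → ℝ)) : A C hC (n + 1) σ Y =
    F σ Y + ∑ s ∈ σ, A C hC n (σ.erase s) (insert (pick C hC n (A C hC n) (σ.erase s)) Y) := rfl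

/-- density bound -/
theorem A_bound (V : Finset (Fin d → ℝ)) (c t : ℝ) (ht : 0 ≤ t)
    (H1 : ∀ p ∈ V, ∑ y ∈ Fintype.piFinset C, val (F {p} (Yset 0 y)) ≤ c * (Fintype.piFinset C).card)
    (H2 : ∀ σ ⊆ V, ∀ n : ℕ, σ.card = n + 2 → n + 2 ≤ d + 1 →
      ∑ y ∈ Fintype.piFinset C, val (F σ (Yset (n + 1) y)) ≤ t * (Fintype.piFinset C).card) :
    ∀ n : ℕ, n + 1 ≤ d + 1 → ∀ σ ⊆ V, σ.card = n + 1 →
      ∑ y ∈ Fintype.piFinset C, val (A C hC (n + 1) σ (Yset n y)) ≤
        (n + 1).factorial * (c + n * t) * (Fintype.piFinset C).card := by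
  intro n
  induction n with
  | zero =>
    intro _ σ hσ hcard
    rw [zero_add, Finset.card_eq_one] at hcard
    obtain ⟨p, rfl⟩ := hcard
    have := H1 p (hσ (by simp))
    simpa [A_succ, A_zero] using this
  | succ n ih =>
    intro hn σ hσ hcard
    have step1 : ∀ y : Fin (d + 1) → (Fin d → ℝ), val (A C hC (n + 1 + 1) σ (Yset (n + 1) y)) ≤
        val (F σ (Yset (n + 1) y)) + ∑ s ∈ σ, val (A C hC (n + 1) (σ.erase s)
          (insert (pick C hC (n + 1) (A C hC (n + 1)) (σ.erase s)) (Yset (n + 1) y))) := by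
      intro y
      rw [A_succ]
      refine (val_add_le _ _).trans ?_
      have := val_sum_le σ (fun s => A C hC (n + 1) (σ.erase s)
          (insert (pick C hC (n + 1) (A C hC (n + 1)) (σ.erase s)) (Yset (n + 1) y)))
      linarith
    have step2 : ∑ y ∈ Fintype.piFinset C, val (A C hC (n + 1 + 1) σ (Yset (n + 1) y)) ≤
        ∑ y ∈ Fintype.piFinset C, val (F σ (Yset (n + 1) y)) +
        ∑ s ∈ σ, ∑ y ∈ Fintype.piFinset C, val (A C hC (n + 1) (σ.erase s)
          (insert (pick C hC (n + 1) (A C hC (n + 1)) (σ.erase s)) (Yset (n + 1) y))) := by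
      rw [Finset.sum_comm (s := σ), ← Finset.sum_add_distrib]
      exact Finset.sum_le_sum (fun y _ => step1 y)
    have step3 : ∀ s ∈ σ, ∑ y ∈ Fintype.piFinset C, val (A C hC (n + 1) (σ.erase s)
          (insert (pick C hC (n + 1) (A C hC (n + 1)) (σ.erase s)) (Yset (n + 1) y))) ≤
          (n + 1).factorial * (c + n * t) * (Fintype.piFinset C).card := by
      intro s hs
      refine (pick_cost C hC (by omega) (A C hC (n + 1)) (σ.erase s)).trans ?_
      apply ih (by omega) (σ.erase s) ((Finset.erase_subset _ _).trans hσ)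
      rw [Finset.card_erase_of_mem hs, hcard]
      rfl
    have step4 := Finset.sum_le_card_nsmul σ _ _ step3
    have step5 := H2 σ hσ n hcard (by omega)
    rw [hcard, nsmul_eq_mul] at step4
    refine step2.trans ((add_le_add step5 step4).trans ?_)
    have hfac : ((n + 1 + 1).factorial : ℝ) = (n + 2) * (n + 1).factorial := by
      rw [Nat.factorial_succ (n + 1)]; push_cast; ring
    rw [hfac]
    have hf1 : (1 : ℝ) ≤ (n + 1).factorial := by
      exact_mod_cast Nat.succ_le_of_lt (Nat.factorial_pos _)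
    have hcardnn : (0 : ℝ) ≤ (Fintype.piFinset C).card := by positivity
    have : t * ((Fintype.piFinset C).card : ℝ) ≤ ((n : ℝ) + 2) * (n + 1).factorial * t * (Fintype.piFinset C).card := by
      have h1 : (1 : ℝ) ≤ ((n : ℝ) + 2) * (n + 1).factorial := by nlinarith
      have h2 : 0 ≤ t * ((Fintype.piFinset C).card : ℝ) := by positivity
      nlinarith
    push_cast
    nlinarith

theorem sum_erase_erase (σ : Finset (Fin d → ℝ)) (h : Finset (Fin d → ℝ) → ZMod 2) :
    ∑ s ∈ σ, ∑ s' ∈ σ.erase s, h ((σ.erase s).erase s') = 0 := by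
  rw [Finset.sum_sigma']
  refine Finset.sum_involution (fun p _ => ⟨p.2, p.1⟩) ?_ ?_ ?_ ?_
  · rintro ⟨s, s'⟩ _
    simp only
    rw [Finset.erase_right_comm (s := σ) (a := s') (b := s)]
    exact CharTwo.add_self_eq_zero _
  · rintro ⟨s, s'⟩ hp _ heq
    simp only [Finset.mem_sigma, Finset.mem_erase] at hp
    simp only [Sigma.mk.injEq] at heq
    exact hp.2.1 heq.1
  · rintro ⟨s, s'⟩ hp
    simp only [Finset.mem_sigma, Finset.mem_erase] at hp ⊢
    exact ⟨hp.2.2, fun h => hp.2.1 h.symm, hp.1⟩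
  · rintro ⟨s, s'⟩ _
    rfl

/-- union of the colour classes of index at least `k` -/
noncomputable def U (k : ℕ) : Finset (Fin d → ℝ) :=
  (Finset.univ.filter (fun i : Fin (d + 1) => k ≤ i.val)).biUnion C

theorem mem_U {k : ℕ} {x : Fin d → ℝ} : x ∈ U C k ↔ ∃ i : Fin (d + 1), k ≤ i.val ∧ x ∈ C i := by
  simp [U]

theorem U_mono {k l : ℕ} (h : k ≤ l) : U C l ⊆ U C k := by
  intro x hx
  rw [mem_U] at hx ⊢
  obtain ⟨i, hi, hx⟩ := hx
  exact ⟨i, h.trans hi, hx⟩

theorem pick_mem_U {n : ℕ} (f : Finset (Fin d → ℝ) → Finset (Fin d → ℝ) → ZMod 2)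
    (τ : Finset (Fin d → ℝ)) : pick C hC n f τ ∈ U C 0 := by
  rw [mem_U]
  by_cases h : n - 1 < d + 1
  · exact ⟨_, Nat.zero_le _, pick_mem C hC h f τ⟩
  · refine ⟨0, Nat.zero_le _, ?_⟩
    unfold pick
    rw [dif_neg h]
    exact Classical.choose_spec (hC 0)

/-- The cocycle relation. -/
theorem A_cocycle (V : Finset (Fin d → ℝ)) (hdC : ∀ i j, i ≠ j → Disjoint (C i) (C j))
    (hVU : Disjoint V (U C 0)) (hgen : ∀ X ⊆ V ∪ U C 0, X.card = d + 1 → AI X) :
    ∀ n : ℕ, n ≤ d + 1 → ∀ σ ⊆ V, σ.card = n → ∀ Y ⊆ U C (n - 1), n + Y.card = d + 3 →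
      ∑ y ∈ Y, A C hC n σ (Y.erase y) = 0 := by
  intro n
  induction n with
  | zero => intro _ σ _ _ Y _ _; simp [A_zero]
  | succ n ih =>
    intro hn σ hσ hcard Y hY hYcard
    rw [Nat.add_sub_cancel] at hY
    have hY0 : Y ⊆ U C 0 := hY.trans (U_mono C (Nat.zero_le _))
    have hdσY : Disjoint σ Y := Finset.disjoint_of_subset_left hσ (Finset.disjoint_of_subset_right hY0 hVU)
    have hbp := basic_parity σ Y hdσY (by rw [hcard]; exact hYcard)
      (fun X hX hXc => hgen X (hX.trans (Finset.union_subset_union hσ hY0)) hXc)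
    have key : ∀ s ∈ σ, ∑ y ∈ Y, A C hC n (σ.erase s)
        (insert (pick C hC n (A C hC n) (σ.erase s)) (Y.erase y)) = A C hC n (σ.erase s) Y := by
      intro s hs
      rcases Nat.eq_zero_or_pos n with hn0 | hnpos
      · subst hn0; simp [A_zero]
      set x := pick C hC n (A C hC n) (σ.erase s) with hx
      have hxC : x ∈ C ⟨n - 1, by omega⟩ := pick_mem C hC (by omega) _ _
      have hxY : x ∉ Y := by
        intro hxY
        obtain ⟨i, hi, hxi⟩ := (mem_U C).mp (hY hxY)
        have hne : (⟨n - 1, by omega⟩ : Fin (d + 1)) ≠ i := by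
          intro h; rw [← h] at hi; simp at hi; omega
        exact Finset.disjoint_left.mp (hdC _ _ hne) hxC hxi
      have hIH := ih (by omega) (σ.erase s) ((Finset.erase_subset _ _).trans hσ)
        (by rw [Finset.card_erase_of_mem hs, hcard]; rfl) (insert x Y) (by
          intro z hz
          rw [Finset.mem_insert] at hz
          rcases hz with hz | hz
          · rw [hz, mem_U]; exact ⟨_, le_refl _, hxC⟩
          · exact U_mono C (Nat.sub_le _ _) (hY hz)) (by
          rw [Finset.card_insert_of_notMem hxY]; omega)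
      rw [Finset.sum_insert hxY, Finset.erase_insert hxY] at hIH
      have h2 : ∑ y ∈ Y, A C hC n (σ.erase s) ((insert x Y).erase y) =
          ∑ y ∈ Y, A C hC n (σ.erase s) (insert x (Y.erase y)) := by
        apply Finset.sum_congr rfl
        intro y hy
        rw [Finset.erase_insert_of_ne]
        intro h; rw [h] at hxY; exact hxY hy
      rw [h2] at hIH
      have h3 := CharTwo.add_eq_zero.mp hIH
      exact h3.symm
    have e1 : ∑ y ∈ Y, A C hC (n + 1) σ (Y.erase y) =
        ∑ s ∈ σ, F (σ.erase s) Y + ∑ s ∈ σ, A C hC n (σ.erase s) Y := by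
      simp only [A_succ]
      rw [Finset.sum_add_distrib, Finset.sum_comm, Finset.sum_congr rfl key]
      congr 1
      exact (CharTwo.add_eq_zero.mp hbp).symm
    rw [e1]
    rcases Nat.eq_zero_or_pos n with hn0 | hnpos
    · subst hn0
      rw [zero_add, Finset.card_eq_one] at hcard
      obtain ⟨p, rfl⟩ := hcard
      simp [A_zero, F_empty_left]
    · obtain ⟨m, rfl⟩ : ∃ m, n = m + 1 := ⟨n - 1, by omega⟩
      have e2 : ∑ s ∈ σ, A C hC (m + 1) (σ.erase s) Y = ∑ s ∈ σ, F (σ.erase s) Y +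
          ∑ s ∈ σ, ∑ s' ∈ σ.erase s, (fun ρ => A C hC m ρ (insert (pick C hC m (A C hC m) ρ) Y))
            ((σ.erase s).erase s') := by
        rw [← Finset.sum_add_distrib]
        rfl
      have e3 := sum_erase_erase σ (fun ρ => A C hC m ρ (insert (pick C hC m (A C hC m) ρ) Y))
      rw [e2, e3, add_zero]
      exact CharTwo.add_self_eq_zero _

theorem A_boundary (τ : Finset (Fin d → ℝ)) (hτ : ∀ ρ ⊆ τ, ∀ Y ⊆ U C 0, F ρ Y = 0) :
    ∀ n : ℕ, ∀ ρ ⊆ τ, ∀ Y ⊆ U C 0, A C hC n ρ Y = 0 := by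
  intro n
  induction n with
  | zero => intro _ _ _ _; rfl
  | succ n ih =>
    intro ρ hρ Y hY
    rw [A_succ, hτ ρ hρ Y hY, zero_add]
    apply Finset.sum_eq_zero
    intro s _
    apply ih _ ((Finset.erase_subset _ _).trans hρ)
    intro z hz
    rw [Finset.mem_insert] at hz
    rcases hz with hz | hz
    · rw [hz]; exact pick_mem_U C hC _ _
    · exact hY hz

/-- For a small simplex of top dimension the function `A` vanishes. -/
theorem A_top (V : Finset (Fin d → ℝ)) (hV : V.card = d + 1)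
    (hdC : ∀ i j, i ≠ j → Disjoint (C i) (C j))
    (hVU : Disjoint V (U C 0)) (hgen : ∀ X ⊆ V ∪ U C 0, X.card = d + 1 → AI X)
    (c t : ℝ) (ht : 0 ≤ t) (hct : (d + 1).factorial * (c + d * t) < 1)
    (H1 : ∀ p ∈ V, ∑ y ∈ Fintype.piFinset C, val (F {p} (Yset 0 y)) ≤ c * (Fintype.piFinset C).card)
    (H2 : ∀ σ ⊆ V, ∀ n : ℕ, σ.card = n + 2 → n + 2 ≤ d + 1 →
      ∑ y ∈ Fintype.piFinset C, val (F σ (Yset (n + 1) y)) ≤ t * (Fintype.piFinset C).card) :
    ∀ y ∈ C (Fin.last d), A C hC (d + 1) V {y} = 0 := by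
  have hb := A_bound C hC V c t ht H1 H2 d le_rfl V (Finset.Subset.refl _) hV
  have hΩ : (Fintype.piFinset C).Nonempty := Fintype.piFinset_nonempty.mpr hC
  have hΩpos : (0 : ℝ) < (Fintype.piFinset C).card := by exact_mod_cast hΩ.card_pos
  have hYd : ∀ y : Fin (d + 1) → (Fin d → ℝ), Yset d y = {y (Fin.last d)} := by
    intro y
    unfold Yset
    have : (Finset.univ.filter (fun i : Fin (d + 1) => d ≤ i.val)) = {Fin.last d} := by
      ext i
      simp only [Finset.mem_filter, Finset.mem_univ, true_and, Finset.mem_singleton]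
      constructor
      · intro h; apply Fin.ext; have := i.isLt; simp; omega
      · intro h; rw [h]; simp
    rw [this, Finset.image_singleton]
  -- some y0 with value zero
  have hex : ∃ y0 ∈ C (Fin.last d), A C hC (d + 1) V {y0} = 0 := by
    by_contra hne
    push Not at hne
    have h1 : ∀ y ∈ Fintype.piFinset C, val (A C hC (d + 1) V (Yset d y)) = 1 := by
      intro y hy
      rw [hYd y]
      unfold val
      rw [if_neg (hne _ (Fintype.mem_piFinset.mp hy _))]
    rw [Finset.sum_congr rfl h1] at hb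
    simp only [Finset.sum_const, nsmul_eq_mul, mul_one] at hb
    nlinarith
  obtain ⟨y0, hy0, hA0⟩ := hex
  intro y hy
  by_cases hyy : y = y0
  · rw [hyy]; exact hA0
  have hco := A_cocycle C hC V hdC hVU hgen (d + 1) le_rfl V (Finset.Subset.refl _) hV {y, y0} (by
    intro z hz
    rw [mem_U]
    refine ⟨Fin.last d, by simp, ?_⟩
    simp only [Finset.mem_insert, Finset.mem_singleton] at hz
    rcases hz with rfl | rfl
    · exact hy
    · exact hy0) (by rw [Finset.card_pair hyy])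
  rw [Finset.sum_pair hyy] at hco
  have e1 : ({y, y0} : Finset (Fin d → ℝ)).erase y = {y0} := by
    rw [Finset.erase_insert]; simp [hyy]
  have e2 : ({y, y0} : Finset (Fin d → ℝ)).erase y0 = {y} := by
    rw [Finset.pair_comm, Finset.erase_insert]; simp [Ne.symm hyy]
  rw [e1, e2, hA0, zero_add] at hco
  exact hco

include hC in
/-- The final contradiction: no such fine triangulation can exist. -/
theorem no_fine {T : Type*} [Fintype T] (V : T → Finset (Fin d → ℝ)) (hV : ∀ t, (V t).card = d + 1)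
    (hdC : ∀ i j, i ≠ j → Disjoint (C i) (C j))
    (hVU : ∀ t, Disjoint (V t) (U C 0)) (hgen : ∀ t, ∀ X ⊆ V t ∪ U C 0, X.card = d + 1 → AI X)
    (c t : ℝ) (ht : 0 ≤ t) (hct : (d + 1).factorial * (c + d * t) < 1)
    (H1 : ∀ p, ∑ y ∈ Fintype.piFinset C, val (F {p} (Yset 0 y)) ≤ c * (Fintype.piFinset C).card)
    (H2 : ∀ u, ∀ σ ⊆ V u, ∀ n : ℕ, σ.card = n + 2 → n + 2 ≤ d + 1 →
      ∑ y ∈ Fintype.piFinset C, val (F σ (Yset (n + 1) y)) ≤ t * (Fintype.piFinset C).card)
    (hT2 : ∀ g : Finset (Fin d → ℝ) → ZMod 2,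
      (∀ τ : Finset (Fin d → ℝ), (∀ ρ ⊆ τ, ∀ Y ⊆ U C 0, F ρ Y = 0) → g τ = 0) →
      ∑ u, ∑ s ∈ V u, g ((V u).erase s) = 0)
    (hT3 : ∀ y ∈ C (Fin.last d), ∑ u, F (V u) {y} = 1) : False := by
  obtain ⟨y, hy⟩ := hC (Fin.last d)
  have hz : ∀ u, A C hC (d + 1) (V u) {y} = 0 := fun u =>
    A_top C hC (V u) (hV u) hdC (hVU u) (hgen u) c t ht hct (fun p _ => H1 p) (H2 u) y hy
  have h0 : ∑ u, A C hC (d + 1) (V u) {y} = 0 := Finset.sum_eq_zero (fun u _ => hz u)
  have hyU : y ∈ U C 0 := by rw [mem_U]; exact ⟨_, Nat.zero_le _, hy⟩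
  simp only [A_succ] at h0
  rw [Finset.sum_add_distrib, hT3 y hy] at h0
  have h2 := hT2 (fun τ => A C hC d τ (insert (pick C hC d (A C hC d) τ) {y})) (by
    intro τ hτ
    apply A_boundary C hC τ hτ d τ (Finset.Subset.refl _)
    intro z hz
    simp only [Finset.mem_insert, Finset.mem_singleton] at hz
    rcases hz with hz | hz
    · rw [hz]; exact pick_mem_U C hC _ _
    · rw [hz]; exact hyU)
  rw [h2, add_zero] at h0
  exact one_ne_zero h0

end

end Pool.Agent.Helper42.Sel
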