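import Mathlib
import Pool.Agent.Helper42.Sel.Recur

set_option autoImplicit false

open Finset

namespace Pool.Agent.Helper42.Sel

variable {d : ℕ}

/-- vertices of the Kuhn simplex -/
noncomputable def kv (R h : ℝ) (z : Fin d → ℕ) (ρ : Equiv.Perm (Fin d)) (m : ℕ) : Fin d → ℝ :=
  fun i => -R + h * ((z i : ℝ) + if (ρ i).val < m then 1 else 0)

/-- Kuhn simplex -/
noncomputable def KV (R h : ℝ) (z : Fin d → ℕ) (ρ : Equiv.Perm (Fin d)) : Finset (Fin d → ℝ) :=
  (Finset.range (d + 1)).image (kv R h z ρ)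

theorem kv_inj {R h : ℝ} (hh : 0 < h) (z : Fin d → ℕ) (ρ : Equiv.Perm (Fin d)) :
    Set.InjOn (kv R h z ρ) (Finset.range (d + 1) : Set ℕ) := by
  have key : ∀ m m' : ℕ, m < m' → m' ≤ d → kv R h z ρ m ≠ kv R h z ρ m' := by
    intro m m' hm hm' heq
    have h1 := congrFun heq (ρ.symm ⟨m, by omega⟩)
    simp only [kv, Equiv.apply_symm_apply, lt_self_iff_false, if_false, hm, if_true] at h1
    nlinarith
  intro m hm m' hm' heq
  simp only [Finset.coe_range, Set.mem_Iio] at hm hm'
  rcases lt_trichotomy m m' with h | h | h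
  · exact absurd heq (key m m' h (by omega))
  · exact h
  · exact absurd heq.symm (key m' m h (by omega))

theorem KV_card {R h : ℝ} (hh : 0 < h) (z : Fin d → ℕ) (ρ : Equiv.Perm (Fin d)) :
    (KV R h z ρ).card = d + 1 := by
  unfold KV
  rw [Finset.card_image_of_injOn (kv_inj hh z ρ), Finset.card_range]

theorem KV_erase {R h : ℝ} (hh : 0 < h) (z : Fin d → ℕ) (ρ : Equiv.Perm (Fin d)) {m : ℕ}
    (hm : m ∈ Finset.range (d + 1)) :
    (KV R h z ρ).erase (kv R h z ρ m) = ((Finset.range (d + 1)).erase m).image (kv R h z ρ) := by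
  unfold KV
  ext x
  simp only [Finset.mem_erase, Finset.mem_image]
  constructor
  · rintro ⟨hne, m', hm', rfl⟩
    exact ⟨m', ⟨fun hmm => hne (by rw [hmm]), hm'⟩, rfl⟩
  · rintro ⟨m', ⟨hne, hm'⟩, rfl⟩
    refine ⟨fun heq => hne ?_, m', hm', rfl⟩
    exact kv_inj hh z ρ (by exact_mod_cast hm') (by exact_mod_cast hm) heq

/-- interior facets -/
theorem facet_swap {R h : ℝ} (hh : 0 < h) (z : Fin d → ℕ) (ρ : Equiv.Perm (Fin d)) {m : ℕ}
    (hm0 : 0 < m) (hm : m < d) :
    (KV R h z (Equiv.swap ⟨m - 1, by omega⟩ ⟨m, hm⟩ * ρ)).erase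
      (kv R h z (Equiv.swap ⟨m - 1, by omega⟩ ⟨m, hm⟩ * ρ) m) =
    (KV R h z ρ).erase (kv R h z ρ m) := by
  rw [KV_erase hh z _ (Finset.mem_range.mpr (by omega)), KV_erase hh z _ (Finset.mem_range.mpr (by omega))]
  apply Finset.image_congr
  intro m' hm'
  simp only [Finset.coe_erase, Finset.coe_range, Set.mem_sdiff, Set.mem_Iio, Set.mem_singleton_iff] at hm'
  funext i
  unfold kv
  have : ((Equiv.swap (⟨m - 1, by omega⟩ : Fin d) ⟨m, hm⟩ * ρ) i).val < m' ↔ (ρ i).val < m' := by
    rw [Equiv.Perm.mul_apply]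
    by_cases h1 : ρ i = ⟨m - 1, by omega⟩
    · rw [h1, Equiv.swap_apply_left]
      simp only
      omega
    · by_cases h2 : ρ i = ⟨m, hm⟩
      · rw [h2, Equiv.swap_apply_right]
        simp only
        omega
      · rw [Equiv.swap_apply_of_ne_of_ne h1 h2]
  simp only [this]

/-- outer facets -/
theorem facet_shift {R h : ℝ} (hh : 0 < h) (hd : 0 < d) (z : Fin d → ℕ) (ρ : Equiv.Perm (Fin d)) :
    (KV R h z ρ).erase (kv R h z ρ 0) =
    (KV R h (Function.update z (ρ.symm ⟨0, hd⟩) (z (ρ.symm ⟨0, hd⟩) + 1)) ((finRotate d)⁻¹ * ρ)).erase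
      (kv R h (Function.update z (ρ.symm ⟨0, hd⟩) (z (ρ.symm ⟨0, hd⟩) + 1)) ((finRotate d)⁻¹ * ρ) d) := by
  rw [KV_erase hh z _ (Finset.mem_range.mpr (by omega)), KV_erase hh _ _ (Finset.mem_range.mpr (by omega))]
  have e1 : (Finset.range (d + 1)).erase 0 = (Finset.range d).image (fun m => m + 1) := by
    ext m
    simp only [Finset.mem_erase, Finset.mem_range, Finset.mem_image]
    constructor
    · rintro ⟨h1, h2⟩
      exact ⟨m - 1, by omega, by omega⟩
    · rintro ⟨m', h1, h2⟩
      omega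
  have e2 : (Finset.range (d + 1)).erase d = Finset.range d := by
    ext m
    simp only [Finset.mem_erase, Finset.mem_range]
    omega
  rw [e1, e2, Finset.image_image]
  apply Finset.image_congr
  intro m hm
  simp only [Finset.coe_range, Set.mem_Iio] at hm
  funext i
  simp only [Function.comp_apply, kv]
  obtain ⟨d', rfl⟩ : ∃ d', d = d' + 1 := ⟨d - 1, by omega⟩
  by_cases hi : i = ρ.symm ⟨0, hd⟩
  · have hρ : ρ i = 0 := by rw [hi, Equiv.apply_symm_apply]; rfl
    have h1 : (((finRotate (d' + 1))⁻¹ * ρ) i) = Fin.last d' := by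
      rw [Equiv.Perm.mul_apply, hρ, Equiv.Perm.inv_eq_iff_eq]
      exact finRotate_last.symm
    rw [h1, hi, Function.update_self]
    have h2 : ¬ (Fin.last d').val < m := by simp; omega
    rw [if_neg h2, ← hi, hρ]
    simp
  · rw [Function.update_of_ne hi]
    have hρ : ρ i ≠ 0 := by
      intro h; apply hi; rw [Equiv.eq_symm_apply, h]; rfl
    set j := ((finRotate (d' + 1))⁻¹ * ρ) i with hj
    have h1 : finRotate (d' + 1) j = ρ i := by
      rw [hj, ← Equiv.Perm.mul_apply, ← mul_assoc, mul_inv_cancel, one_mul]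
    have hjl : j ≠ Fin.last d' := by
      intro h; rw [h, finRotate_last] at h1; exact hρ h1.symm
    have h2 : (ρ i).val = j.val + 1 := by
      rw [← h1]
      exact coe_finRotate_of_ne_last hjl
    rw [h2]
    simp

theorem F_boundary (τ : Finset (Fin d → ℝ)) (W : Finset (Fin d → ℝ)) (i : Fin d) (a : ℝ)
    (hτ : ∀ x ∈ τ, x i = a) (hW' : (∀ x ∈ W, x i < a) ∨ (∀ x ∈ W, a < x i)) :
    ∀ ρ ⊆ τ, ∀ Y ⊆ W, F ρ Y = 0 := by
  intro ρ hρ Y hY
  unfold F
  rw [if_neg]
  rintro ⟨p, hp1, hp2⟩
  have h1 : convexHull ℝ (ρ : Set (Fin d → ℝ)) ⊆ {x | x i = a} := by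
    apply convexHull_min
    · intro x hx; exact hτ x (hρ hx)
    · exact convex_hyperplane (f := fun x : Fin d → ℝ => x i) ⟨fun _ _ => rfl, fun _ _ => rfl⟩ a
  have h1' : p i = a := h1 hp1
  rcases hW' with h | h
  · have h2 : convexHull ℝ (Y : Set (Fin d → ℝ)) ⊆ {x | x i < a} := by
      apply convexHull_min
      · intro x hx; exact h x (hY hx)
      · exact convex_halfSpace_lt (f := fun x : Fin d → ℝ => x i) ⟨fun _ _ => rfl, fun _ _ => rfl⟩ a
    have h2' : p i < a := h2 hp2
    linarith
  · have h2 : convexHull ℝ (Y : Set (Fin d → ℝ)) ⊆ {x | a < x i} := by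
      apply convexHull_min
      · intro x hx; exact h x (hY hx)
      · exact convex_halfSpace_gt (f := fun x : Fin d → ℝ => x i) ⟨fun _ _ => rfl, fun _ _ => rfl⟩ a
    have h2' : a < p i := h2 hp2
    linarith

/-- The cells. -/
noncomputable def Tset (d M : ℕ) : Finset ((Fin d → ℕ) × Equiv.Perm (Fin d)) :=
  (Fintype.piFinset (fun _ => Finset.range M)) ×ˢ Finset.univ

theorem mem_Tset {M : ℕ} {p : (Fin d → ℕ) × Equiv.Perm (Fin d)} : p ∈ Tset d M ↔ ∀ i, p.1 i < M := by
  simp [Tset]

theorem kuhn_T2 {R h : ℝ} (hh : 0 < h) (hd : 0 < d) {M : ℕ} (hMR : h * M = 2 * R)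
    (W : Finset (Fin d → ℝ)) (hW : ∀ x ∈ W, ∀ i, -R < x i ∧ x i < R)
    (g : Finset (Fin d → ℝ) → ZMod 2)
    (hg : ∀ τ : Finset (Fin d → ℝ), (∀ ρ ⊆ τ, ∀ Y ⊆ W, F ρ Y = 0) → g τ = 0) :
    ∑ p ∈ Tset d M, ∑ s ∈ KV R h p.1 p.2, g ((KV R h p.1 p.2).erase s) = 0 := by
  have e0 : ∀ p : (Fin d → ℕ) × Equiv.Perm (Fin d), ∑ s ∈ KV R h p.1 p.2, g ((KV R h p.1 p.2).erase s) =
      ∑ m ∈ Finset.range (d + 1), g ((KV R h p.1 p.2).erase (kv R h p.1 p.2 m)) := by
    intro p
    conv_lhs => rw [show KV R h p.1 p.2 = (Finset.range (d + 1)).image (kv R h p.1 p.2) from rfl]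
    rw [Finset.sum_image (kv_inj hh p.1 p.2)]
    rfl
  rw [Finset.sum_congr rfl (fun p _ => e0 p), Finset.sum_comm]
  obtain ⟨d', rfl⟩ : ∃ d', d = d' + 1 := ⟨d - 1, by omega⟩
  rw [Finset.sum_range_succ, Finset.sum_range_succ']
  have hmid : ∑ k ∈ Finset.range d', ∑ p ∈ Tset (d' + 1) M,
      g ((KV R h p.1 p.2).erase (kv R h p.1 p.2 (k + 1))) = 0 := by
    apply Finset.sum_eq_zero
    intro k hk
    rw [Finset.mem_range] at hk
    refine Finset.sum_involution
      (fun p _ => (p.1, Equiv.swap ⟨k + 1 - 1, by omega⟩ ⟨k + 1, by omega⟩ * p.2)) ?_ ?_ ?_ ?_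
    · intro p _
      simp only
      rw [facet_swap hh p.1 p.2 (m := k + 1) (by omega) (by omega)]
      exact CharTwo.add_self_eq_zero _
    · intro p _ _ heq
      have h1 := congrArg Prod.snd heq
      simp only at h1
      have h2 : Equiv.swap (⟨k + 1 - 1, by omega⟩ : Fin (d' + 1)) ⟨k + 1, by omega⟩ = 1 := by
        exact mul_eq_right.mp h1
      have h3 := congrArg (fun e : Equiv.Perm (Fin (d' + 1)) => e ⟨k + 1 - 1, by omega⟩) h2
      simp only [Equiv.swap_apply_left, Equiv.Perm.one_apply, Fin.mk.injEq] at h3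
      omega
    · intro p hp
      rw [mem_Tset] at hp ⊢
      exact hp
    · intro p _
      simp only [Equiv.swap_mul_self_mul]
  rw [hmid, zero_add]
  have hbd : ∑ p ∈ Tset (d' + 1) M, g ((KV R h p.1 p.2).erase (kv R h p.1 p.2 0)) =
      ∑ p ∈ Tset (d' + 1) M, g ((KV R h p.1 p.2).erase (kv R h p.1 p.2 (d' + 1))) := by
    refine Finset.sum_bij_ne_zero
      (fun p _ _ => (Function.update p.1 (p.2.symm ⟨0, hd⟩) (p.1 (p.2.symm ⟨0, hd⟩) + 1),
        (finRotate (d' + 1))⁻¹ * p.2)) ?_ ?_ ?_ ?_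
    · intro p hp hne
      rw [mem_Tset] at hp ⊢
      intro i
      simp only
      by_cases hi : i = p.2.symm ⟨0, hd⟩
      · rw [hi, Function.update_self]
        by_contra hcon
        apply hne
        apply hg
        have hzi : p.1 (p.2.symm ⟨0, hd⟩) + 1 = M := by
          have := hp (p.2.symm ⟨0, hd⟩)
          omega
        apply F_boundary _ _ (p.2.symm ⟨0, hd⟩) R
        · intro x hx
          rw [KV_erase hh _ _ (Finset.mem_range.mpr (by omega)), Finset.mem_image] at hx
          obtain ⟨m, hm, rfl⟩ := hx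
          simp only [Finset.mem_erase, Finset.mem_range] at hm
          unfold kv
          rw [Equiv.apply_symm_apply, if_pos (by simp only; omega)]
          have : ((p.1 (p.2.symm ⟨0, hd⟩) : ℝ) + 1) = M := by exact_mod_cast hzi
          rw [this, hMR]; ring
        · left; intro x hx; exact (hW x hx _).2
      · rw [Function.update_of_ne hi]
        exact hp i
    · intro p hp hpne q hq hqne heq
      have h2 := congrArg Prod.snd heq
      have h1 := congrArg Prod.fst heq
      simp only at h1 h2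
      have h2' : p.2 = q.2 := mul_left_cancel h2
      rw [h2'] at h1
      refine Prod.ext ?_ h2'
      funext i
      have h3 := congrFun h1 i
      by_cases hi : i = q.2.symm ⟨0, hd⟩
      · rw [hi] at h3 ⊢
        rw [Function.update_self, Function.update_self] at h3
        omega
      · rw [Function.update_of_ne hi, Function.update_of_ne hi] at h3
        exact h3
    · intro q hq hqne
      set i0 := q.2.symm (Fin.last d') with hi0
      have hqi0 : 1 ≤ q.1 i0 := by
        by_contra hcon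
        apply hqne
        apply hg
        have hzi : q.1 i0 = 0 := by omega
        apply F_boundary _ _ i0 (-R)
        · intro x hx
          rw [KV_erase hh _ _ (Finset.mem_range.mpr (by omega)), Finset.mem_image] at hx
          obtain ⟨m, hm, rfl⟩ := hx
          simp only [Finset.mem_erase, Finset.mem_range] at hm
          unfold kv
          rw [hi0, Equiv.apply_symm_apply, if_neg (by simp only [Fin.val_last]; omega), ← hi0, hzi]
          simp
        · right; intro x hx; exact (hW x hx _).1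
      set p : (Fin (d' + 1) → ℕ) × Equiv.Perm (Fin (d' + 1)) :=
        (Function.update q.1 i0 (q.1 i0 - 1), (finRotate (d' + 1)) * q.2) with hp
      have hpi : p.2.symm ⟨0, hd⟩ = i0 := by
        rw [Equiv.symm_apply_eq, hp]
        simp only [Equiv.Perm.mul_apply]
        rw [hi0, Equiv.apply_symm_apply, finRotate_last]
        rfl
      have himg : (Function.update p.1 (p.2.symm ⟨0, hd⟩) (p.1 (p.2.symm ⟨0, hd⟩) + 1),
        (finRotate (d' + 1))⁻¹ * p.2) = q := by
        rw [hpi]
        refine Prod.ext ?_ ?_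
        · simp only [hp, Function.update_self]
          funext i
          by_cases hi : i = i0
          · rw [hi, Function.update_self]; omega
          · rw [Function.update_of_ne hi, Function.update_of_ne hi]
        · simp only [hp]
          rw [← mul_assoc, inv_mul_cancel, one_mul]
      have hsh := facet_shift (R := R) hh hd p.1 p.2
      refine ⟨p, ?_, ?_, himg⟩
      · rw [mem_Tset] at hq ⊢
        intro i
        simp only [hp]
        by_cases hi : i = i0
        · rw [hi, Function.update_self]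
          have := hq i0
          omega
        · rw [Function.update_of_ne hi]
          exact hq i
      · have h1 := congrArg Prod.fst himg
        have h2 := congrArg Prod.snd himg
        simp only at h1 h2
        rw [hsh, h1, h2]
        exact hqne
    · intro p _ _
      simp only
      rw [facet_shift hh hd p.1 p.2]
  rw [hbd]
  exact CharTwo.add_self_eq_zero _

end Pool.Agent.Helper42.Sel
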