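import Mathlib
import Pool.Agent.Helper42.Sel.Kuhn

set_option autoImplicit false

open Finset

namespace Pool.Agent.Helper42.Sel

variable {d : ℕ}

/-- tail sums -/
noncomputable def tl (d : ℕ) (l : ℕ → ℝ) (j : ℕ) : ℝ :=
  ∑ m ∈ (Finset.range (d + 1)).filter (fun m => j < m), l m

theorem tl_succ (l : ℕ → ℝ) {j : ℕ} (hj : j < d) : tl d l j = l (j + 1) + tl d l (j + 1) := by
  unfold tl
  have : (Finset.range (d + 1)).filter (fun m => j < m) =
      insert (j + 1) ((Finset.range (d + 1)).filter (fun m => j + 1 < m)) := by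
    ext m
    simp only [Finset.mem_filter, Finset.mem_range, Finset.mem_insert]
    omega
  rw [this, Finset.sum_insert (by simp)]

theorem tl_last (l : ℕ → ℝ) : tl d l d = 0 := by
  unfold tl
  apply Finset.sum_eq_zero
  intro m hm
  simp only [Finset.mem_filter, Finset.mem_range] at hm
  omega

theorem tl_total (l : ℕ → ℝ) : ∑ m ∈ Finset.range (d + 1), l m = l 0 + tl d l 0 := by
  unfold tl
  have : Finset.range (d + 1) = insert 0 ((Finset.range (d + 1)).filter (fun m => 0 < m)) := by
    ext m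
    simp only [Finset.mem_filter, Finset.mem_range, Finset.mem_insert]
    omega
  conv_lhs => rw [this]
  rw [Finset.sum_insert (by simp)]

theorem kv_sum (R h : ℝ) (z : Fin d → ℕ) (ρ : Equiv.Perm (Fin d)) (l : ℕ → ℝ) (i : Fin d) :
    (∑ m ∈ Finset.range (d + 1), l m • kv R h z ρ m) i =
      (-R + h * z i) * ∑ m ∈ Finset.range (d + 1), l m + h * tl d l (ρ i).val := by
  rw [Finset.sum_apply]
  simp only [Pi.smul_apply, kv, smul_eq_mul, tl]
  rw [Finset.sum_filter, Finset.mul_sum, Finset.mul_sum, ← Finset.sum_add_distrib]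
  apply Finset.sum_congr rfl
  intro m _
  split_ifs <;> ring

theorem KV_AI {R h : ℝ} (hh : 0 < h) (z : Fin d → ℕ) (ρ : Equiv.Perm (Fin d)) : AI (KV R h z ρ) := by
  intro w h1 h2
  unfold KV at h1 h2 ⊢
  rw [Finset.sum_image (kv_inj hh z ρ)] at h1 h2
  set l : ℕ → ℝ := fun m => w (kv R h z ρ m) with hl
  have h3 : ∀ j : ℕ, j < d → tl d l j = 0 := by
    intro j hj
    have := kv_sum R h z ρ l (ρ.symm ⟨j, hj⟩)
    rw [Equiv.apply_symm_apply] at this
    rw [show ∑ m ∈ Finset.range (d + 1), l m • kv R h z ρ m = 0 from h2,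
      show ∑ m ∈ Finset.range (d + 1), l m = 0 from h1] at this
    simp only [Pi.zero_apply, mul_zero, zero_add] at this
    rcases mul_eq_zero.mp this.symm with h | h
    · exact absurd h hh.ne'
    · exact h
  have h4 : ∀ j : ℕ, j ≤ d → tl d l j = 0 := by
    intro j hj
    rcases Nat.lt_or_eq_of_le hj with h | h
    · exact h3 j h
    · rw [h]; exact tl_last l
  intro x hx
  rw [Finset.mem_image] at hx
  obtain ⟨m, hm, rfl⟩ := hx
  rw [Finset.mem_range] at hm
  rcases Nat.eq_zero_or_pos m with hm0 | hmpos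
  · subst hm0
    have := tl_total (d := d) l
    rw [show ∑ m ∈ Finset.range (d + 1), l m = 0 from h1, h4 0 (Nat.zero_le _)] at this
    simpa using this.symm
  · obtain ⟨j, rfl⟩ : ∃ j, m = j + 1 := ⟨m - 1, by omega⟩
    have := tl_succ (d := d) l (j := j) (by omega)
    rw [h4 j (by omega), h4 (j + 1) (by omega)] at this
    simpa using this.symm

/-- barycentric coordinates of a generic point are positive -/
theorem coords_pos {R h : ℝ} (hh : 0 < h) (z : Fin d → ℕ) (ρ : Equiv.Perm (Fin d)) (y : Fin d → ℝ)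
    (hy : y ∉ KV R h z ρ)
    (hgen : ∀ X ⊆ insert y (KV R h z ρ), X.card = d + 1 → AI X)
    (hmem : y ∈ convexHull ℝ (KV R h z ρ : Set (Fin d → ℝ))) :
    ∃ l : ℕ → ℝ, (∀ m, m ≤ d → 0 < l m) ∧ ∑ m ∈ Finset.range (d + 1), l m = 1 ∧
      ∀ i, y i = -R + h * z i + h * tl d l (ρ i).val := by
  rw [Finset.mem_convexHull'] at hmem
  obtain ⟨w, hw0, hw1, hw2⟩ := hmem
  refine ⟨fun m => w (kv R h z ρ m), ?_, ?_, ?_⟩
  · intro m hm
    have hmr : m ∈ Finset.range (d + 1) := Finset.mem_range.mpr (by omega)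
    have hkm : kv R h z ρ m ∈ KV R h z ρ := Finset.mem_image_of_mem _ hmr
    rcases (hw0 _ hkm).lt_or_eq with h0 | h0
    · exact h0
    · exfalso
      -- AI of insert y (KV.erase v_m)
      have hyE : y ∉ (KV R h z ρ).erase (kv R h z ρ m) := fun h' => hy (Finset.mem_of_mem_erase h')
      have hX := hgen (insert y ((KV R h z ρ).erase (kv R h z ρ m)))
        (Finset.insert_subset_insert _ (Finset.erase_subset _ _)) (by
          rw [Finset.card_insert_of_notMem hyE, Finset.card_erase_of_mem hkm, KV_card hh]; omega)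
      have hne : ∀ x ∈ (KV R h z ρ).erase (kv R h z ρ m), x ≠ y := fun x hx hxy => hyE (hxy ▸ hx)
      have h1 := hX (fun x => if x = y then -1 else w x) (by
        rw [Finset.sum_insert hyE, if_pos rfl]
        have : ∑ x ∈ (KV R h z ρ).erase (kv R h z ρ m), (if x = y then -1 else w x) =
            ∑ x ∈ (KV R h z ρ).erase (kv R h z ρ m), w x :=
          Finset.sum_congr rfl (fun x hx => if_neg (hne x hx))
        rw [this]
        have h5 := Finset.add_sum_erase (KV R h z ρ) w hkm
        rw [← h0, zero_add, hw1] at h5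
        rw [h5]; norm_num) (by
        rw [Finset.sum_insert hyE, if_pos rfl]
        have : ∑ x ∈ (KV R h z ρ).erase (kv R h z ρ m), (if x = y then -1 else w x) • x =
            ∑ x ∈ (KV R h z ρ).erase (kv R h z ρ m), w x • x :=
          Finset.sum_congr rfl (fun x hx => by rw [if_neg (hne x hx)])
        rw [this]
        have h5 := Finset.add_sum_erase (KV R h z ρ) (fun x => w x • x) hkm
        rw [← h0, zero_smul, zero_add, hw2] at h5
        rw [h5]; simp) y (Finset.mem_insert_self _ _)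
      simp at h1
  · rw [← hw1]
    unfold KV
    rw [Finset.sum_image (kv_inj hh z ρ)]
  · intro i
    have h1 : y = ∑ m ∈ Finset.range (d + 1), (fun m => w (kv R h z ρ m)) m • kv R h z ρ m := by
      rw [← hw2]
      conv_lhs => unfold KV
      rw [Finset.sum_image (kv_inj hh z ρ)]
    have h2 : ∑ m ∈ Finset.range (d + 1), (fun m => w (kv R h z ρ m)) m = 1 := by
      rw [← hw1]
      unfold KV
      rw [Finset.sum_image (kv_inj hh z ρ)]
    have h3 := kv_sum R h z ρ (fun m => w (kv R h z ρ m)) i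
    rw [h2, ← h1] at h3
    rw [h3]; ring

theorem tl_anti {l : ℕ → ℝ} (hl : ∀ m, m ≤ d → 0 < l m) {j j' : ℕ} (hj : j < j') (hj' : j' ≤ d) :
    tl d l j' < tl d l j := by
  induction j' with
  | zero => omega
  | succ k ih =>
    have h1 := tl_succ (d := d) l (j := k) (by omega)
    have h2 := hl (k + 1) (by omega)
    rcases Nat.lt_or_eq_of_le (Nat.le_of_lt_succ hj) with h | h
    · have := ih h (by omega)
      linarith
    · rw [h]; linarith

theorem kuhn_unique {R h : ℝ} (hh : 0 < h) (z z' : Fin d → ℕ) (ρ ρ' : Equiv.Perm (Fin d)) (y : Fin d → ℝ)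
    (l l' : ℕ → ℝ) (hl : ∀ m, m ≤ d → 0 < l m) (hl' : ∀ m, m ≤ d → 0 < l' m)
    (hs : ∑ m ∈ Finset.range (d + 1), l m = 1) (hs' : ∑ m ∈ Finset.range (d + 1), l' m = 1)
    (hy : ∀ i, y i = -R + h * z i + h * tl d l (ρ i).val)
    (hy' : ∀ i, y i = -R + h * z' i + h * tl d l' (ρ' i).val) : z = z' ∧ ρ = ρ' := by
  have hrange : ∀ (l : ℕ → ℝ), (∀ m, m ≤ d → 0 < l m) → ∑ m ∈ Finset.range (d + 1), l m = 1 →
      ∀ j, j < d → 0 < tl d l j ∧ tl d l j < 1 := by
    intro l hl hs j hj
    constructor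
    · have := tl_anti (d := d) hl hj le_rfl
      rwa [tl_last] at this
    · have h1 := tl_total (d := d) l
      rw [hs] at h1
      have h2 := hl 0 (Nat.zero_le _)
      rcases Nat.eq_zero_or_pos j with h | h
      · rw [h]; linarith
      · have := tl_anti (d := d) hl h hj.le
        linarith
  have hsame : ∀ i, z i = z' i ∧ tl d l (ρ i).val = tl d l' (ρ' i).val := by
    intro i
    have h1 := hrange l hl hs (ρ i).val (ρ i).isLt
    have h2 := hrange l' hl' hs' (ρ' i).val (ρ' i).isLt
    have h3 : h * ((z i : ℝ) + tl d l (ρ i).val) = h * ((z' i : ℝ) + tl d l' (ρ' i).val) := by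
      have e1 := hy i
      have e2 := hy' i
      linarith
    have h4 := mul_left_cancel₀ hh.ne' h3
    have h5 : z i = z' i := by
      rcases Nat.lt_trichotomy (z i) (z' i) with h | h | h
      · have : (z i : ℝ) + 1 ≤ z' i := by exact_mod_cast h
        linarith
      · exact h
      · have : (z' i : ℝ) + 1 ≤ z i := by exact_mod_cast h
        linarith
    refine ⟨h5, ?_⟩
    rw [h5] at h4
    linarith
  refine ⟨funext fun i => (hsame i).1, ?_⟩
  have hmono : StrictMono (fun j : Fin d => ρ' (ρ.symm j)) := by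
    intro j j' hjj
    have h1 := (hsame (ρ.symm j)).2
    have h2 := (hsame (ρ.symm j')).2
    rw [Equiv.apply_symm_apply] at h1 h2
    have h3 := tl_anti (d := d) hl (show j.val < j'.val from hjj) j'.isLt.le
    rw [h1, h2] at h3
    by_contra hcon
    rw [not_lt] at hcon
    rcases (show (ρ' (ρ.symm j')).val ≤ (ρ' (ρ.symm j)).val from hcon).lt_or_eq with h | h
    · have := tl_anti (d := d) hl' h (ρ' (ρ.symm j)).isLt.le
      linarith
    · rw [h] at h3; linarith
  have hid := (StrictMono.range_inj hmono (strictMono_id)).mp (by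
    rw [Set.range_id, Set.range_eq_univ]
    intro x
    exact ⟨ρ (ρ'.symm x), by simp⟩)
  apply Equiv.ext
  intro i
  have := congrFun hid (ρ i)
  simp only [Equiv.symm_apply_apply, id] at this
  exact this.symm

theorem kuhn_exists {R h : ℝ} (hh : 0 < h) {M : ℕ} (hMR : h * M = 2 * R) (y : Fin d → ℝ)
    (hy : ∀ i, -R < y i ∧ y i < R) :
    ∃ p ∈ Tset d M, y ∈ convexHull ℝ (KV R h p.1 p.2 : Set (Fin d → ℝ)) := by
  set u : Fin d → ℝ := fun i => (y i + R) / h with hu
  set z : Fin d → ℕ := fun i => ⌊u i⌋₊ with hz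
  set f : Fin d → ℝ := fun i => u i - z i with hf
  have hu0 : ∀ i, 0 ≤ u i := fun i => div_nonneg (by linarith [(hy i).1]) hh.le
  have hf0 : ∀ i, 0 ≤ f i := fun i => by
    have := Nat.floor_le (hu0 i); simp only [hf, hz]; linarith
  have hf1 : ∀ i, f i ≤ 1 := fun i => by
    have := Nat.lt_floor_add_one (u i); simp only [hf, hz]; linarith
  set σ : Equiv.Perm (Fin d) := Tuple.sort (fun i => - f i) with hσ
  have hmono : Monotone ((fun i => - f i) ∘ σ) := Tuple.monotone_sort _
  let φ : ℕ → ℝ := fun m => if m = 0 then 1 else if hm : m - 1 < d then f (σ ⟨m - 1, hm⟩) else 0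
  let l : ℕ → ℝ := fun m => φ m - φ (m + 1)
  have htl : ∀ j, j ≤ d → tl d l j = φ (j + 1) := by
    intro j hj
    induction hk : d - j generalizing j with
    | zero =>
      have : j = d := by omega
      subst this
      rw [tl_last]
      simp [φ]
    | succ k ih =>
      rw [tl_succ l (by omega), ih (j + 1) (by omega) (by omega)]
      simp only [l]; ring
  have hsum : ∑ m ∈ Finset.range (d + 1), l m = 1 := by
    rw [tl_total, htl 0 (Nat.zero_le _)]
    simp [l, φ]
  have hl0 : ∀ m ∈ Finset.range (d + 1), 0 ≤ l m := by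
    intro m hm
    rw [Finset.mem_range] at hm
    simp only [l, φ]
    rcases Nat.eq_zero_or_pos m with h0 | h0
    · subst h0
      simp only [if_true, zero_add, one_ne_zero, if_false]
      split_ifs with h1
      · linarith [hf1 (σ ⟨1 - 1, h1⟩)]
      · norm_num
    · rw [if_neg (by omega), dif_pos (by omega : m - 1 < d), if_neg (by omega)]
      split_ifs with h1
      · have h2 := hmono (show (⟨m - 1, by omega⟩ : Fin d) ≤ ⟨m + 1 - 1, h1⟩ from by
          simp only [Fin.mk_le_mk]; omega)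
        simp only [Function.comp_apply] at h2
        linarith
      · linarith [hf0 (σ ⟨m - 1, by omega⟩)]
  have hzM : ∀ i, z i < M := by
    intro i
    have h1 : u i < M := by
      simp only [hu]
      rw [div_lt_iff₀ hh]
      have := (hy i).2
      linarith
    have h2 := Nat.floor_le (hu0 i)
    have h3 : (z i : ℝ) < M := lt_of_le_of_lt h2 h1
    exact_mod_cast h3
  refine ⟨(z, σ.symm), by rw [mem_Tset]; exact hzM, ?_⟩
  simp only
  have hy2 : y = ∑ m ∈ Finset.range (d + 1), l m • kv R h z σ.symm m := by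
    funext i
    rw [kv_sum, hsum, htl _ (σ.symm i).isLt.le]
    simp only [φ, Nat.succ_ne_zero, if_false, Nat.add_sub_cancel, Fin.eta, Equiv.apply_symm_apply,
      (σ.symm i).isLt, dif_pos]
    simp only [hf, hu]
    field_simp
    ring
  rw [hy2]
  refine (convex_convexHull ℝ _).sum_mem hl0 hsum ?_
  intro m hm
  apply subset_convexHull
  exact Finset.mem_coe.mpr (Finset.mem_image_of_mem _ hm)

theorem kuhn_T3 {R h : ℝ} (hh : 0 < h) {M : ℕ} (hMR : h * M = 2 * R) (y : Fin d → ℝ)
    (hy : ∀ i, -R < y i ∧ y i < R)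
    (hyV : ∀ p ∈ Tset d M, y ∉ KV R h p.1 p.2)
    (hgen : ∀ p ∈ Tset d M, ∀ X ⊆ insert y (KV R h p.1 p.2), X.card = d + 1 → AI X) :
    ∑ p ∈ Tset d M, F (KV R h p.1 p.2) {y} = 1 := by
  have hF : ∀ p : (Fin d → ℕ) × Equiv.Perm (Fin d), F (KV R h p.1 p.2) {y} = 1 ↔
      y ∈ convexHull ℝ (KV R h p.1 p.2 : Set (Fin d → ℝ)) := by
    intro p
    rw [F_eq_one_iff]
    simp
  obtain ⟨p, hp, hyp⟩ := kuhn_exists hh hMR y hy
  rw [Finset.sum_eq_single_of_mem p hp]
  · exact (hF p).mpr hyp
  · intro q hq hqp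
    by_contra hne
    have h1 : F (KV R h q.1 q.2) {y} = 1 := by
      unfold F at hne ⊢
      split_ifs at hne ⊢ with h
      · rfl
      · exact absurd rfl hne
    have hyq := (hF q).mp h1
    obtain ⟨l, hl, hs, hyl⟩ := coords_pos hh p.1 p.2 y (hyV p hp) (hgen p hp) hyp
    obtain ⟨l', hl', hs', hyl'⟩ := coords_pos hh q.1 q.2 y (hyV q hq) (hgen q hq) hyq
    obtain ⟨h2, h3⟩ := kuhn_unique hh p.1 q.1 p.2 q.2 y l l' hl hl' hs hs' hyl hyl'
    exact hqp (Prod.ext h2.symm h3.symm)

end Pool.Agent.Helper42.Sel
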