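import Mathlib
import Pool.Agent.Helper42.Sel.Kuhn2

set_option autoImplicit false

open Finset

namespace Pool.Agent.Helper42.Sel

variable {d : ℕ}

/-- affine combinations of a finite set -/
def aspan (X : Finset (Fin d → ℝ)) : Set (Fin d → ℝ) :=
  {p | ∃ w : (Fin d → ℝ) → ℝ, ∑ x ∈ X, w x = 1 ∧ ∑ x ∈ X, w x • x = p}

theorem aspan_mono {X Y : Finset (Fin d → ℝ)} (h : X ⊆ Y) : aspan X ⊆ aspan Y := by
  rintro p ⟨w, h1, h2⟩
  refine ⟨fun y => if y ∈ X then w y else 0, ?_, ?_⟩
  · rw [Finset.sum_ite_mem, Finset.inter_eq_right.mpr h]; exact h1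
  · have : ∑ y ∈ Y, (if y ∈ X then w y else 0) • y = ∑ y ∈ Y, (if y ∈ X then w y • y else 0) := by
      apply Finset.sum_congr rfl
      intro y _
      split_ifs <;> simp
    rw [this, Finset.sum_ite_mem, Finset.inter_eq_right.mpr h]; exact h2

theorem aspan_empty : aspan (∅ : Finset (Fin d → ℝ)) = ∅ := by
  ext p
  simp [aspan]

theorem convexHull_subset_aspan (X : Finset (Fin d → ℝ)) :
    convexHull ℝ (X : Set (Fin d → ℝ)) ⊆ aspan X := by
  intro p hp
  rw [Finset.mem_convexHull'] at hp
  obtain ⟨w, _, h1, h2⟩ := hp
  exact ⟨w, h1, h2⟩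

theorem aspan_subset_affineSpan (X : Finset (Fin d → ℝ)) :
    aspan X ⊆ (affineSpan ℝ (X : Set (Fin d → ℝ)) : Set (Fin d → ℝ)) := by
  rintro p ⟨w, h1, h2⟩
  rw [← h2]
  have h5 := affineCombination_mem_affineSpan (k := ℝ) (s := (Finset.univ : Finset X))
    (w := fun x => w x) (by rw [Finset.sum_coe_sort X w]; exact h1)
    (fun x : X => (x : Fin d → ℝ))
  rw [Finset.affineCombination_eq_linear_combination _ _ _ (by rw [Finset.sum_coe_sort X w]; exact h1)] at h5
  rw [Finset.sum_coe_sort X (fun x => w x • x)] at h5
  simpa using h5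

theorem volume_aspan (X : Finset (Fin d → ℝ)) (hX : X.card ≤ d) :
    MeasureTheory.volume (aspan X) = 0 := by
  rcases X.eq_empty_or_nonempty with h | h
  · rw [h, aspan_empty]; simp
  refine MeasureTheory.measure_mono_null (aspan_subset_affineSpan X) ?_
  apply MeasureTheory.Measure.addHaar_affineSubspace
  intro htop
  obtain ⟨n, hn⟩ : ∃ n, X.card = n + 1 := ⟨X.card - 1, by have := h.card_pos; omega⟩
  have h1 := finrank_vectorSpan_image_finset_le ℝ (id : (Fin d → ℝ) → (Fin d → ℝ)) X hn
  rw [Finset.image_id] at h1
  have h2 : vectorSpan ℝ (X : Set (Fin d → ℝ)) = ⊤ := by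
    rw [← direction_affineSpan, htop, AffineSubspace.direction_top]
  rw [h2, finrank_top] at h1
  simp at h1
  omega

theorem AI_insert {X : Finset (Fin d → ℝ)} {q : Fin d → ℝ} (hX : AI X) (hq : q ∉ aspan X)
    (hqX : q ∉ X) : AI (insert q X) := by
  intro w h1 h2
  rw [Finset.sum_insert hqX] at h1 h2
  by_cases hwq : w q = 0
  · rw [hwq, zero_add] at h1
    rw [hwq, zero_smul, zero_add] at h2
    have := hX w h1 h2
    intro x hx
    rw [Finset.mem_insert] at hx
    rcases hx with hx | hx
    · rw [hx, hwq]
    · exact this x hx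
  · exfalso
    apply hq
    refine ⟨fun x => - (w x) / w q, ?_, ?_⟩
    · rw [← Finset.sum_div, Finset.sum_neg_distrib]
      rw [div_eq_one_iff_eq hwq]
      linarith
    · have h3 : ∑ x ∈ X, (-(w x) / w q) • x = (-(1 / w q)) • ∑ x ∈ X, w x • x := by
        rw [Finset.smul_sum]
        apply Finset.sum_congr rfl
        intro x _
        rw [smul_smul]
        congr 1
        ring
      have h4 : ∑ x ∈ X, w x • x = - (w q • q) := by
        rw [eq_neg_iff_add_eq_zero, add_comm]; exact h2
      rw [h3, h4, smul_neg, neg_smul, neg_neg, smul_smul]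
      rw [one_div, inv_mul_cancel₀ hwq, one_smul]

/-- Generic perturbation relative to countably many simplices. -/
theorem gpe {ι κ : Type*} [Fintype ι] [Countable κ] (hd : 0 < d)
    (V : κ → Finset (Fin d → ℝ)) (hV : ∀ k, AI (V k)) (x : ι → Fin d → ℝ) {ε : ℝ} (hε : 0 < ε) :
    ∃ x' : ι → (Fin d → ℝ), (∀ i, dist (x' i) (x i) < ε) ∧ Function.Injective x' ∧
      (∀ k, ∀ i, x' i ∉ V k) ∧
      ∀ k, ∀ X ⊆ V k ∪ Finset.univ.image x', X.card ≤ d + 1 → AI X := by
  classical
  have main : ∀ s : Finset ι, ∃ x' : ι → (Fin d → ℝ), (∀ i ∈ s, dist (x' i) (x i) < ε) ∧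
      Set.InjOn x' s ∧ (∀ k, ∀ i ∈ s, x' i ∉ V k) ∧
      ∀ k, ∀ X ⊆ V k ∪ s.image x', X.card ≤ d + 1 → AI X := by
    intro s
    induction s using Finset.induction_on with
    | empty =>
      refine ⟨x, by simp, by simp, by simp, ?_⟩
      intro k X hX _
      rw [Finset.image_empty, Finset.union_empty] at hX
      exact (hV k).mono hX
    | insert a s ha ih =>
      obtain ⟨x', h1, h2, h3, h4⟩ := ih
      -- the bad set
      let bad : Set (Fin d → ℝ) := (⋃ k, ((V k : Set (Fin d → ℝ)) ∪
        ⋃ X ∈ (V k ∪ s.image x').powerset.filter (fun X => X.card ≤ d), aspan X)) ∪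
        (s.image x' : Set (Fin d → ℝ))
      have hfin : ∀ W : Finset (Fin d → ℝ), MeasureTheory.volume (W : Set (Fin d → ℝ)) = 0 := by
        intro W
        have : Nonempty (Fin d) := ⟨⟨0, hd⟩⟩
        exact (Finset.finite_toSet W).measure_zero _
      have hbad : MeasureTheory.volume bad = 0 := by
        refine MeasureTheory.measure_union_null ?_ (hfin _)
        refine MeasureTheory.measure_iUnion_null (fun k => MeasureTheory.measure_union_null (hfin _) ?_)
        refine (MeasureTheory.measure_biUnion_null_iff (Finset.countable_toSet _)).mpr ?_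
        intro X hX
        rw [Finset.mem_coe, Finset.mem_filter] at hX
        exact volume_aspan X hX.2
      have hball : 0 < MeasureTheory.volume (Metric.ball (x a) ε) :=
        Metric.isOpen_ball.measure_pos _ ⟨x a, Metric.mem_ball_self hε⟩
      have hex : ∃ q ∈ Metric.ball (x a) ε, q ∉ bad := by
        by_contra hne
        push Not at hne
        have := MeasureTheory.measure_mono_null hne hbad
        rw [this] at hball
        exact lt_irrefl _ hball
      obtain ⟨q, hq1, hq2⟩ := hex
      simp only [bad, Set.mem_union, Set.mem_iUnion, not_or, not_exists] at hq2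
      obtain ⟨hq3, hq4⟩ := hq2
      have hqV : ∀ k, q ∉ V k := fun k => (hq3 k).1
      have hqs : q ∉ s.image x' := fun h => hq4 (Finset.mem_coe.mpr h)
      have hqa : ∀ k, ∀ X ⊆ V k ∪ s.image x', X.card ≤ d → q ∉ aspan X := by
        intro k X hX hXc hqX
        exact (hq3 k).2 X (by rw [Finset.mem_filter, Finset.mem_powerset]; exact ⟨hX, hXc⟩) hqX
      have himg : (insert a s).image (Function.update x' a q) = insert q (s.image x') := by
        rw [Finset.image_insert, Function.update_self]
        congr 1
        apply Finset.image_congr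
        intro i hi
        rw [Function.update_of_ne]
        intro h; rw [h] at hi; exact ha hi
      have hupd : ∀ i ∈ s, Function.update x' a q i = x' i := by
        intro i hi
        rw [Function.update_of_ne]
        intro h; rw [h] at hi; exact ha hi
      refine ⟨Function.update x' a q, ?_, ?_, ?_, ?_⟩
      · intro i hi
        rw [Finset.mem_insert] at hi
        rcases hi with hi | hi
        · rw [hi, Function.update_self]; exact hq1
        · rw [hupd i hi]; exact h1 i hi
      · rw [Finset.coe_insert, Set.injOn_insert (by simpa using ha)]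
        constructor
        · intro i hi j hj hij
          rw [hupd i hi, hupd j hj] at hij
          exact h2 hi hj hij
        · rw [Function.update_self]
          rintro ⟨i, hi, hi2⟩
          rw [hupd i hi] at hi2
          exact hqs (by rw [← hi2]; exact Finset.mem_image_of_mem _ hi)
      · intro k i hi
        rw [Finset.mem_insert] at hi
        rcases hi with hi | hi
        · rw [hi, Function.update_self]; exact hqV k
        · rw [hupd i hi]; exact h3 k i hi
      · intro k X hX hXc
        rw [himg] at hX
        by_cases hqX : q ∈ X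
        · have hX0 : X.erase q ⊆ V k ∪ s.image x' := by
            intro z hz
            rw [Finset.mem_erase] at hz
            have := hX hz.2
            simp only [Finset.mem_union, Finset.mem_insert] at this ⊢
            rcases this with h | h | h
            · exact Or.inl h
            · exact absurd h hz.1
            · exact Or.inr h
          have hXc' : (X.erase q).card + 1 = X.card := Finset.card_erase_add_one hqX
          have h5 := h4 k _ hX0 (by omega)
          have h6 := AI_insert h5 (hqa k _ hX0 (by omega)) (Finset.notMem_erase _ _)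
          rwa [Finset.insert_erase hqX] at h6
        · apply h4 k X _ hXc
          intro z hz
          have := hX hz
          simp only [Finset.mem_union, Finset.mem_insert] at this ⊢
          rcases this with h | h | h
          · exact Or.inl h
          · rw [h] at hz; exact absurd hz hqX
          · exact Or.inr h
  obtain ⟨x', h1, h2, h3, h4⟩ := main Finset.univ
  refine ⟨x', fun i => h1 i (Finset.mem_univ i), ?_, fun k i => h3 k i (Finset.mem_univ i), h4⟩
  intro i j hij
  exact h2 (by simp) (by simp) hij

end Pool.Agent.Helper42.Sel
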