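import Mathlib
import Pool.Agent.Helper42.Sel.GenPos

set_option autoImplicit false

open Finset

namespace Pool.Agent.Helper42.Sel

variable {d : ℕ}

/-- the points of colour in `[n, j)` -/
noncomputable def Ymid (n j : ℕ) (y : Fin (d + 1) → (Fin d → ℝ)) : Finset (Fin d → ℝ) :=
  (Finset.univ.filter (fun i : Fin (d + 1) => n ≤ i.val ∧ i.val < j)).image y

theorem Ymid_self (n : ℕ) (y : Fin (d + 1) → (Fin d → ℝ)) : Ymid n n y = ∅ := by
  unfold Ymid
  rw [Finset.image_eq_empty, Finset.filter_eq_empty_iff]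
  intro i _
  omega

theorem Ymid_last (n : ℕ) (y : Fin (d + 1) → (Fin d → ℝ)) : Ymid n (d + 1) y = Yset n y := by
  unfold Ymid Yset
  congr 1
  ext i
  simp only [Finset.mem_filter, Finset.mem_univ, true_and]
  have := i.isLt
  constructor
  · intro h; exact h.1
  · intro h; exact ⟨h, this⟩

theorem Ymid_succ {n j : ℕ} (hj : j < d + 1) (hnj : n ≤ j) (y : Fin (d + 1) → (Fin d → ℝ)) (x : Fin d → ℝ) :
    Ymid n (j + 1) (Function.update y ⟨j, hj⟩ x) = insert x (Ymid n j y) ∧
    Ymid n j (Function.update y ⟨j, hj⟩ x) = Ymid n j y := by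
  have e2 : Ymid n j (Function.update y ⟨j, hj⟩ x) = Ymid n j y := by
    unfold Ymid
    apply Finset.image_congr
    intro i hi
    simp only [Finset.coe_filter, Finset.mem_univ, true_and, Set.mem_ofPred_eq] at hi
    rw [Function.update_of_ne]
    intro h
    rw [h] at hi
    simp at hi
  refine ⟨?_, e2⟩
  rw [← e2]
  unfold Ymid
  have : (Finset.univ.filter (fun i : Fin (d + 1) => n ≤ i.val ∧ i.val < j + 1)) =
      insert ⟨j, hj⟩ (Finset.univ.filter (fun i : Fin (d + 1) => n ≤ i.val ∧ i.val < j)) := by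
    ext i
    simp only [Finset.mem_filter, Finset.mem_univ, true_and, Finset.mem_insert]
    constructor
    · intro h
      rcases Nat.eq_or_lt_of_le (Nat.le_of_lt_succ h.2) with h' | h'
      · left; exact Fin.ext h'
      · right; exact ⟨h.1, h'⟩
    · rintro (h | h)
      · rw [h]; exact ⟨hnj, by simp⟩
      · omega
  rw [this, Finset.image_insert, Function.update_self]

theorem Ymid_card (n j : ℕ) (y : Fin (d + 1) → (Fin d → ℝ)) : (Ymid n j y).card ≤ j - n := by
  unfold Ymid
  refine Finset.card_image_le.trans ?_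
  have : ((Finset.univ.filter (fun i : Fin (d + 1) => n ≤ i.val ∧ i.val < j)).image Fin.val).card ≤ j - n := by
    rw [← Nat.card_Ico]
    apply Finset.card_le_card
    intro k hk
    simp only [Finset.mem_image, Finset.mem_filter, Finset.mem_univ, true_and] at hk
    obtain ⟨i, hi, rfl⟩ := hk
    rw [Finset.mem_Ico]
    exact hi
  rwa [Finset.card_image_of_injective _ Fin.val_injective] at this

/-- badness indicator -/
noncomputable def bad (p : Fin d → ℝ) (n j : ℕ) (y : Fin (d + 1) → (Fin d → ℝ)) : ℝ :=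
  open Classical in
  if p ∉ aspan (Ymid n j y) ∧ p ∈ aspan (Ymid n (j + 1) y) then 1 else 0

theorem bad_nonneg (p : Fin d → ℝ) (n j : ℕ) (y : Fin (d + 1) → (Fin d → ℝ)) : 0 ≤ bad p n j y := by
  unfold bad; split_ifs <;> norm_num

theorem bad_sum (C : Fin (d + 1) → Finset (Fin d → ℝ)) (hdC : ∀ i j, i ≠ j → Disjoint (C i) (C j))
    (hgen : ∀ X ⊆ U C 0, X.card ≤ d + 1 → AI X) (p : Fin d → ℝ) {n j : ℕ} (hn : 1 ≤ n) (hnj : n ≤ j)
    (hj : j < d + 1) :
    ((C ⟨j, hj⟩).card : ℝ) * ∑ y ∈ Fintype.piFinset C, bad p n j y ≤ (Fintype.piFinset C).card := by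
  classical
  rw [← sum_update C ⟨j, hj⟩ (bad p n j), Finset.sum_comm]
  have : ∀ y ∈ Fintype.piFinset C, ∑ x ∈ C ⟨j, hj⟩, bad p n j (Function.update y ⟨j, hj⟩ x) ≤ 1 := by
    intro y hy
    rw [Fintype.mem_piFinset] at hy
    have hX0U : Ymid n j y ⊆ U C 0 := by
      intro z hz
      simp only [Ymid, Finset.mem_image, Finset.mem_filter, Finset.mem_univ, true_and] at hz
      obtain ⟨i, _, rfl⟩ := hz
      rw [mem_U]
      exact ⟨i, Nat.zero_le _, hy i⟩
    have hX0C : ∀ x ∈ C ⟨j, hj⟩, x ∉ Ymid n j y := by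
      intro x hx hxY
      simp only [Ymid, Finset.mem_image, Finset.mem_filter, Finset.mem_univ, true_and] at hxY
      obtain ⟨i, hi, rfl⟩ := hxY
      have hne : (⟨j, hj⟩ : Fin (d + 1)) ≠ i := by
        intro h; rw [← h] at hi; simp at hi
      exact Finset.disjoint_left.mp (hdC _ _ hne) hx (hy i)
    have huniq : ∀ x ∈ C ⟨j, hj⟩, ∀ x' ∈ C ⟨j, hj⟩, p ∉ aspan (Ymid n j y) →
        p ∈ aspan (insert x (Ymid n j y)) → p ∈ aspan (insert x' (Ymid n j y)) → x = x' := by
      rintro x hx x' hx' hp ⟨a, ha1, ha2⟩ ⟨b, hb1, hb2⟩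
      by_contra hne
      have hxY := hX0C x hx
      have hxY' := hX0C x' hx'
      rw [Finset.sum_insert hxY] at ha1 ha2
      rw [Finset.sum_insert hxY'] at hb1 hb2
      have hax : a x ≠ 0 := by
        intro h
        rw [h, zero_add] at ha1
        rw [h, zero_smul, zero_add] at ha2
        exact hp ⟨a, ha1, ha2⟩
      have hxi : x ∉ insert x' (Ymid n j y) := by
        simp only [Finset.mem_insert, not_or]; exact ⟨hne, hxY⟩
      have hAI := hgen (insert x (insert x' (Ymid n j y))) (by
        intro z hz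
        simp only [Finset.mem_insert] at hz
        rcases hz with rfl | rfl | hz
        · rw [mem_U]; exact ⟨_, Nat.zero_le _, hx⟩
        · rw [mem_U]; exact ⟨_, Nat.zero_le _, hx'⟩
        · exact hX0U hz) (by
        rw [Finset.card_insert_of_notMem hxi, Finset.card_insert_of_notMem hxY']
        have := Ymid_card n j y
        omega)
      have hne1 : ∀ z ∈ Ymid n j y, z ≠ x := fun z hz h => hxY (h ▸ hz)
      have hne2 : ∀ z ∈ Ymid n j y, z ≠ x' := fun z hz h => hxY' (h ▸ hz)
      have := hAI (fun z => if z = x then a x else if z = x' then - b x' else a z - b z) (by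
        rw [Finset.sum_insert hxi, Finset.sum_insert hxY', if_pos rfl, if_neg (Ne.symm hne), if_pos rfl]
        have : ∑ z ∈ Ymid n j y, (if z = x then a x else if z = x' then - b x' else a z - b z) =
            ∑ z ∈ Ymid n j y, (a z - b z) :=
          Finset.sum_congr rfl (fun z hz => by rw [if_neg (hne1 z hz), if_neg (hne2 z hz)])
        rw [this, Finset.sum_sub_distrib]
        linarith) (by
        rw [Finset.sum_insert hxi, Finset.sum_insert hxY', if_pos rfl, if_neg (Ne.symm hne), if_pos rfl]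
        have : ∑ z ∈ Ymid n j y, (if z = x then a x else if z = x' then - b x' else a z - b z) • z =
            ∑ z ∈ Ymid n j y, (a z • z - b z • z) :=
          Finset.sum_congr rfl (fun z hz => by
            rw [if_neg (hne1 z hz), if_neg (hne2 z hz), sub_smul])
        rw [this, Finset.sum_sub_distrib]
        have e1 : ∑ z ∈ Ymid n j y, a z • z = p - a x • x := by rw [← ha2]; simp
        have e2 : ∑ z ∈ Ymid n j y, b z • z = p - b x' • x' := by rw [← hb2]; simp
        rw [e1, e2]
        module) x (Finset.mem_insert_self _ _)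
      simp only [if_true] at this
      exact hax this
    by_cases hex : ∃ x ∈ C ⟨j, hj⟩, bad p n j (Function.update y ⟨j, hj⟩ x) ≠ 0
    · obtain ⟨x, hx, hbx⟩ := hex
      have hdef : ∀ x, bad p n j (Function.update y ⟨j, hj⟩ x) =
          if p ∉ aspan (Ymid n j y) ∧ p ∈ aspan (insert x (Ymid n j y)) then 1 else 0 := by
        intro x
        unfold bad
        rw [(Ymid_succ hj hnj y x).1, (Ymid_succ hj hnj y x).2]
      rw [hdef] at hbx
      have hbx' : p ∉ aspan (Ymid n j y) ∧ p ∈ aspan (insert x (Ymid n j y)) := by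
        by_contra h; rw [if_neg h] at hbx; exact hbx rfl
      rw [Finset.sum_eq_single_of_mem x hx]
      · rw [hdef]; split_ifs <;> norm_num
      · intro x' hx' hne
        rw [hdef, if_neg]
        rintro ⟨h1, h2⟩
        exact hne (huniq x' hx' x hx h1 h2 hbx'.2)
    · push Not at hex
      rw [Finset.sum_eq_zero hex]
      norm_num
  refine (Finset.sum_le_sum this).trans ?_
  simp

/-- few faces of positive codimension pass through a given point -/
theorem prefix_bound (C : Fin (d + 1) → Finset (Fin d → ℝ)) (hdC : ∀ i j, i ≠ j → Disjoint (C i) (C j))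
    (hgen : ∀ X ⊆ U C 0, X.card ≤ d + 1 → AI X) (N : ℝ) (hN : 0 < N) (hCN : ∀ i, N ≤ (C i).card)
    (p : Fin d → ℝ) {n : ℕ} (hn : 1 ≤ n) :
    ∑ y ∈ Fintype.piFinset C, val (F {p} (Yset n y)) ≤ d / N * (Fintype.piFinset C).card := by
  classical
  have h1 : ∀ y : Fin (d + 1) → (Fin d → ℝ), val (F {p} (Yset n y)) ≤ ∑ j ∈ Finset.Ico n (d + 1), bad p n j y := by
    intro y
    by_cases hF : F {p} (Yset n y) = 0
    · rw [hF, val_zero]
      exact Finset.sum_nonneg (fun j _ => bad_nonneg p n j y)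
    · have hF1 : F {p} (Yset n y) = 1 := by
        unfold F at hF ⊢
        split_ifs at hF ⊢ with h
        · rfl
        · exact absurd rfl hF
      have hF' := (F_eq_one_iff _ _).mp hF1
      obtain ⟨q, hq1, hq2⟩ := hF'
      rw [Finset.coe_singleton, convexHull_singleton] at hq1
      have hqp : q = p := hq1
      rw [hqp] at hq2
      have hp := convexHull_subset_aspan _ hq2
      rw [← Ymid_last] at hp
      have hex : ∃ j, p ∈ aspan (Ymid n (j + 1) y) := ⟨d, hp⟩
      set j := Nat.find hex with hjdef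
      have hj1 : p ∈ aspan (Ymid n (j + 1) y) := Nat.find_spec hex
      have hjd : j ≤ d := Nat.find_min' hex hp
      have hjn : n ≤ j := by
        by_contra hcon
        rw [not_le] at hcon
        have : Ymid n (j + 1) y = ∅ := by
          unfold Ymid
          rw [Finset.image_eq_empty, Finset.filter_eq_empty_iff]
          intro i _
          omega
        rw [this, aspan_empty] at hj1
        exact hj1
      have hj2 : p ∉ aspan (Ymid n j y) := by
        intro h
        have hj0 : 0 < j := by omega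
        have := Nat.find_min hex (m := j - 1) (by omega)
        rw [show j - 1 + 1 = j by omega] at this
        exact this h
      have hb : bad p n j y = 1 := by
        unfold bad
        rw [if_pos ⟨hj2, hj1⟩]
      rw [hF1, val_one, ← hb]
      apply Finset.single_le_sum (f := fun j => bad p n j y) (fun j _ => bad_nonneg p n j y)
      rw [Finset.mem_Ico]
      omega
  have h2 : ∀ j ∈ Finset.Ico n (d + 1), ∑ y ∈ Fintype.piFinset C, bad p n j y ≤
      (Fintype.piFinset C).card / N := by
    intro j hj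
    rw [Finset.mem_Ico] at hj
    have h3 := bad_sum C hdC hgen p hn hj.1 hj.2
    rw [le_div_iff₀ hN, mul_comm]
    refine le_trans ?_ h3
    apply mul_le_mul_of_nonneg_right (hCN _)
    exact Finset.sum_nonneg (fun y _ => bad_nonneg p n j y)
  calc ∑ y ∈ Fintype.piFinset C, val (F {p} (Yset n y))
      ≤ ∑ y ∈ Fintype.piFinset C, ∑ j ∈ Finset.Ico n (d + 1), bad p n j y :=
        Finset.sum_le_sum (fun y _ => h1 y)
    _ = ∑ j ∈ Finset.Ico n (d + 1), ∑ y ∈ Fintype.piFinset C, bad p n j y := Finset.sum_comm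
    _ ≤ (Finset.Ico n (d + 1)).card • ((Fintype.piFinset C).card / N) :=
        Finset.sum_le_card_nsmul _ _ _ h2
    _ ≤ d / N * (Fintype.piFinset C).card := by
        rw [Nat.card_Ico, nsmul_eq_mul]
        have h4 : ((d + 1 - n : ℕ) : ℝ) ≤ d := by
          have : d + 1 - n ≤ d := by omega
          exact_mod_cast this
        have h5 : (0 : ℝ) ≤ (Fintype.piFinset C).card / N := by positivity
        calc ((d + 1 - n : ℕ) : ℝ) * ((Fintype.piFinset C).card / N) ≤
            d * ((Fintype.piFinset C).card / N) := mul_le_mul_of_nonneg_right h4 h5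
          _ = d / N * (Fintype.piFinset C).card := by ring

/-- A Lebesgue number for the hulls. -/
theorem lebesgue (W : Finset (Fin d → ℝ)) (K : Set (Fin d → ℝ)) (hK : IsCompact K) :
    ∃ δ > 0, ∀ x ∈ K, ∃ p : Fin d → ℝ, ∀ Y ⊆ W,
      (convexHull ℝ (Y : Set (Fin d → ℝ)) ∩ Metric.ball x δ).Nonempty →
      p ∈ convexHull ℝ (Y : Set (Fin d → ℝ)) := by
  classical
  have hloc : ∀ p : Fin d → ℝ, ∃ δ > 0, ∀ Y ⊆ W,
      (convexHull ℝ (Y : Set (Fin d → ℝ)) ∩ Metric.ball p δ).Nonempty →
      p ∈ convexHull ℝ (Y : Set (Fin d → ℝ)) := by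
    intro p
    have h1 : ∀ Y ∈ W.powerset, ∃ δ > 0,
        (convexHull ℝ (Y : Set (Fin d → ℝ)) ∩ Metric.ball p δ).Nonempty →
        p ∈ convexHull ℝ (Y : Set (Fin d → ℝ)) := by
      intro Y _
      by_cases hp : p ∈ convexHull ℝ (Y : Set (Fin d → ℝ))
      · exact ⟨1, one_pos, fun _ => hp⟩
      · have hclosed : IsClosed (convexHull ℝ (Y : Set (Fin d → ℝ))) :=
          (Finset.finite_toSet Y).isClosed_convexHull ℝ
        have hopen := hclosed.isOpen_compl
        obtain ⟨δ, hδ, hball⟩ := Metric.isOpen_iff.mp hopen p hp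
        refine ⟨δ, hδ, ?_⟩
        rintro ⟨q, hq1, hq2⟩
        exact absurd hq1 (hball hq2)
    choose! δ hδ hδ' using h1
    obtain ⟨Y0, hY0, hmin⟩ := Finset.exists_min_image W.powerset δ ⟨∅, Finset.empty_mem_powerset _⟩
    refine ⟨δ Y0, hδ Y0 hY0, ?_⟩
    rintro Y hY ⟨q, hq1, hq2⟩
    have hYp := Finset.mem_powerset.mpr hY
    exact hδ' Y hYp ⟨q, hq1, Metric.ball_subset_ball (hmin Y hYp) hq2⟩
  choose r hr hr' using hloc
  obtain ⟨δ, hδ, hcov⟩ := lebesgue_number_lemma_of_metric (c := fun p => Metric.ball p (r p)) hK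
    (fun _ => Metric.isOpen_ball) (fun x _ => Set.mem_iUnion.mpr ⟨x, Metric.mem_ball_self (hr x)⟩)
  refine ⟨δ, hδ, ?_⟩
  intro x hx
  obtain ⟨p, hp⟩ := hcov x hx
  refine ⟨p, ?_⟩
  rintro Y hY ⟨q, hq1, hq2⟩
  exact hr' p Y hY ⟨q, hq1, hp hq2⟩

end Pool.Agent.Helper42.Sel
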