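import Mathlib
import Pool.Agent.Helper42.Sel.Select

set_option autoImplicit false

open Finset

namespace Pool.Agent.Helper42.Sel

variable {d : ℕ}

theorem val_F_mono {S S' Y : Finset (Fin d → ℝ)}
    (h : (convexHull ℝ (S : Set (Fin d → ℝ)) ∩ convexHull ℝ (Y : Set (Fin d → ℝ))).Nonempty →
      (convexHull ℝ (S' : Set (Fin d → ℝ)) ∩ convexHull ℝ (Y : Set (Fin d → ℝ))).Nonempty) :
    val (F S Y) ≤ val (F S' Y) := by
  unfold F
  by_cases h1 : (convexHull ℝ (S : Set (Fin d → ℝ)) ∩ convexHull ℝ (Y : Set (Fin d → ℝ))).Nonempty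
  · rw [if_pos h1, if_pos (h h1)]
  · rw [if_neg h1, val_zero]; exact val_nonneg _

theorem kv_dist {R h : ℝ} (hh : 0 < h) (z : Fin d → ℕ) (ρ : Equiv.Perm (Fin d)) (m m' : ℕ) :
    dist (kv R h z ρ m) (kv R h z ρ m') ≤ h := by
  rw [dist_pi_le_iff hh.le]
  intro i
  unfold kv
  rw [Real.dist_eq]
  split_ifs <;> (rw [abs_le]; constructor <;> nlinarith)

theorem kv_mem_box {R h : ℝ} (hh : 0 < h) {M : ℕ} (hMR : h * M = 2 * R) {z : Fin d → ℕ}
    (hz : ∀ i, z i < M) (ρ : Equiv.Perm (Fin d)) (m : ℕ) :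
    kv R h z ρ m ∈ Set.Icc (fun _ : Fin d => -R) (fun _ => R) := by
  rw [Set.mem_Icc, Pi.le_def, Pi.le_def]
  constructor
  · intro i
    unfold kv
    have : (0 : ℝ) ≤ (z i : ℝ) + (if (ρ i).val < m then 1 else 0) := by
      split_ifs <;> positivity
    nlinarith
  · intro i
    unfold kv
    have h1 : (z i : ℝ) + 1 ≤ M := by exact_mod_cast hz i
    have : (z i : ℝ) + (if (ρ i).val < m then 1 else 0) ≤ M := by
      split_ifs <;> linarith
    nlinarith

/-- coloured selection for generic classes -/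
theorem select_generic (hd : 0 < d) {R : ℝ} (hR : 0 < R) (C : Fin (d + 1) → Finset (Fin d → ℝ))
    (hC : ∀ i, (C i).Nonempty) (hdC : ∀ i j, i ≠ j → Disjoint (C i) (C j))
    (hbox : ∀ x ∈ U C 0, ∀ i, -R < x i ∧ x i < R) (c : ℝ) (N : ℝ) (hN0 : 0 < N)
    (hN : (d + 1).factorial * (c + d * (d / N)) < 1) (hCN : ∀ i, N ≤ (C i).card)
    (hgen0 : ∀ X ⊆ U C 0, X.card ≤ d + 1 → AI X)
    (hgenT : ∀ M : ℕ, 0 < M → ∀ p ∈ Tset d M, Disjoint (KV R (2 * R / M) p.1 p.2) (U C 0) ∧
      ∀ X ⊆ KV R (2 * R / M) p.1 p.2 ∪ U C 0, X.card ≤ d + 1 → AI X) :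
    ∃ p, c * (Fintype.piFinset C).card < ∑ y ∈ Fintype.piFinset C, val (F {p} (Yset 0 y)) := by
  by_contra hcon
  push Not at hcon
  obtain ⟨δ, hδ, hleb⟩ := lebesgue (U C 0) (Set.Icc (fun _ : Fin d => -R) (fun _ => R)) isCompact_Icc
  obtain ⟨M, hM⟩ := exists_nat_gt (2 * R / δ)
  have hM0 : (0 : ℝ) < M := lt_trans (by positivity) hM
  have hM0' : 0 < M := by exact_mod_cast hM0
  set h := 2 * R / M with hh
  have hh0 : 0 < h := by positivity
  have hhδ : h < δ := by
    rw [hh, div_lt_iff₀ hM0]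
    rw [div_lt_iff₀ hδ] at hM
    linarith
  have hMR : h * M = 2 * R := by rw [hh]; field_simp
  refine no_fine C hC (T := ↥(Tset d M)) (fun t => KV R h t.1.1 t.1.2) (fun t => KV_card hh0 _ _) hdC
    (fun t => (hgenT M hM0' t.1 t.2).1) (fun t X hX hXc => (hgenT M hM0' t.1 t.2).2 X hX hXc.le)
    c (d / N) (by positivity) hN hcon ?_ ?_ ?_
  · intro u σ hσ n hn _
    have hne : σ.Nonempty := by
      rw [← Finset.card_pos, hn]; omega
    obtain ⟨v, hv⟩ := hne
    have hvV := hσ hv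
    simp only [KV, Finset.mem_image] at hvV
    obtain ⟨m, _, rfl⟩ := hvV
    have hbx := kv_mem_box hh0 hMR (mem_Tset.mp u.2) u.1.2 m
    obtain ⟨p, hp⟩ := hleb _ hbx
    have hball : convexHull ℝ (σ : Set (Fin d → ℝ)) ⊆ Metric.ball (kv R h u.1.1 u.1.2 m) δ := by
      apply convexHull_min _ (convex_ball _ _)
      intro x hx
      have := hσ hx
      simp only [KV, Finset.mem_image] at this
      obtain ⟨m', _, rfl⟩ := this
      exact lt_of_le_of_lt (kv_dist hh0 _ _ _ _) hhδ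
    refine le_trans (Finset.sum_le_sum (fun y hy => ?_))
      (prefix_bound C hdC hgen0 N hN0 hCN p (n := n + 1) (by omega))
    apply val_F_mono
    rintro ⟨q, hq1, hq2⟩
    refine ⟨p, by simp, ?_⟩
    apply hp
    · intro z hz
      simp only [Yset, Finset.mem_image, Finset.mem_filter, Finset.mem_univ, true_and] at hz
      obtain ⟨i, _, rfl⟩ := hz
      rw [mem_U]
      exact ⟨i, Nat.zero_le _, Fintype.mem_piFinset.mp hy i⟩
    · exact ⟨q, hq2, hball hq1⟩
  · intro g hg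
    have := kuhn_T2 hh0 hd hMR (U C 0) hbox g hg
    rw [← Finset.sum_coe_sort] at this
    exact this
  · intro y hy
    have hyU : y ∈ U C 0 := by rw [mem_U]; exact ⟨_, Nat.zero_le _, hy⟩
    have := kuhn_T3 hh0 hMR y (hbox y hyU)
      (fun p hp hyp => Finset.disjoint_left.mp (hgenT M hM0' p hp).1 hyp hyU)
      (fun p hp X hX hXc => (hgenT M hM0' p hp).2 X (hX.trans (by
        intro z hz
        rw [Finset.mem_insert] at hz
        rw [Finset.mem_union]
        rcases hz with hz | hz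
        · right; rw [hz]; exact hyU
        · left; exact hz)) hXc.le)
    rw [← Finset.sum_coe_sort] at this
    exact this

end Pool.Agent.Helper42.Sel
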