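import Mathlib
import Pool.Agent.Helper42.Sel.SelectG

set_option autoImplicit false

open Finset Filter Topology

namespace Pool.Agent.Helper42.Sel

variable {d : ℕ}

/-- points of the hull move by at most `ε` -/
theorem hull_move {m : ℕ} (y y' : Fin m → (Fin d → ℝ)) {ε : ℝ}
    (h : ∀ i, dist (y' i) (y i) ≤ ε) {p : Fin d → ℝ} (hp : p ∈ convexHull ℝ (Set.range y')) :
    ∃ q ∈ convexHull ℝ (Set.range y), dist p q ≤ ε := by
  rw [convexHull_range_eq_exists_affineCombination] at hp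
  obtain ⟨s, w, hw0, hw1, rfl⟩ := hp
  refine ⟨∑ i ∈ s, w i • y i, ?_, ?_⟩
  · exact (convex_convexHull ℝ _).sum_mem hw0 hw1
      (fun i _ => subset_convexHull ℝ _ ⟨i, rfl⟩)
  · rw [Finset.affineCombination_eq_linear_combination _ _ _ hw1, dist_eq_norm,
      ← Finset.sum_sub_distrib]
    calc ‖∑ i ∈ s, (w i • y' i - w i • y i)‖ ≤ ∑ i ∈ s, ‖w i • y' i - w i • y i‖ := norm_sum_le _ _
      _ ≤ ∑ i ∈ s, w i * ε := by
        apply Finset.sum_le_sum
        intro i hi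
        rw [← smul_sub, norm_smul, Real.norm_eq_abs, abs_of_nonneg (hw0 i hi)]
        apply mul_le_mul_of_nonneg_left _ (hw0 i hi)
        rw [← dist_eq_norm]; exact h i
      _ = ε := by rw [← Finset.sum_mul, hw1, one_mul]

theorem limit_lemma {I : Type*} [Fintype I] {m : ℕ} (y : I → Fin m → (Fin d → ℝ))
    (Φ : Finset I → Prop) (hΦ : ∀ H, Φ H → H.Nonempty)
    (h : ∀ ε : ℝ, 0 < ε → ∃ y' : I → Fin m → (Fin d → ℝ), (∀ j i, dist (y' j i) (y j i) ≤ ε) ∧
      ∃ H, Φ H ∧ ∃ p, ∀ j ∈ H, p ∈ convexHull ℝ (Set.range (y' j))) :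
    ∃ H, Φ H ∧ ∃ p, ∀ j ∈ H, p ∈ convexHull ℝ (Set.range (y j)) := by
  classical
  have h1 : ∀ n : ℕ, ∃ H, Φ H ∧ ∃ p, ∀ j ∈ H, ∃ q ∈ convexHull ℝ (Set.range (y j)),
      dist p q ≤ 1 / ((n : ℝ) + 1) := by
    intro n
    have hpos : (0 : ℝ) < 1 / ((n : ℝ) + 1) := by positivity
    obtain ⟨y', hy', H, hH, p, hp⟩ := h _ hpos
    exact ⟨H, hH, p, fun j hj => hull_move (y j) (y' j) (hy' j) (hp j hj)⟩
  choose H hH p hp using h1
  obtain ⟨H0, hH0⟩ := Ultrafilter.eq_pure_of_finite ((Filter.hyperfilter ℕ).map H)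
  have hev : ∀ᶠ n in (Filter.hyperfilter ℕ : Filter ℕ), H n = H0 := by
    have : {H0} ∈ ((Filter.hyperfilter ℕ).map H) := by
      rw [hH0]; exact Set.mem_singleton _
    exact this
  -- compactness
  have hKc : IsCompact (⋃ j : I, Metric.cthickening 1 (convexHull ℝ (Set.range (y j)))) := by
    apply isCompact_iUnion
    intro j
    apply IsCompact.cthickening
    exact (Set.finite_range (y j)).isCompact_convexHull ℝ
  have hpK : ∀ n, p n ∈ ⋃ j : I, Metric.cthickening 1 (convexHull ℝ (Set.range (y j))) := by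
    intro n
    obtain ⟨j, hj⟩ := hΦ _ (hH n)
    obtain ⟨q, hq, hpq⟩ := hp n j hj
    rw [Set.mem_iUnion]
    refine ⟨j, Metric.mem_cthickening_of_dist_le _ _ _ _ hq (hpq.trans ?_)⟩
    rw [div_le_one (by positivity)]
    have : (0 : ℝ) ≤ n := Nat.cast_nonneg n
    linarith
  obtain ⟨p0, _, hp0⟩ := hKc.ultrafilter_le_nhds ((Filter.hyperfilter ℕ).map p) (by
    rw [Filter.le_principal_iff]
    exact Filter.mem_map.mpr (Filter.univ_mem' hpK))
  have hlim : Tendsto p (Filter.hyperfilter ℕ : Filter ℕ) (𝓝 p0) := hp0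
  have hle : (Filter.hyperfilter ℕ : Filter ℕ) ≤ atTop := by
    rw [← Nat.cofinite_eq_atTop]; exact Filter.hyperfilter_le_cofinite
  have heps : Tendsto (fun n : ℕ => 1 / ((n : ℝ) + 1)) (Filter.hyperfilter ℕ : Filter ℕ) (𝓝 0) :=
    tendsto_one_div_add_atTop_nhds_zero_nat.mono_left hle
  obtain ⟨n0, hn0⟩ := hev.exists
  refine ⟨H0, hn0 ▸ hH n0, p0, ?_⟩
  intro j hj
  have hcl : IsClosed (convexHull ℝ (Set.range (y j))) :=
    (Set.finite_range (y j)).isClosed_convexHull ℝ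
  -- choose q's
  have hq : ∀ n, ∃ q, H n = H0 → q ∈ convexHull ℝ (Set.range (y j)) ∧ dist (p n) q ≤ 1 / ((n : ℝ) + 1) := by
    intro n
    by_cases hn : H n = H0
    · obtain ⟨q, hq1, hq2⟩ := hp n j (hn ▸ hj)
      exact ⟨q, fun _ => ⟨hq1, hq2⟩⟩
    · exact ⟨p n, fun h => absurd h hn⟩
  choose q hq using hq
  have hqlim : Tendsto q (Filter.hyperfilter ℕ : Filter ℕ) (𝓝 p0) := by
    rw [tendsto_iff_dist_tendsto_zero]
    have h2 : Tendsto (fun n : ℕ => 1 / ((n : ℝ) + 1) + dist (p n) p0) (Filter.hyperfilter ℕ : Filter ℕ) (𝓝 0) := by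
      have := heps.add (tendsto_iff_dist_tendsto_zero.mp hlim)
      simpa using this
    refine squeeze_zero' (Filter.Eventually.of_forall fun n => dist_nonneg) ?_ h2
    filter_upwards [hev] with n hn
    have h3 := (hq n hn).2
    have h4 := dist_triangle (q n) (p n) p0
    rw [dist_comm (q n) (p n)] at h4
    linarith
  refine hcl.mem_of_tendsto hqlim ?_
  filter_upwards [hev] with n hn
  exact (hq n hn).1

end Pool.Agent.Helper42.Sel
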