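import Mathlib
import Pool.Agent.Helper42.Sel.Limit

set_option autoImplicit false

open Finset Filter Topology

namespace Pool.Agent.Helper42.Sel

variable {d : ℕ}

/-- index set of the blow-up -/
abbrev Jx (C : Fin (d + 1) → Finset (Fin d → ℝ)) (N : ℕ) := Σ i : Fin (d + 1), (C i) × Fin N

/-- classes of the blow-up -/
noncomputable def BC (C : Fin (d + 1) → Finset (Fin d → ℝ)) (N : ℕ) (x' : Jx C N → (Fin d → ℝ))
    (i : Fin (d + 1)) : Finset (Fin d → ℝ) :=
  Finset.univ.image (fun cN : (C i) × Fin N => x' ⟨i, cN⟩)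

/-- genericity of the blow-up -/
structure Gen (R : ℝ) (C' : Fin (d + 1) → Finset (Fin d → ℝ)) : Prop where
  disj : ∀ i j, i ≠ j → Disjoint (C' i) (C' j)
  box : ∀ x ∈ U C' 0, ∀ i, -R < x i ∧ x i < R
  gen0 : ∀ X ⊆ U C' 0, X.card ≤ d + 1 → AI X
  genT : ∀ M : ℕ, 0 < M → ∀ p ∈ Tset d M, Disjoint (KV R (2 * R / M) p.1 p.2) (U C' 0) ∧
      ∀ X ⊆ KV R (2 * R / M) p.1 p.2 ∪ U C' 0, X.card ≤ d + 1 → AI X

theorem exists_blowup (hd : 0 < d) (C : Fin (d + 1) → Finset (Fin d → ℝ)) (N : ℕ) :
    ∃ R : ℝ, 0 < R ∧ ∀ ε : ℝ, 0 < ε → ε ≤ 1 → ∃ x' : Jx C N → (Fin d → ℝ),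
      (∀ j, dist (x' j) j.2.1.val < ε) ∧ Function.Injective x' ∧ Gen R (BC C N x') := by
  classical
  -- the radius
  obtain ⟨R0, hR0⟩ : ∃ R0 : ℝ, ∀ j : Jx C N, ∀ i, |j.2.1.val i| ≤ R0 := by
    have : ((Finset.univ : Finset (Jx C N × Fin d)).image
      (fun p => |p.1.2.1.val p.2|) : Set ℝ).Finite := Finset.finite_toSet _
    obtain ⟨B, hB⟩ := this.bddAbove
    refine ⟨B, fun j i => hB ?_⟩
    rw [Finset.mem_coe]
    exact Finset.mem_image_of_mem (fun p : Jx C N × Fin d => |p.1.2.1.val p.2|) (Finset.mem_univ (j, i))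
  set R := |R0| + 2 with hR
  have hRpos : 0 < R := by positivity
  refine ⟨R, hRpos, fun ε hε hε1 => ?_⟩
  let V : Option (ℕ × (Fin d → ℕ) × Equiv.Perm (Fin d)) → Finset (Fin d → ℝ) := fun o =>
    match o with
    | none => ∅
    | some t => KV R (2 * R / ((t.1 : ℝ) + 1)) t.2.1 t.2.2
  have hV : ∀ k, AI (V k) := by
    intro k
    match k with
    | none => intro w _ _ x hx; simp [V] at hx
    | some t => exact KV_AI (by positivity) _ _
  obtain ⟨x', h1, h2, h3, h4⟩ := gpe hd V hV (fun j : Jx C N => j.2.1.val) hε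
  have hU : U (BC C N x') 0 = Finset.univ.image x' := by
    ext z
    rw [mem_U]
    simp only [BC, Finset.mem_image, Finset.mem_univ, true_and]
    constructor
    · rintro ⟨i, _, cN, rfl⟩
      exact ⟨⟨i, cN⟩, rfl⟩
    · rintro ⟨⟨i, cN⟩, rfl⟩
      exact ⟨i, Nat.zero_le _, cN, rfl⟩
  refine ⟨x', h1, h2, ⟨?_, ?_, ?_, ?_⟩⟩
  · intro i j hij
    rw [Finset.disjoint_left]
    intro z hz hz'
    simp only [BC, Finset.mem_image, Finset.mem_univ, true_and] at hz hz'
    obtain ⟨a, rfl⟩ := hz
    obtain ⟨b, hb⟩ := hz'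
    have := h2 hb
    rw [Sigma.mk.injEq] at this
    exact hij this.1.symm
  · intro z hz i
    rw [hU] at hz
    simp only [Finset.mem_image, Finset.mem_univ, true_and] at hz
    obtain ⟨j, rfl⟩ := hz
    have e1 := h1 j
    have e2 := dist_le_pi_dist (x' j) j.2.1.val i
    have e3 := hR0 j i
    rw [Real.dist_eq] at e2
    have e4 : |x' j i - j.2.1.val i| ≤ 1 := by linarith
    rw [abs_le] at e3 e4
    have e5 := le_abs_self R0
    rw [hR]
    constructor <;> linarith [e3.1, e3.2, e4.1, e4.2]
  · intro X hX hXc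
    rw [hU] at hX
    exact h4 none X (by simpa [V] using hX) hXc
  · intro M hM p _
    have hcast : ((M - 1 : ℕ) : ℝ) + 1 = M := by
      have : (M - 1) + 1 = M := by omega
      exact_mod_cast this
    have hVk : V (some (M - 1, p.1, p.2)) = KV R (2 * R / M) p.1 p.2 := by
      simp only [V]; rw [hcast]
    rw [hU]
    constructor
    · rw [Finset.disjoint_left]
      intro z hz hz'
      simp only [Finset.mem_image, Finset.mem_univ, true_and] at hz'
      obtain ⟨j, rfl⟩ := hz'
      rw [← hVk] at hz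
      exact h3 (some (M - 1, p.1, p.2)) j hz
    · intro X hX hXc
      rw [← hVk] at hX
      exact h4 (some (M - 1, p.1, p.2)) X hX hXc

theorem BC_card {C : Fin (d + 1) → Finset (Fin d → ℝ)} {N : ℕ} {x' : Jx C N → (Fin d → ℝ)}
    (hx : Function.Injective x') (i : Fin (d + 1)) : (BC C N x' i).card = (C i).card * N := by
  unfold BC
  rw [Finset.card_image_of_injective]
  · simp
  · intro a b hab
    have := hx hab
    simpa using this

/-- density of the tuples whose simplex contains `p` -/
noncomputable def hits (D : Fin (d + 1) → Finset (Fin d → ℝ)) (p : Fin d → ℝ) : ℕ :=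
  open Classical in
  ((Fintype.piFinset D).filter (fun y => p ∈ convexHull ℝ (Set.range y))).card

theorem sum_val_eq_hits (D : Fin (d + 1) → Finset (Fin d → ℝ)) (p : Fin d → ℝ) :
    ∑ y ∈ Fintype.piFinset D, val (F {p} (Yset 0 y)) = hits D p := by
  classical
  unfold hits
  rw [Finset.card_filter, Nat.cast_sum]
  apply Finset.sum_congr rfl
  intro y _
  have h1 : ((Yset 0 y : Finset (Fin d → ℝ)) : Set (Fin d → ℝ)) = Set.range y := by
    unfold Yset
    simp
  unfold F
  rw [h1, Finset.coe_singleton, convexHull_singleton]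
  by_cases h : p ∈ convexHull ℝ (Set.range y)
  · rw [if_pos h, if_pos ⟨p, rfl, h⟩, val_one]; simp
  · rw [if_neg h, if_neg, val_zero]
    · simp
    · rintro ⟨q, hq1, hq2⟩
      rw [Set.mem_singleton_iff] at hq1
      rw [hq1] at hq2
      exact h hq2

/-- The coloured selection theorem (Karasev's constant up to a factor 2). -/
theorem coloured_selection (hd : 0 < d) (C : Fin (d + 1) → Finset (Fin d → ℝ))
    (hC : ∀ i, (C i).Nonempty) :
    ∃ p, 1 / (2 * ((d + 1).factorial : ℝ)) * (Fintype.piFinset C).card ≤ hits C p := by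
  classical
  set c : ℝ := 1 / (2 * ((d + 1).factorial : ℝ)) with hc
  have hfpos : (0 : ℝ) < ((d + 1).factorial : ℝ) := by exact_mod_cast Nat.factorial_pos _
  have hcpos : 0 < c := by positivity
  set N : ℕ := 2 * (d + 1).factorial * d ^ 2 + 1 with hN
  have hNpos : 0 < N := by omega
  have hNR : (0 : ℝ) < N := by exact_mod_cast hNpos
  have hNc : ((d + 1).factorial : ℝ) * (c + d * (d / N)) < 1 := by
    have h1 : ((d + 1).factorial : ℝ) * c = 1 / 2 := by rw [hc]; field_simp
    have h2 : ((d + 1).factorial : ℝ) * (d * (d / N)) < 1 / 2 := by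
      rw [← mul_assoc, ← mul_div_assoc, div_lt_iff₀ hNR]
      rw [hN]
      push_cast
      nlinarith
    rw [mul_add, h1]
    linarith
  obtain ⟨R, hR, hblow⟩ := exists_blowup hd C N
  -- index set
  let I := (∀ i, C i) × (Fin (d + 1) → Fin N)
  let y : I → Fin (d + 1) → (Fin d → ℝ) := fun j i => (j.1 i).val
  have key := limit_lemma y (fun H => c * (Fintype.card I : ℝ) ≤ (H.card : ℝ)) (by
    intro H hH
    rw [← Finset.card_pos]
    have hI : 0 < Fintype.card I := by
      rw [Fintype.card_pos_iff]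
      exact ⟨(fun i => ⟨_, (hC i).choose_spec⟩, fun _ => ⟨0, hNpos⟩)⟩
    have : (0 : ℝ) < (H.card : ℝ) := lt_of_lt_of_le (by positivity) hH
    exact_mod_cast this) (by
    intro ε hε
    obtain ⟨x', hx1, hx2, hgen⟩ := hblow (min ε 1) (by positivity) (min_le_right _ _)
    obtain ⟨p, hp⟩ := select_generic hd hR (BC C N x')
      (fun i => by
        rw [← Finset.card_pos, BC_card hx2]
        exact Nat.mul_pos (hC i).card_pos hNpos)
      hgen.disj hgen.box c N hNR hNc (fun i => by
        rw [BC_card hx2]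
        have h1 : 1 ≤ (C i).card := (hC i).card_pos
        push_cast
        have h2 : (1 : ℝ) ≤ (C i).card := by exact_mod_cast h1
        nlinarith) hgen.gen0 hgen.genT
    rw [sum_val_eq_hits] at hp
    let Ψ : I → Fin (d + 1) → (Fin d → ℝ) := fun j i => x' ⟨i, (j.1 i, j.2 i)⟩
    have hΨinj : Function.Injective Ψ := by
      intro a b hab
      refine Prod.ext (funext fun i => ?_) (funext fun i => ?_)
      · have := hx2 (congrFun hab i)
        simp only [Sigma.mk.injEq, heq_eq_eq, Prod.mk.injEq, true_and] at this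
        exact this.1
      · have := hx2 (congrFun hab i)
        simp only [Sigma.mk.injEq, heq_eq_eq, Prod.mk.injEq, true_and] at this
        exact this.2
    have himg : Fintype.piFinset (BC C N x') = Finset.univ.image Ψ := by
      ext z
      simp only [Fintype.mem_piFinset, Finset.mem_image, Finset.mem_univ, true_and, BC]
      constructor
      · intro h
        choose a ha using h
        exact ⟨(fun i => (a i).1, fun i => (a i).2), funext ha⟩
      · rintro ⟨j, rfl⟩ i
        exact ⟨(j.1 i, j.2 i), rfl⟩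
    refine ⟨Ψ, ?_, Finset.univ.filter (fun j => p ∈ convexHull ℝ (Set.range (Ψ j))), ?_, p, ?_⟩
    · intro j i
      exact (hx1 ⟨i, (j.1 i, j.2 i)⟩).le.trans (min_le_left _ _)
    · unfold hits at hp
      rw [himg, Finset.card_image_of_injective _ hΨinj, Finset.filter_image,
        Finset.card_image_of_injective _ hΨinj, Finset.card_univ] at hp
      exact hp.le
    · intro j hj
      exact (Finset.mem_filter.mp hj).2)
  obtain ⟨H, hH, p, hp⟩ := key
  refine ⟨p, ?_⟩
  -- compare counts
  let Θ : (∀ i, C i) → Fin (d + 1) → (Fin d → ℝ) := fun a i => (a i).val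
  have hΘinj : Function.Injective Θ := fun a b hab => funext fun i => Subtype.ext (congrFun hab i)
  have hpi : Fintype.piFinset C = Finset.univ.image Θ := by
    ext z
    simp only [Fintype.mem_piFinset, Finset.mem_image, Finset.mem_univ, true_and]
    constructor
    · intro h
      exact ⟨fun i => ⟨z i, h i⟩, rfl⟩
    · rintro ⟨a, rfl⟩ i
      exact (a i).2
  have hhits : hits C p = (Finset.univ.filter (fun a => p ∈ convexHull ℝ (Set.range (Θ a)))).card := by
    unfold hits
    rw [hpi, Finset.filter_image, Finset.card_image_of_injective _ hΘinj]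
  have hsub : H ⊆ (Finset.univ.filter (fun a => p ∈ convexHull ℝ (Set.range (Θ a)))) ×ˢ
      (Finset.univ : Finset (Fin (d + 1) → Fin N)) := by
    intro j hj
    rw [Finset.mem_product]
    refine ⟨?_, Finset.mem_univ _⟩
    rw [Finset.mem_filter]
    exact ⟨Finset.mem_univ _, hp j hj⟩
  have hcard := Finset.card_le_card hsub
  rw [Finset.card_product, Finset.card_univ] at hcard
  have hI : (Fintype.card I : ℝ) = (Fintype.piFinset C).card * (Fintype.card (Fin (d + 1) → Fin N) : ℝ) := by
    rw [hpi, Finset.card_image_of_injective _ hΘinj, Finset.card_univ]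
    simp only [I, Fintype.card_prod]
    push_cast
    rfl
  have hNN : (0 : ℝ) < (Fintype.card (Fin (d + 1) → Fin N) : ℝ) := by
    rw [Fintype.card_fun, Fintype.card_fin, Fintype.card_fin]
    push_cast
    positivity
  rw [hI] at hH
  have hfin : c * (Fintype.piFinset C).card * (Fintype.card (Fin (d + 1) → Fin N) : ℝ) ≤
      hits C p * (Fintype.card (Fin (d + 1) → Fin N) : ℝ) := by
    rw [hhits]
    calc c * (Fintype.piFinset C).card * (Fintype.card (Fin (d + 1) → Fin N) : ℝ) =
        c * ((Fintype.piFinset C).card * (Fintype.card (Fin (d + 1) → Fin N) : ℝ)) := by ring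
      _ ≤ (H.card : ℝ) := hH
      _ ≤ _ := by exact_mod_cast hcard
  exact le_of_mul_le_mul_right hfin hNN

end Pool.Agent.Helper42.Sel
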