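import Mathlib
import Pool.Agent.Helper42.Sel.Basic

set_option autoImplicit false

open Finset Filter Topology

namespace Pool.Agent.Helper42.Sel

variable {d : ℕ}

/-- The centerpoint theorem. -/
theorem centerpoint (X : Finset (Fin d → ℝ)) (hX : X.Nonempty) :
    ∃ w : Fin d → ℝ, ∀ u : Module.Dual ℝ (Fin d → ℝ),
      (X.card : ℝ) ≤ (d + 1) * ((X.filter (fun x => u w ≤ u x)).card : ℝ) := by
  classical
  -- family of large subsets
  let s : Finset (Finset (Fin d → ℝ)) := X.powerset.filter (fun A => (d + 1) * (X \ A).card < X.card)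
  have hH := Convex.helly_theorem' (𝕜 := ℝ) (s := s)
    (F := fun A : Finset (Fin d → ℝ) => convexHull ℝ (A : Set (Fin d → ℝ)))
    (fun A _ => convex_convexHull ℝ _) (by
      intro I hI hIc
      rw [Module.finrank_fin_fun] at hIc
      -- find a point of X in all A ∈ I
      have hcard : (I.biUnion (fun A => X \ A)).card < X.card := by
        rcases I.eq_empty_or_nonempty with h | h
        · rw [h]; simpa using hX
        · have h1 : (d + 1) * (I.biUnion (fun A => X \ A)).card < (d + 1) * X.card := by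
            calc (d + 1) * (I.biUnion (fun A => X \ A)).card ≤ (d + 1) * ∑ A ∈ I, (X \ A).card :=
                  Nat.mul_le_mul_left _ Finset.card_biUnion_le
              _ = ∑ A ∈ I, (d + 1) * (X \ A).card := by rw [Finset.mul_sum]
              _ < ∑ A ∈ I, X.card := by
                  apply Finset.sum_lt_sum_of_nonempty h
                  intro A hA
                  exact (Finset.mem_filter.mp (hI hA)).2
              _ = I.card * X.card := by simp
              _ ≤ (d + 1) * X.card := Nat.mul_le_mul_right _ hIc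
          exact lt_of_mul_lt_mul_left h1 (Nat.zero_le _)
      obtain ⟨x, hx, hx'⟩ := Finset.exists_mem_notMem_of_card_lt_card hcard
      refine ⟨x, ?_⟩
      simp only [Set.mem_iInter]
      intro A hA
      apply subset_convexHull
      rw [Finset.mem_coe]
      by_contra hxA
      apply hx'
      rw [Finset.mem_biUnion]
      exact ⟨A, hA, by rw [Finset.mem_sdiff]; exact ⟨hx, hxA⟩⟩)
  obtain ⟨w, hw⟩ := hH
  simp only [Set.mem_iInter] at hw
  refine ⟨w, fun u => ?_⟩
  by_contra hcon
  rw [not_le] at hcon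
  have hA : X.filter (fun x => ¬ (u w ≤ u x)) ∈ s := by
    rw [Finset.mem_filter, Finset.mem_powerset]
    refine ⟨Finset.filter_subset _ _, ?_⟩
    have : X \ X.filter (fun x => ¬ (u w ≤ u x)) = X.filter (fun x => u w ≤ u x) := by
      ext x
      simp only [Finset.mem_sdiff, Finset.mem_filter]
      constructor
      · rintro ⟨h1, h2⟩
        refine ⟨h1, ?_⟩
        by_contra h3
        exact h2 ⟨h1, h3⟩
      · rintro ⟨h1, h2⟩
        exact ⟨h1, fun h3 => h3.2 h2⟩
    rw [this]
    exact_mod_cast hcon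
  have h1 := hw _ hA
  have h2 : convexHull ℝ ((X.filter (fun x => ¬ (u w ≤ u x)) : Finset (Fin d → ℝ)) : Set (Fin d → ℝ)) ⊆
      {x | u x < u w} := by
    apply convexHull_min
    · intro x hx
      rw [Finset.mem_coe, Finset.mem_filter] at hx
      exact not_le.mp hx.2
    · exact convex_halfSpace_lt (f := u) ⟨u.map_add, u.map_smul⟩ _
  have h3 : u w < u w := h2 h1
  exact lt_irrefl _ h3

/-- a nonzero functional nonnegative on `d` given vectors -/
theorem exists_functional (hd : 0 < d) (j : Fin (d + 1)) (v : Fin (d + 1) → (Fin d → ℝ)) :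
    ∃ u : Module.Dual ℝ (Fin d → ℝ), u ≠ 0 ∧ ∀ i, i ≠ j → 0 ≤ u (v i) := by
  classical
  let Φ : Module.Dual ℝ (Fin d → ℝ) →ₗ[ℝ] ({i : Fin (d + 1) // i ≠ j} → ℝ) :=
    LinearMap.pi (fun i => LinearMap.applyₗ (v i.1))
  have hΦ : ∀ u i, Φ u i = u (v i.1) := fun u i => rfl
  have hfr : Module.finrank ℝ (Module.Dual ℝ (Fin d → ℝ)) =
      Module.finrank ℝ ({i : Fin (d + 1) // i ≠ j} → ℝ) := by
    rw [Subspace.dual_finrank_eq, Module.finrank_fin_fun, Module.finrank_fintype_fun_eq_card]
    simp
  by_cases hinj : Function.Injective Φ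
  · have hsurj := (LinearMap.injective_iff_surjective_of_finrank_eq_finrank hfr).mp hinj
    obtain ⟨u, hu⟩ := hsurj (fun _ => 1)
    refine ⟨u, ?_, ?_⟩
    · intro h
      rw [h, map_zero] at hu
      obtain ⟨i, hi⟩ : ∃ i : Fin (d + 1), i ≠ j := by
        have : Nontrivial (Fin (d + 1)) := Fin.nontrivial_iff_two_le.mpr (by omega)
        exact exists_ne j
      have := congrFun hu ⟨i, hi⟩
      simp at this
    · intro i hi
      have := congrFun hu ⟨i, hi⟩
      rw [hΦ] at this
      simp only at this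
      rw [this]; norm_num
  · rw [← LinearMap.ker_eq_bot, LinearMap.ker_eq_bot'] at hinj
    push Not at hinj
    obtain ⟨u, hu1, hu2⟩ := hinj
    refine ⟨u, hu2, ?_⟩
    intro i hi
    have := congrFun hu1 ⟨i, hi⟩
    rw [hΦ] at this
    simp only [Pi.zero_apply] at this
    rw [this]

/-- few points on a hyperplane -/
theorem few_on_hyperplane (W : Finset (Fin d → ℝ)) (hgen : ∀ X ⊆ W, X.card ≤ d + 1 → AI X)
    (u : Module.Dual ℝ (Fin d → ℝ)) (hu : u ≠ 0) (κ : ℝ) : (W.filter (fun x => u x = κ)).card ≤ d := by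
  classical
  by_contra hcon
  rw [not_le] at hcon
  obtain ⟨X, hX, hXc⟩ := Finset.exists_subset_card_eq (show d + 1 ≤ (W.filter (fun x => u x = κ)).card from hcon)
  have hAI := hgen X (hX.trans (Finset.filter_subset _ _)) hXc.le
  -- the vectors (1, x)
  let φ : X → ℝ × (Fin d → ℝ) := fun x => (1, x.1)
  have hli : LinearIndependent ℝ φ := by
    rw [Fintype.linearIndependent_iff]
    intro g hg
    let w : (Fin d → ℝ) → ℝ := fun x => if h : x ∈ X then g ⟨x, h⟩ else 0
    have hw : ∀ x : X, w x.1 = g x := fun x => by simp only [w]; rw [dif_pos x.2]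
    have h1 : ∑ x ∈ X, w x = 0 := by
      rw [← Finset.sum_coe_sort]
      have := congrArg Prod.fst hg
      simp only [φ, Prod.smul_mk, smul_eq_mul, mul_one, Prod.fst_sum, Prod.fst_zero] at this
      rw [← this]
      exact Finset.sum_congr rfl (fun x _ => hw x)
    have h2 : ∑ x ∈ X, w x • x = 0 := by
      rw [← Finset.sum_coe_sort]
      have := congrArg Prod.snd hg
      simp only [φ, Prod.smul_mk, smul_eq_mul, mul_one, Prod.snd_sum, Prod.snd_zero] at this
      rw [← this]
      exact Finset.sum_congr rfl (fun x _ => by rw [hw x])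
    intro x
    rw [← hw x]
    exact hAI w h1 h2 x.1 x.2
  have hspan : Submodule.span ℝ (Set.range φ) = ⊤ := by
    apply hli.span_eq_top_of_card_eq_finrank'
    rw [Fintype.card_coe, hXc]
    simp
    omega
  let Λ : (ℝ × (Fin d → ℝ)) →ₗ[ℝ] ℝ := (u.comp (LinearMap.snd ℝ ℝ (Fin d → ℝ))) - κ • (LinearMap.fst ℝ ℝ (Fin d → ℝ))
  have hΛ : Λ = 0 := by
    apply LinearMap.ext_on hspan
    rintro _ ⟨x, rfl⟩
    have hx := (Finset.mem_filter.mp (hX x.2)).2
    simp [Λ, φ, hx]
  apply hu
  ext i
  have := LinearMap.congr_fun hΛ ((0 : ℝ), Pi.single i 1)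
  simpa [Λ] using this

end Pool.Agent.Helper42.Sel
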