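import Mathlib
import Pool.Agent.Helper42.Sel.Blow

set_option autoImplicit false

open Finset Filter Topology

namespace Pool.Agent.Helper42.Sel

variable {d : ℕ}

theorem hits_le (D : Fin (d + 1) → Finset (Fin d → ℝ)) (p : Fin d → ℝ) :
    (hits D p : ℝ) ≤ (Fintype.piFinset D).card := by
  classical
  unfold hits
  exact_mod_cast Finset.card_filter_le _ _

/-- the boxes of the decomposition -/
noncomputable def box (C Z : Fin (d + 1) → Finset (Fin d → ℝ)) (j i : Fin (d + 1)) : Finset (Fin d → ℝ) :=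
  if i < j then Z i else if i = j then C i \ Z i else C i

theorem box_subset (C Z : Fin (d + 1) → Finset (Fin d → ℝ)) (hZ : ∀ i, Z i ⊆ C i) (j i : Fin (d + 1)) :
    box C Z j i ⊆ C i := by
  unfold box
  split_ifs
  · exact hZ i
  · exact Finset.sdiff_subset
  · exact Finset.Subset.refl _

theorem box_disjoint (C Z : Fin (d + 1) → Finset (Fin d → ℝ)) {j j' : Fin (d + 1)} (h : j ≠ j') :
    Disjoint (Fintype.piFinset (box C Z j)) (Fintype.piFinset (box C Z j')) := by
  wlog hlt : j < j' generalizing j j'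
  · exact (this h.symm (lt_of_le_of_ne (not_lt.mp hlt) h.symm)).symm
  rw [Finset.disjoint_left]
  intro y hy hy'
  rw [Fintype.mem_piFinset] at hy hy'
  have h1 := hy j
  have h2 := hy' j
  unfold box at h1 h2
  rw [if_neg (lt_irrefl _), if_pos rfl] at h1
  rw [if_pos hlt] at h2
  rw [Finset.mem_sdiff] at h1
  exact h1.2 h2

theorem box_disjoint' (C Z : Fin (d + 1) → Finset (Fin d → ℝ)) (j : Fin (d + 1)) :
    Disjoint (Fintype.piFinset (box C Z j)) (Fintype.piFinset Z) := by
  rw [Finset.disjoint_left]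
  intro y hy hy'
  rw [Fintype.mem_piFinset] at hy hy'
  have h1 := hy j
  have h2 := hy' j
  unfold box at h1
  rw [if_neg (lt_irrefl _), if_pos rfl] at h1
  rw [Finset.mem_sdiff] at h1
  exact h1.2 h2

theorem box_cover (C Z : Fin (d + 1) → Finset (Fin d → ℝ)) {y : Fin (d + 1) → (Fin d → ℝ)}
    (hy : y ∈ Fintype.piFinset C) (hyZ : y ∉ Fintype.piFinset Z) :
    ∃ j, y ∈ Fintype.piFinset (box C Z j) := by
  rw [Fintype.mem_piFinset] at hy hyZ
  push Not at hyZ
  have hne : (Finset.univ.filter (fun i => y i ∉ Z i)).Nonempty := by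
    obtain ⟨i, hi⟩ := hyZ
    exact ⟨i, by simp [hi]⟩
  obtain ⟨j, hj, hmin⟩ := Finset.exists_min_image _ (fun i : Fin (d + 1) => i) hne
  refine ⟨j, ?_⟩
  rw [Fintype.mem_piFinset]
  intro i
  unfold box
  rw [Finset.mem_filter] at hj
  split_ifs with h1 h2
  · by_contra hcon
    have := hmin i (by simp [hcon])
    exact absurd h1 (not_lt.mpr this)
  · rw [Finset.mem_sdiff]
    rw [h2]
    exact ⟨hy j, hj.2⟩
  · exact hy i

/-- density increment -/
theorem increment (C Z : Fin (d + 1) → Finset (Fin d → ℝ)) (hC : ∀ i, (C i).Nonempty)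
    (hZ : ∀ i, Z i ⊆ C i) (p : Fin d → ℝ) {β β0 ε : ℝ} (hβ0 : 0 < β0) (hβ : β0 ≤ β) (hε : 0 < ε)
    (hdens : β * (Fintype.piFinset C).card ≤ hits C p)
    (hZc : ∀ i, ε * (C i).card ≤ (Z i).card) (hZ0 : hits Z p = 0) :
    ∃ B : Fin (d + 1) → Finset (Fin d → ℝ), (∀ i, B i ⊆ C i) ∧ (∀ i, (B i).Nonempty) ∧
      (∀ i, β0 * ε ^ (d + 1) / (2 * (d + 1)) * (C i).card ≤ (B i).card) ∧
      β * (1 + ε ^ (d + 1) / 2) * (Fintype.piFinset B).card ≤ hits B p := by
  classical
  set θ := β0 * ε ^ (d + 1) / (2 * (d + 1)) with hθ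
  have hθpos : 0 < θ := by positivity
  set S : ℝ := ((Fintype.piFinset C).card : ℝ) with hS
  have hSpos : 0 < S := by
    rw [hS]; exact_mod_cast (Fintype.piFinset_nonempty.mpr hC).card_pos
  have hSprod : S = ∏ i, ((C i).card : ℝ) := by
    rw [hS, Fintype.card_piFinset]; push_cast; rfl
  have hZS : ε ^ (d + 1) * S ≤ (Fintype.piFinset Z).card := by
    rw [Fintype.card_piFinset, hSprod]
    push_cast
    have : ε ^ (d + 1) = ∏ _i : Fin (d + 1), ε := by simp
    rw [this, ← Finset.prod_mul_distrib]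
    exact Finset.prod_le_prod (fun i _ => by positivity) (fun i _ => hZc i)
  -- sum of the box sizes
  have hsum1 : ∑ j, ((Fintype.piFinset (box C Z j)).card : ℝ) ≤ (1 - ε ^ (d + 1)) * S := by
    have h1 : (Finset.univ.biUnion (fun j => Fintype.piFinset (box C Z j))).card =
        ∑ j, (Fintype.piFinset (box C Z j)).card :=
      Finset.card_biUnion (fun j _ j' _ hne => box_disjoint C Z hne)
    have h2 : Disjoint (Finset.univ.biUnion (fun j => Fintype.piFinset (box C Z j)))
        (Fintype.piFinset Z) := by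
      rw [Finset.disjoint_biUnion_left]
      intro j _
      exact box_disjoint' C Z j
    have h3 : (Finset.univ.biUnion (fun j => Fintype.piFinset (box C Z j))) ∪ (Fintype.piFinset Z) ⊆
        Fintype.piFinset C := by
      apply Finset.union_subset
      · rw [Finset.biUnion_subset]
        intro j _
        exact Fintype.piFinset_subset _ _ (box_subset C Z hZ j)
      · exact Fintype.piFinset_subset _ _ hZ
    have h4 := Finset.card_le_card h3
    rw [Finset.card_union_of_disjoint h2, h1] at h4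
    have h5 : ∑ j, ((Fintype.piFinset (box C Z j)).card : ℝ) + (Fintype.piFinset Z).card ≤ S := by
      rw [hS]; exact_mod_cast h4
    linarith
  -- sum of the hits
  have hsum2 : β * S ≤ ∑ j, (hits (box C Z j) p : ℝ) := by
    refine hdens.trans ?_
    have h1 : hits C p ≤ hits Z p + ∑ j, hits (box C Z j) p := by
      unfold hits
      have hsub : (Fintype.piFinset C).filter (fun y => p ∈ convexHull ℝ (Set.range y)) ⊆
          ((Fintype.piFinset Z).filter (fun y => p ∈ convexHull ℝ (Set.range y))) ∪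
          (Finset.univ.biUnion (fun j => (Fintype.piFinset (box C Z j)).filter
            (fun y => p ∈ convexHull ℝ (Set.range y)))) := by
        intro y hy
        rw [Finset.mem_filter] at hy
        rw [Finset.mem_union]
        by_cases hyZ : y ∈ Fintype.piFinset Z
        · left; rw [Finset.mem_filter]; exact ⟨hyZ, hy.2⟩
        · right
          obtain ⟨j, hj⟩ := box_cover C Z hy.1 hyZ
          rw [Finset.mem_biUnion]
          exact ⟨j, Finset.mem_univ _, by rw [Finset.mem_filter]; exact ⟨hj, hy.2⟩⟩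
      refine (Finset.card_le_card hsub).trans ((Finset.card_union_le _ _).trans ?_)
      exact Nat.add_le_add_left Finset.card_biUnion_le _
    rw [hZ0, zero_add] at h1
    exact_mod_cast h1
  -- pick a box
  by_contra hcon
  have hβpos : 0 < β := lt_of_lt_of_le hβ0 hβ
  have hall : ∀ j, (hits (box C Z j) p : ℝ) ≤ θ * S + β * (1 + ε ^ (d + 1) / 2) *
      (Fintype.piFinset (box C Z j)).card := by
    intro j
    by_contra hj
    rw [not_le] at hj
    have hle := hits_le (box C Z j) p
    have hbnn : (0 : ℝ) ≤ (Fintype.piFinset (box C Z j)).card := Nat.cast_nonneg _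
    have h1 : θ * S ≤ (Fintype.piFinset (box C Z j)).card := by
      have : 0 ≤ β * (1 + ε ^ (d + 1) / 2) * ((Fintype.piFinset (box C Z j)).card : ℝ) := by positivity
      linarith
    have h2 : β * (1 + ε ^ (d + 1) / 2) * (Fintype.piFinset (box C Z j)).card ≤ hits (box C Z j) p := by
      have : 0 ≤ θ * S := by positivity
      linarith
    have hpos : 0 < (Fintype.piFinset (box C Z j)).card := by
      have : (0 : ℝ) < (Fintype.piFinset (box C Z j)).card := lt_of_lt_of_le (by positivity) h1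
      exact_mod_cast this
    have hne : (Fintype.piFinset (box C Z j)).Nonempty := Finset.card_pos.mp hpos
    apply hcon
    refine ⟨box C Z j, box_subset C Z hZ j, Fintype.piFinset_nonempty.mp hne, ?_, h2⟩
    intro i
    have h3 : ((Fintype.piFinset (box C Z j)).card : ℝ) = ∏ i, ((box C Z j i).card : ℝ) := by
      rw [Fintype.card_piFinset]; push_cast; rfl
    rw [h3, hSprod, ← Finset.mul_prod_erase Finset.univ (fun i => ((box C Z j i).card : ℝ)) (Finset.mem_univ i),
      ← Finset.mul_prod_erase Finset.univ (fun i => ((C i).card : ℝ)) (Finset.mem_univ i)] at h1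
    have h4 : ∏ i' ∈ Finset.univ.erase i, ((box C Z j i').card : ℝ) ≤ ∏ i' ∈ Finset.univ.erase i, ((C i').card : ℝ) :=
      Finset.prod_le_prod (fun _ _ => by positivity)
        (fun i' _ => by exact_mod_cast Finset.card_le_card (box_subset C Z hZ j i'))
    have h5 : (0 : ℝ) < ∏ i' ∈ Finset.univ.erase i, ((C i').card : ℝ) :=
      Finset.prod_pos (fun i' _ => by exact_mod_cast (hC i').card_pos)
    have h6 : θ * ((C i).card : ℝ) * ∏ i' ∈ Finset.univ.erase i, ((C i').card : ℝ) ≤
        ((box C Z j i).card : ℝ) * ∏ i' ∈ Finset.univ.erase i, ((C i').card : ℝ) := by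
      calc θ * ((C i).card : ℝ) * ∏ i' ∈ Finset.univ.erase i, ((C i').card : ℝ) =
          θ * (((C i).card : ℝ) * ∏ i' ∈ Finset.univ.erase i, ((C i').card : ℝ)) := by ring
        _ ≤ ((box C Z j i).card : ℝ) * ∏ i' ∈ Finset.univ.erase i, ((box C Z j i').card : ℝ) := h1
        _ ≤ _ := mul_le_mul_of_nonneg_left h4 (Nat.cast_nonneg _)
    exact le_of_mul_le_mul_right h6 h5
  have htot : ∑ j, (hits (box C Z j) p : ℝ) ≤ (d + 1) * (θ * S) + β * (1 + ε ^ (d + 1) / 2) *
      ∑ j, ((Fintype.piFinset (box C Z j)).card : ℝ) := by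
    refine (Finset.sum_le_sum (fun j _ => hall j)).trans ?_
    rw [Finset.sum_add_distrib]
    apply add_le_add
    · rw [Finset.sum_const, Finset.card_univ, Fintype.card_fin, nsmul_eq_mul]
      push_cast
      exact le_refl _
    · rw [← Finset.mul_sum]
  have h7 : ((d : ℝ) + 1) * (θ * S) = β0 * ε ^ (d + 1) / 2 * S := by
    rw [hθ]; field_simp
  have hε' : 0 < ε ^ (d + 1) := by positivity
  set e := ε ^ (d + 1) with he
  have h8 : β * (1 + e / 2) * ∑ j, ((Fintype.piFinset (box C Z j)).card : ℝ) ≤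
      β * (1 + e / 2) * ((1 - e) * S) := mul_le_mul_of_nonneg_left hsum1 (by positivity)
  have h9 : β0 * e / 2 * S ≤ β * e / 2 * S := by
    apply mul_le_mul_of_nonneg_right _ hSpos.le
    nlinarith
  have h10 : β * S ≤ β * e / 2 * S + β * (1 + e / 2) * ((1 - e) * S) := by linarith
  have h11 : β * e / 2 * S + β * (1 + e / 2) * ((1 - e) * S) = β * S - β * S * (e * e) / 2 := by ring
  have h12 : 0 < β * S * (e * e) / 2 := by positivity
  linarith

/-- Weak regularity. -/
theorem regularity (β0 ε : ℝ) (hβ0 : 0 < β0) (hε : 0 < ε) : ∀ m : ℕ,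
    ∀ (C : Fin (d + 1) → Finset (Fin d → ℝ)) (_ : ∀ i, (C i).Nonempty) (p : Fin d → ℝ) (β : ℝ),
      β0 ≤ β → β * (Fintype.piFinset C).card ≤ hits C p → 1 < β * (1 + ε ^ (d + 1) / 2) ^ m →
      ∃ Y : Fin (d + 1) → Finset (Fin d → ℝ), (∀ i, Y i ⊆ C i) ∧ (∀ i, (Y i).Nonempty) ∧
        (∀ i, (min 1 (β0 * ε ^ (d + 1) / (2 * (d + 1)))) ^ m * (C i).card ≤ (Y i).card) ∧
        ∀ Z : Fin (d + 1) → Finset (Fin d → ℝ), (∀ i, Z i ⊆ Y i) → (∀ i, ε * (Y i).card ≤ (Z i).card) →
          0 < hits Z p := by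
  intro m
  induction m with
  | zero =>
    intro C hC p β hβ hdens h1
    exfalso
    rw [pow_zero, mul_one] at h1
    have h2 := hits_le C p
    have h3 : (0 : ℝ) < (Fintype.piFinset C).card := by
      exact_mod_cast (Fintype.piFinset_nonempty.mpr hC).card_pos
    nlinarith
  | succ m ih =>
    intro C hC p β hβ hdens h1
    set θ := min 1 (β0 * ε ^ (d + 1) / (2 * (d + 1))) with hθ
    have hθ1 : θ ≤ 1 := min_le_left _ _
    have hθ0 : 0 < θ := lt_min one_pos (by positivity)
    by_cases hreg : ∀ Z : Fin (d + 1) → Finset (Fin d → ℝ), (∀ i, Z i ⊆ C i) →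
        (∀ i, ε * (C i).card ≤ (Z i).card) → 0 < hits Z p
    · refine ⟨C, fun i => Finset.Subset.refl _, hC, fun i => ?_, hreg⟩
      have h2 : θ ^ (m + 1) ≤ 1 := pow_le_one₀ hθ0.le hθ1
      have h3 : (0 : ℝ) ≤ (C i).card := Nat.cast_nonneg _
      nlinarith
    · push Not at hreg
      obtain ⟨Z, hZ1, hZ2, hZ3⟩ := hreg
      obtain ⟨B, hB1, hB2, hB3, hB4⟩ := increment C Z hC hZ1 p hβ0 hβ hε hdens hZ2 (by omega)
      have hβpos : 0 < β := lt_of_lt_of_le hβ0 hβ
      obtain ⟨Y, hY1, hY2, hY3, hY4⟩ := ih B hB2 p (β * (1 + ε ^ (d + 1) / 2)) (by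
        have : 0 < ε ^ (d + 1) := by positivity
        nlinarith) hB4 (by
        rw [mul_assoc, ← pow_succ']; exact h1)
      refine ⟨Y, fun i => (hY1 i).trans (hB1 i), hY2, fun i => ?_, hY4⟩
      calc θ ^ (m + 1) * ((C i).card : ℝ) = θ ^ m * (θ * (C i).card) := by ring
        _ ≤ θ ^ m * (B i).card := by
          apply mul_le_mul_of_nonneg_left _ (by positivity)
          refine le_trans ?_ (hB3 i)
          exact mul_le_mul_of_nonneg_right (min_le_right _ _) (Nat.cast_nonneg _)
        _ ≤ (Y i).card := hY3 i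

end Pool.Agent.Helper42.Sel
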