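import Mathlib
import Pool.Agent.Helper42.Sel.Reg
import Pool.Agent.Helper42.Sel.Center

set_option autoImplicit false

open Finset Filter Topology

namespace Pool.Agent.Helper42.Sel

variable {d : ℕ}

theorem mem_hull_range {m : ℕ} (x : Fin m → (Fin d → ℝ)) (p : Fin d → ℝ) :
    p ∈ convexHull ℝ (Set.range x) ↔
      ∃ a : Fin m → ℝ, (∀ i, 0 ≤ a i) ∧ ∑ i, a i = 1 ∧ ∑ i, a i • x i = p := by
  classical
  constructor
  · intro hp
    rw [convexHull_range_eq_exists_affineCombination] at hp
    obtain ⟨s, w, hw0, hw1, hw2⟩ := hp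
    rw [Finset.affineCombination_eq_linear_combination _ _ _ hw1] at hw2
    refine ⟨fun i => if i ∈ s then w i else 0, ?_, ?_, ?_⟩
    · intro i
      simp only
      split_ifs with h
      · exact hw0 i h
      · exact le_refl _
    · rw [Finset.sum_ite_mem, Finset.univ_inter]; exact hw1
    · have : ∑ i, (if i ∈ s then w i else 0) • x i = ∑ i, (if i ∈ s then w i • x i else 0) := by
        apply Finset.sum_congr rfl
        intro y _
        split_ifs <;> simp
      rw [this, Finset.sum_ite_mem, Finset.univ_inter]; exact hw2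
  · rintro ⟨a, ha0, ha1, rfl⟩
    exact (convex_convexHull ℝ _).sum_mem (fun i _ => ha0 i) ha1
      (fun i _ => subset_convexHull ℝ _ ⟨i, rfl⟩)

/-- centred version -/
theorem swap_one_aux (hd : 0 < d) (u : Fin (d + 1) → Module.Dual ℝ (Fin d → ℝ))
    (x : Fin (d + 1) → (Fin d → ℝ)) (k : Fin (d + 1)) (y : Fin d → ℝ)
    (hx : ∀ j i, i ≠ j → 0 < u j (x i)) (hy : ∀ j, k ≠ j → 0 < u j y)
    (hmem : ∃ a : Fin (d + 1) → ℝ, (∀ i, 0 ≤ a i) ∧ ∑ i, a i = 1 ∧ ∑ i, a i • x i = 0) :
    ∃ a : Fin (d + 1) → ℝ, (∀ i, 0 ≤ a i) ∧ ∑ i, a i = 1 ∧ ∑ i, a i • (Function.update x k y) i = 0 := by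
  classical
  obtain ⟨a, ha0, ha1, ha2⟩ := hmem
  have hnt : Nontrivial (Fin (d + 1)) := Fin.nontrivial_iff_two_le.mpr (by omega)
  -- no nonneg relation with a zero coefficient
  have hrel : ∀ b : Fin (d + 1) → ℝ, (∀ i, 0 ≤ b i) → ∑ i, b i • x i = 0 → ∀ l, b l = 0 → ∀ i, b i = 0 := by
    intro b hb0 hb1 l hl i
    by_contra hbi
    have hil : i ≠ l := fun h => hbi (h ▸ hl)
    have h1 := congrArg (u l) hb1
    rw [map_sum, map_zero] at h1
    simp only [map_smul, smul_eq_mul] at h1
    have h2 : ∀ i' ∈ (Finset.univ : Finset (Fin (d + 1))), 0 ≤ b i' * u l (x i') := by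
      intro i' _
      by_cases h : i' = l
      · rw [h, hl, zero_mul]
      · exact mul_nonneg (hb0 i') (hx l i' h).le
    have h3 := (Finset.sum_eq_zero_iff_of_nonneg h2).mp h1 i (Finset.mem_univ i)
    rcases mul_eq_zero.mp h3 with h | h
    · exact hbi h
    · exact absurd h (hx l i hil).ne'
  have hapos : ∀ i, 0 < a i := by
    intro i
    rcases (ha0 i).lt_or_eq with h | h
    · exact h
    · exfalso
      have := hrel a ha0 ha2 i h.symm
      rw [Finset.sum_eq_zero (fun i _ => this i)] at ha1
      exact one_ne_zero ha1.symm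
  -- independence of the x i, i ≠ k
  have hind : ∀ b : Fin (d + 1) → ℝ, b k = 0 → ∑ i, b i • x i = 0 → ∀ i, b i = 0 := by
    have half : ∀ b : Fin (d + 1) → ℝ, b k = 0 → ∑ i, b i • x i = 0 → ∀ i, b i ≤ 0 := by
      intro b hbk hb i0
      by_contra hcon
      rw [not_le] at hcon
      obtain ⟨l, hl, hmin⟩ := Finset.exists_min_image (Finset.univ.filter (fun i => 0 < b i))
        (fun i => a i / b i) ⟨i0, by simp [hcon]⟩
      rw [Finset.mem_filter] at hl
      have hbl := hl.2
      set t := a l / b l with ht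
      have ht0 : 0 ≤ t := div_nonneg (ha0 l) hbl.le
      have h1 : ∀ i, 0 ≤ a i - t * b i := by
        intro i
        by_cases hbi : 0 < b i
        · have h2 := hmin i (by simp [hbi])
          have h3 : t * b i ≤ a i := by
            rw [← le_div_iff₀ hbi]; exact h2
          linarith
        · rw [not_lt] at hbi
          have := ha0 i
          nlinarith
      have h2 : ∑ i, (a i - t * b i) • x i = 0 := by
        simp only [sub_smul, mul_smul, Finset.sum_sub_distrib, ← Finset.smul_sum, ha2, hb]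
        simp
      have h3 : a l - t * b l = 0 := by
        rw [ht, div_mul_cancel₀ _ hbl.ne']; ring
      have h4 := hrel _ h1 h2 l h3 k
      rw [hbk] at h4
      have := hapos k
      linarith
    intro b hbk hb i
    have h1 := half b hbk hb i
    have h2 := half (fun i => - b i) (by rw [hbk]; simp) (by
      simp only [neg_smul, Finset.sum_neg_distrib, hb]; simp) i
    linarith
  -- a nontrivial relation for the updated family
  have hnot : ¬ LinearIndependent ℝ (Function.update x k y) := by
    intro hl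
    have := hl.fintype_card_le_finrank
    simp at this
  rw [Fintype.not_linearIndependent_iff] at hnot
  obtain ⟨g, hg, i0, hi0⟩ := hnot
  rw [Fintype.sum_eq_add_sum_compl k] at hg
  rw [Function.update_self] at hg
  have hcompl : ∀ g : Fin (d + 1) → ℝ, ∑ i ∈ {k}ᶜ, g i • Function.update x k y i = ∑ i ∈ {k}ᶜ, g i • x i := by
    intro g
    apply Finset.sum_congr rfl
    intro i hi
    rw [Finset.mem_compl, Finset.mem_singleton] at hi
    rw [Function.update_of_ne hi]
  rw [hcompl] at hg
  have hgk : g k ≠ 0 := by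
    intro h
    rw [h, zero_smul, zero_add] at hg
    have h1 : ∑ i, (if i = k then 0 else g i) • x i = 0 := by
      rw [Fintype.sum_eq_add_sum_compl k, if_pos rfl, zero_smul, zero_add, ← hg]
      apply Finset.sum_congr rfl
      intro i hi
      rw [Finset.mem_compl, Finset.mem_singleton] at hi
      rw [if_neg hi]
    have h2 := hind (fun i => if i = k then 0 else g i) (by simp) h1 i0
    by_cases hik : i0 = k
    · rw [hik] at hi0; exact hi0 h
    · rw [if_neg hik] at h2; exact hi0 h2
  -- normalise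
  set c : Fin (d + 1) → ℝ := fun i => g i / g k with hc
  have hck : c k = 1 := div_self hgk
  have hrel2 : y + ∑ i ∈ {k}ᶜ, c i • x i = 0 := by
    have h1 := congrArg (fun z => (g k)⁻¹ • z) hg
    simp only [smul_add, smul_smul, smul_zero, Finset.smul_sum] at h1
    rw [inv_mul_cancel₀ hgk, one_smul] at h1
    rw [← h1]
    congr 1
    apply Finset.sum_congr rfl
    intro i _
    rw [hc]
    simp only
    rw [div_eq_inv_mul]
  -- nonnegativity
  have hne : ({k}ᶜ : Finset (Fin (d + 1))).Nonempty := by
    obtain ⟨i, hi⟩ := exists_ne k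
    exact ⟨i, by rw [Finset.mem_compl, Finset.mem_singleton]; exact hi⟩
  obtain ⟨l, hl, hmin⟩ := Finset.exists_min_image ({k}ᶜ : Finset (Fin (d + 1))) (fun i => c i / a i) hne
  have hlk : l ≠ k := by rw [Finset.mem_compl, Finset.mem_singleton] at hl; exact hl
  set m := c l / a l with hm
  have hm0 : 0 ≤ m := by
    by_contra hcon
    rw [not_le] at hcon
    have e1 := congrArg (u l) hrel2
    rw [map_add, map_sum, map_zero] at e1
    simp only [map_smul, smul_eq_mul] at e1
    have e2 := hy l hlk.symm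
    have e3 := congrArg (u l) ha2
    rw [map_sum, map_zero] at e3
    simp only [map_smul, smul_eq_mul] at e3
    rw [Fintype.sum_eq_add_sum_compl k] at e3
    have e4 := mul_pos (hapos k) (hx l k hlk.symm)
    have e5 : ∑ i ∈ {k}ᶜ, c i * u l (x i) = ∑ i ∈ {k}ᶜ, (c i - m * a i) * u l (x i) +
        m * ∑ i ∈ {k}ᶜ, a i * u l (x i) := by
      rw [Finset.mul_sum, ← Finset.sum_add_distrib]
      apply Finset.sum_congr rfl
      intro i _
      ring
    have e6 : 0 ≤ ∑ i ∈ {k}ᶜ, (c i - m * a i) * u l (x i) := by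
      apply Finset.sum_nonneg
      intro i hi
      by_cases hil : i = l
      · rw [hil, hm, div_mul_cancel₀ _ (hapos l).ne']; simp
      · apply mul_nonneg _ (hx l i hil).le
        have := hmin i hi
        rw [le_div_iff₀ (hapos i)] at this
        linarith
    have e7 : 0 < m * ∑ i ∈ {k}ᶜ, a i * u l (x i) := by
      apply mul_pos_of_neg_of_neg hcon
      linarith
    linarith
  have hc0 : ∀ i, 0 ≤ c i := by
    intro i
    by_cases hik : i = k
    · rw [hik, hck]; norm_num
    · have := hmin i (by rw [Finset.mem_compl, Finset.mem_singleton]; exact hik)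
      rw [le_div_iff₀ (hapos i)] at this
      have h2 := mul_nonneg hm0 (hapos i).le
      linarith
  set s := ∑ i, c i with hs
  have hs1 : 1 ≤ s := by
    rw [hs, ← hck]
    exact Finset.single_le_sum (f := c) (fun i _ => hc0 i) (Finset.mem_univ k)
  have hspos : 0 < s := by linarith
  refine ⟨fun i => c i / s, fun i => div_nonneg (hc0 i) hspos.le, ?_, ?_⟩
  · rw [← Finset.sum_div, ← hs, div_self hspos.ne']
  · have h1 : ∑ i, (c i / s) • Function.update x k y i = s⁻¹ • ∑ i, c i • Function.update x k y i := by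
      rw [Finset.smul_sum]
      apply Finset.sum_congr rfl
      intro i _
      rw [smul_smul, div_eq_inv_mul]
    rw [h1, Fintype.sum_eq_add_sum_compl k, Function.update_self, hcompl, hck, one_smul, hrel2, smul_zero]

theorem swap_one (hd : 0 < d) (u : Fin (d + 1) → Module.Dual ℝ (Fin d → ℝ)) (p : Fin d → ℝ)
    (x : Fin (d + 1) → (Fin d → ℝ)) (k : Fin (d + 1)) (y : Fin d → ℝ)
    (hx : ∀ j i, i ≠ j → 0 < u j (x i - p)) (hy : ∀ j, k ≠ j → 0 < u j (y - p))
    (hmem : p ∈ convexHull ℝ (Set.range x)) :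
    p ∈ convexHull ℝ (Set.range (Function.update x k y)) := by
  rw [mem_hull_range] at hmem ⊢
  obtain ⟨a, ha0, ha1, ha2⟩ := hmem
  obtain ⟨b, hb0, hb1, hb2⟩ := swap_one_aux hd u (fun i => x i - p) k (y - p) hx hy
    ⟨a, ha0, ha1, by
      simp only [smul_sub, Finset.sum_sub_distrib, ← Finset.sum_smul, ha1, ha2, one_smul, sub_self]⟩
  refine ⟨b, hb0, hb1, ?_⟩
  have h1 : ∀ i, Function.update (fun i => x i - p) k (y - p) i = Function.update x k y i - p := by
    intro i
    by_cases hik : i = k
    · rw [hik, Function.update_self, Function.update_self]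
    · rw [Function.update_of_ne hik, Function.update_of_ne hik]
  simp only [h1, smul_sub, Finset.sum_sub_distrib, ← Finset.sum_smul, hb1, one_smul] at hb2
  exact sub_eq_zero.mp hb2

/-- if one transversal contains `p` then all do -/
theorem all_contain (hd : 0 < d) (u : Fin (d + 1) → Module.Dual ℝ (Fin d → ℝ)) (p : Fin d → ℝ)
    (D : Fin (d + 1) → Finset (Fin d → ℝ)) (hD : ∀ j i, i ≠ j → ∀ x ∈ D i, 0 < u j (x - p))
    (x : Fin (d + 1) → (Fin d → ℝ)) (hx : ∀ i, x i ∈ D i) (hmem : p ∈ convexHull ℝ (Set.range x))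
    (y : Fin (d + 1) → (Fin d → ℝ)) (hy : ∀ i, y i ∈ D i) : p ∈ convexHull ℝ (Set.range y) := by
  classical
  have key : ∀ s : Finset (Fin (d + 1)), p ∈ convexHull ℝ (Set.range (fun i => if i ∈ s then y i else x i)) := by
    intro s
    induction s using Finset.induction_on with
    | empty => simpa using hmem
    | insert k s hk ih =>
      have h1 : (fun i => if i ∈ insert k s then y i else x i) =
          Function.update (fun i => if i ∈ s then y i else x i) k (y k) := by
        funext i
        by_cases hik : i = k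
        · rw [hik, Function.update_self, if_pos (Finset.mem_insert_self _ _)]
        · rw [Function.update_of_ne hik]
          simp [hik]
      rw [h1]
      apply swap_one hd u p _ k (y k) _ (fun j hj => hD j k hj _ (hy k)) ih
      intro j i hij
      apply hD j i hij
      split_ifs
      · exact hy i
      · exact hx i
  have := key Finset.univ
  simpa using this

/-- one cut -/
theorem cut (hd : 0 < d) (W : Finset (Fin d → ℝ)) (hgen : ∀ X ⊆ W, X.card ≤ d + 1 → AI X)
    (p : Fin d → ℝ) (D : Fin (d + 1) → Finset (Fin d → ℝ)) (hDW : ∀ i, D i ⊆ W)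
    (hDc : ∀ i, 2 * (d : ℝ) * (d + 1) ≤ (D i).card) (j : Fin (d + 1)) :
    ∃ (u : Module.Dual ℝ (Fin d → ℝ)) (D' : Fin (d + 1) → Finset (Fin d → ℝ)), (∀ i, D' i ⊆ D i) ∧
      (∀ i, 1 / (2 * ((d : ℝ) + 1)) * (D i).card ≤ (D' i).card) ∧
      ∀ i, i ≠ j → ∀ x ∈ D' i, 0 < u (x - p) := by
  classical
  have hdR : (0 : ℝ) < d := by exact_mod_cast hd
  have hne : ∀ i, (D i).Nonempty := by
    intro i
    rw [← Finset.card_pos]
    have : (0 : ℝ) < (D i).card := lt_of_lt_of_le (by positivity) (hDc i)
    exact_mod_cast this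
  choose w hw using fun i => centerpoint (D i) (hne i)
  obtain ⟨u, hu0, hu⟩ := exists_functional hd j (fun i => w i - p)
  refine ⟨u, fun i => if i = j then D i else (D i).filter (fun x => 0 < u (x - p)), ?_, ?_, ?_⟩
  · intro i
    simp only
    split_ifs
    · exact Finset.Subset.refl _
    · exact Finset.filter_subset _ _
  · intro i
    simp only
    split_ifs with hij
    · have h1 : (1 : ℝ) / (2 * ((d : ℝ) + 1)) ≤ 1 := by
        rw [div_le_one (by positivity)]; linarith
      have h2 : (0 : ℝ) ≤ (D i).card := Nat.cast_nonneg _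
      nlinarith
    · have h1 := hw i u
      have h2 := hu i hij
      rw [map_sub] at h2
      have hsub : (D i).filter (fun x => u (w i) ≤ u x) ⊆
          (D i).filter (fun x => 0 < u (x - p)) ∪ (W.filter (fun x => u x = u p)) := by
        intro x hx
        rw [Finset.mem_filter] at hx
        rw [Finset.mem_union, Finset.mem_filter, Finset.mem_filter, map_sub]
        rcases lt_or_ge (u p) (u x) with h | h
        · left; exact ⟨hx.1, by linarith⟩
        · right; exact ⟨hDW i hx.1, le_antisymm h (by linarith [hx.2])⟩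
      have h3 := (Finset.card_le_card hsub).trans (Finset.card_union_le _ _)
      have h4 := few_on_hyperplane W hgen u hu0 (u p)
      have h5 : (((D i).filter (fun x => u (w i) ≤ u x)).card : ℝ) ≤
          ((D i).filter (fun x => 0 < u (x - p))).card + d := by
        exact_mod_cast h3.trans (Nat.add_le_add_left h4 _)
      have h6 := hDc i
      set A : ℝ := (((D i).filter (fun x => u (w i) ≤ u x)).card : ℝ)
      set B : ℝ := (((D i).filter (fun x => 0 < u (x - p))).card : ℝ)
      set Z : ℝ := ((D i).card : ℝ)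
      rw [one_div, inv_mul_le_iff₀ (by positivity)]
      nlinarith
  · intro i hij x hx
    simp only [if_neg hij] at hx
    exact (Finset.mem_filter.mp hx).2

/-- all cuts -/
theorem cuts (hd : 0 < d) (W : Finset (Fin d → ℝ)) (hgen : ∀ X ⊆ W, X.card ≤ d + 1 → AI X)
    (p : Fin d → ℝ) (Y : Fin (d + 1) → Finset (Fin d → ℝ)) (hYW : ∀ i, Y i ⊆ W)
    (hYc : ∀ i, 2 * (d : ℝ) * (d + 1) ≤ (1 / (2 * ((d : ℝ) + 1))) ^ (d + 1) * (Y i).card) :
    ∃ (u : Fin (d + 1) → Module.Dual ℝ (Fin d → ℝ)) (D : Fin (d + 1) → Finset (Fin d → ℝ)),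
      (∀ i, D i ⊆ Y i) ∧ (∀ i, (1 / (2 * ((d : ℝ) + 1))) ^ (d + 1) * (Y i).card ≤ (D i).card) ∧
      ∀ j i, i ≠ j → ∀ x ∈ D i, 0 < u j (x - p) := by
  classical
  set ρ : ℝ := 1 / (2 * ((d : ℝ) + 1)) with hρ
  have hρ0 : 0 < ρ := by positivity
  have hρ1 : ρ ≤ 1 := by
    rw [hρ, div_le_one (by positivity)]
    have : (0 : ℝ) ≤ d := Nat.cast_nonneg d
    linarith
  have key : ∀ s : Finset (Fin (d + 1)), ∃ (u : Fin (d + 1) → Module.Dual ℝ (Fin d → ℝ))
      (D : Fin (d + 1) → Finset (Fin d → ℝ)), (∀ i, D i ⊆ Y i) ∧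
      (∀ i, ρ ^ s.card * (Y i).card ≤ (D i).card) ∧
      ∀ j ∈ s, ∀ i, i ≠ j → ∀ x ∈ D i, 0 < u j (x - p) := by
    intro s
    induction s using Finset.induction_on with
    | empty => exact ⟨fun _ => 0, Y, fun i => Finset.Subset.refl _, fun i => by simp, by simp⟩
    | insert k s hk ih =>
      obtain ⟨u, D, hD1, hD2, hD3⟩ := ih
      have hsc : s.card ≤ d + 1 := by
        have := Finset.card_le_univ s
        simpa using this
      obtain ⟨v, D', hD'1, hD'2, hD'3⟩ := cut hd W hgen p D (fun i => (hD1 i).trans (hYW i)) (fun i => by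
        refine (hYc i).trans (le_trans ?_ (hD2 i))
        apply mul_le_mul_of_nonneg_right _ (Nat.cast_nonneg _)
        exact pow_le_pow_of_le_one hρ0.le hρ1 hsc) k
      refine ⟨Function.update u k v, D', fun i => (hD'1 i).trans (hD1 i), ?_, ?_⟩
      · intro i
        rw [Finset.card_insert_of_notMem hk, pow_succ']
        refine le_trans ?_ (hD'2 i)
        rw [← hρ, mul_assoc]
        exact mul_le_mul_of_nonneg_left (hD2 i) hρ0.le
      · intro j hj i hij x hx
        by_cases hjk : j = k
        · rw [hjk, Function.update_self]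
          exact hD'3 i (hjk ▸ hij) x hx
        · rw [Function.update_of_ne hjk]
          rw [Finset.mem_insert] at hj
          exact hD3 j (hj.resolve_left hjk) i hij x (hD'1 i hx)
  obtain ⟨u, D, h1, h2, h3⟩ := key Finset.univ
  refine ⟨u, D, h1, ?_, fun j i hij x hx => h3 j (Finset.mem_univ j) i hij x hx⟩
  intro i
  have := h2 i
  simpa using this

end Pool.Agent.Helper42.Sel
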