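import Mathlib
import Pool.Agent.Helper42.Sel.MM

set_option autoImplicit false

open Finset Filter Topology

namespace Pool.Agent.Helper42.Sel

theorem homogeneous (d : ℕ) (hd : 0 < d) :
    ∃ c : ℝ, 0 < c ∧ ∀ C : Fin (d + 1) → Finset (Fin d → ℝ), (∀ i, (C i).Nonempty) →
      ∃ (p : Fin d → ℝ) (D : Fin (d + 1) → Finset (Fin d → ℝ)), (∀ i, D i ⊆ C i) ∧
        (∀ i, c * (C i).card ≤ (D i).card) ∧
        ∀ x : Fin (d + 1) → (Fin d → ℝ), (∀ i, x i ∈ D i) → p ∈ convexHull ℝ (Set.range x) := by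
  classical
  set β0 : ℝ := 1 / (2 * ((d + 1).factorial : ℝ)) with hβ0
  have hfpos : (0 : ℝ) < ((d + 1).factorial : ℝ) := by exact_mod_cast Nat.factorial_pos _
  have hβ0pos : 0 < β0 := by positivity
  set ε : ℝ := (1 / (2 * ((d : ℝ) + 1))) ^ (d + 1) with hε
  have hεpos : 0 < ε := by positivity
  obtain ⟨m, hm⟩ := pow_unbounded_of_one_lt (1 / β0)
    (show (1 : ℝ) < 1 + ε ^ (d + 1) / 2 by
      have : 0 < ε ^ (d + 1) := by positivity
      linarith)
  have hm' : 1 < β0 * (1 + ε ^ (d + 1) / 2) ^ m := by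
    rw [div_lt_iff₀ hβ0pos] at hm
    linarith
  set θ : ℝ := (min 1 (β0 * ε ^ (d + 1) / (2 * (d + 1)))) ^ m with hθ
  have hθpos : 0 < θ := pow_pos (lt_min one_pos (by positivity)) m
  refine ⟨θ * ε, by positivity, ?_⟩
  intro C hC
  obtain ⟨N, hN⟩ := exists_nat_gt (2 * (d : ℝ) * (d + 1) / (ε * θ))
  have hNpos' : (0 : ℝ) < N := lt_of_le_of_lt (by positivity) hN
  have hNpos : 0 < N := by exact_mod_cast hNpos'
  have hN' : 2 * (d : ℝ) * (d + 1) ≤ ε * θ * N := by
    rw [div_lt_iff₀ (by positivity)] at hN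
    linarith
  obtain ⟨R, hR, hblow⟩ := exists_blowup hd C N
  have key := limit_lemma (fun (j : ∀ i, C i) (i : Fin (d + 1)) => (j i).val)
    (fun H => ∃ E : ∀ i, Finset (C i), (∀ i, θ * ε * ((C i).card : ℝ) ≤ ((E i).card : ℝ)) ∧
      H = Finset.univ.filter (fun j : ∀ i, C i => ∀ i, j i ∈ E i)) (by
    rintro H ⟨E, hE, rfl⟩
    have hEne : ∀ i, (E i).Nonempty := by
      intro i
      rw [← Finset.card_pos]
      have h1 : (0 : ℝ) < (C i).card := by exact_mod_cast (hC i).card_pos
      have : (0 : ℝ) < ((E i).card : ℝ) := lt_of_lt_of_le (by positivity) (hE i)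
      exact_mod_cast this
    choose e he using hEne
    exact ⟨e, by simp [he]⟩) (by
    intro ε' hε'
    obtain ⟨x', hx1, hx2, hgen⟩ := hblow (min ε' 1) (by positivity) (min_le_right _ _)
    have hC'ne : ∀ i, (BC C N x' i).Nonempty := by
      intro i
      rw [← Finset.card_pos, BC_card hx2]
      exact Nat.mul_pos (hC i).card_pos hNpos
    obtain ⟨p, hp⟩ := coloured_selection hd (BC C N x') hC'ne
    obtain ⟨Y, hY1, hY2, hY3, hY4⟩ := regularity β0 ε hβ0pos hεpos m (BC C N x') hC'ne p β0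
      (le_refl _) hp hm'
    have hYW : ∀ i, Y i ⊆ U (BC C N x') 0 := by
      intro i z hz
      rw [mem_U]
      exact ⟨i, Nat.zero_le _, hY1 i hz⟩
    have hYc : ∀ i, 2 * (d : ℝ) * (d + 1) ≤ (1 / (2 * ((d : ℝ) + 1))) ^ (d + 1) * (Y i).card := by
      intro i
      rw [← hε]
      refine hN'.trans ?_
      rw [mul_assoc]
      apply mul_le_mul_of_nonneg_left _ hεpos.le
      refine le_trans ?_ (hY3 i)
      rw [← hθ]
      apply mul_le_mul_of_nonneg_left _ hθpos.le
      rw [BC_card hx2]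
      have h1 : 1 ≤ (C i).card := (hC i).card_pos
      have h2 : (1 : ℝ) ≤ (C i).card := by exact_mod_cast h1
      push_cast
      nlinarith
    obtain ⟨u, D, hD1, hD2, hD3⟩ := cuts hd (U (BC C N x') 0) hgen.gen0 p Y hYW hYc
    have hpos := hY4 D hD1 hD2
    -- a transversal containing p
    unfold hits at hpos
    rw [Finset.card_pos] at hpos
    obtain ⟨ystar, hystar⟩ := hpos
    rw [Finset.mem_filter, Fintype.mem_piFinset] at hystar
    have hall := fun y hy => all_contain hd u p D hD3 ystar hystar.1 hystar.2 y hy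
    -- choose representatives
    let κ : ∀ i, C i → Fin N := fun i c =>
      if h : ∃ k, x' ⟨i, (c, k)⟩ ∈ D i then h.choose else ⟨0, hNpos⟩
    have hκ : ∀ i (c : C i), (∃ k, x' ⟨i, (c, k)⟩ ∈ D i) → x' ⟨i, (c, κ i c)⟩ ∈ D i := by
      intro i c h
      simp only [κ]
      rw [dif_pos h]
      exact h.choose_spec
    let E : ∀ i, Finset (C i) := fun i => Finset.univ.filter (fun c => ∃ k, x' ⟨i, (c, k)⟩ ∈ D i)
    refine ⟨fun j i => x' ⟨i, (j i, κ i (j i))⟩, ?_, Finset.univ.filter (fun j : ∀ i, C i => ∀ i, j i ∈ E i),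
      ⟨E, ?_, rfl⟩, p, ?_⟩
    · intro j i
      exact (hx1 ⟨i, (j i, κ i (j i))⟩).le.trans (min_le_left _ _)
    · intro i
      have hsub : D i ⊆ ((E i) ×ˢ (Finset.univ : Finset (Fin N))).image (fun cN => x' ⟨i, cN⟩) := by
        intro z hz
        have hz' := hY1 i (hD1 i hz)
        simp only [BC, Finset.mem_image, Finset.mem_univ, true_and] at hz'
        obtain ⟨⟨c, k⟩, rfl⟩ := hz'
        rw [Finset.mem_image]
        refine ⟨(c, k), ?_, rfl⟩
        simp only [Finset.mem_product, Finset.mem_univ, and_true, E, Finset.mem_filter, true_and]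
        exact ⟨k, hz⟩
      have h1 := (Finset.card_le_card hsub).trans Finset.card_image_le
      rw [Finset.card_product, Finset.card_univ, Fintype.card_fin] at h1
      have h2 : ((D i).card : ℝ) ≤ (E i).card * N := by exact_mod_cast h1
      have h3 := hD2 i
      have h4 := hY3 i
      rw [← hε] at h3
      rw [← hθ, BC_card hx2] at h4
      push_cast at h4
      have h5 : θ * ε * ((C i).card : ℝ) * N ≤ (E i).card * N := by
        calc θ * ε * ((C i).card : ℝ) * N = ε * (θ * ((C i).card * N)) := by ring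
          _ ≤ ε * (Y i).card := mul_le_mul_of_nonneg_left h4 hεpos.le
          _ ≤ (D i).card := h3
          _ ≤ _ := h2
      exact le_of_mul_le_mul_right h5 hNpos'
    · intro j hj
      rw [Finset.mem_filter] at hj
      apply hall
      intro i
      apply hκ
      exact (Finset.mem_filter.mp (hj.2 i)).2)
  obtain ⟨H, ⟨E, hE, rfl⟩, p, hp⟩ := key
  refine ⟨p, fun i => (E i).map ⟨Subtype.val, Subtype.val_injective⟩, ?_, ?_, ?_⟩
  · intro i z hz
    rw [Finset.mem_map] at hz
    obtain ⟨c, _, rfl⟩ := hz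
    exact c.2
  · intro i
    rw [Finset.card_map]
    exact hE i
  · intro x hx
    have h1 : ∀ i, ∃ c ∈ E i, c.val = x i := by
      intro i
      have := hx i
      rw [Finset.mem_map] at this
      obtain ⟨c, hc, hc'⟩ := this
      exact ⟨c, hc, hc'⟩
    choose c hc hc' using h1
    have h2 := hp c (by rw [Finset.mem_filter]; exact ⟨Finset.mem_univ _, hc⟩)
    have h3 : (fun i => (c i).val) = x := funext hc'
    rw [← h3]
    exact h2

end Pool.Agent.Helper42.Sel
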